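import Pool.Agent.Helper32.CH.Defs

/-!
MP_7116bc_gt, convex hypersurfaces, core part 1: normalised bodies, gauge functions,
supporting functionals.
-/

set_option autoImplicit false

namespace Pool.Agent.Helper32.CH

open Set Filter Topology
open scoped Pointwise

/-- A convex body in normalised position: `0` is interior, the disc of radius `r` orthogonal to
the unit vector `u` is contained in `K`, and `K` is contained in the ball of radius `R`. -/
structure NB {E : Type*} [NormedAddCommGroup E] [InnerProductSpace ℝ E] (K : Set E) (u : E)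
    (r R : ℝ) : Prop where
  conv : Convex ℝ K
  comp : IsCompact K
  zero : (0 : E) ∈ interior K
  hu : ‖u‖ = 1
  hr : 0 < r
  hrR : r ≤ R
  disc : ∀ x, inner ℝ u x = 0 → ‖x‖ ≤ r → x ∈ K
  ball : ∀ x ∈ K, ‖x‖ ≤ R

section

variable {E : Type*} [NormedAddCommGroup E] [InnerProductSpace ℝ E]

/-- Horizontal part of `x`. -/
noncomputable def yc (u x : E) : E := x - (inner ℝ u x : ℝ) • u

/-- The cylinder over `K` in direction `u`. -/
def Cyl (K : Set E) (u : E) : Set E := {x | ∃ t : ℝ, x + t • u ∈ K}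

/-- Gauge of the cylinder: the gauge of the projection of `K` along `u`. -/
noncomputable def gP (K : Set E) (u x : E) : ℝ := gauge (Cyl K u) x

/-- The half line from `p` in direction `u` does not meet the interior of `K`. -/
def Up (K : Set E) (u p : E) : Prop := ∀ t : ℝ, 0 ≤ t → p + t • u ∉ interior K

variable {K : Set E} {u : E} {r R : ℝ}

theorem inner_self_one (h : NB K u r R) : (inner ℝ u u : ℝ) = 1 := by
  rw [real_inner_self_eq_norm_sq, h.hu]; norm_num

theorem yc_orth (h : NB K u r R) (x : E) : (inner ℝ u (yc u x) : ℝ) = 0 := by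
  unfold yc
  rw [inner_sub_right, inner_smul_right, inner_self_one h]; ring

theorem yc_add (x : E) : yc u x + (inner ℝ u x : ℝ) • u = x := by
  unfold yc; abel

theorem norm_sq_split (h : NB K u r R) (x : E) :
    ‖x‖ ^ 2 = ‖yc u x‖ ^ 2 + (inner ℝ u x : ℝ) ^ 2 := by
  have h1 : ‖x‖ ^ 2 = ‖yc u x + (inner ℝ u x : ℝ) • u‖ ^ 2 := by rw [yc_add]
  have h2 : (inner ℝ (yc u x) u : ℝ) = 0 := by rw [real_inner_comm]; exact yc_orth h x
  rw [h1, norm_add_sq_real, inner_smul_right, h2, norm_smul, h.hu]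
  simp

theorem norm_yc_le (h : NB K u r R) (x : E) : ‖yc u x‖ ≤ ‖x‖ := by
  have := norm_sq_split h x
  nlinarith [norm_nonneg x, norm_nonneg (yc u x), sq_nonneg (inner ℝ u x : ℝ)]

theorem abs_inner_le (h : NB K u r R) (x : E) : |(inner ℝ u x : ℝ)| ≤ ‖x‖ := by
  have := abs_real_inner_le_norm u x
  rwa [h.hu, one_mul] at this

theorem yc_add' (x y : E) : yc u (x + y) = yc u x + yc u y := by
  unfold yc; rw [inner_add_right, add_smul]; abel

theorem yc_sub' (x y : E) : yc u (x - y) = yc u x - yc u y := by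
  unfold yc; rw [inner_sub_right, sub_smul]; abel

theorem yc_smul (c : ℝ) (x : E) : yc u (c • x) = c • yc u x := by
  unfold yc; rw [inner_smul_right, smul_sub, smul_smul]

theorem yc_u (h : NB K u r R) (t : ℝ) : yc u (t • u) = 0 := by
  unfold yc; rw [inner_smul_right, inner_self_one h]; simp

theorem yc_neg (x : E) : yc (-u) x = yc u x := by
  unfold yc; rw [inner_neg_left]; simp

theorem NB.neg (h : NB K u r R) : NB K (-u) r R where
  conv := h.conv
  comp := h.comp
  zero := h.zero
  hu := by rw [norm_neg]; exact h.hu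
  hr := h.hr
  hrR := h.hrR
  disc := fun x hx hxr => h.disc x (by rw [inner_neg_left] at hx; linarith) hxr
  ball := h.ball

theorem NB.hR (h : NB K u r R) : 0 < R := lt_of_lt_of_le h.hr h.hrR

theorem NB.zero_nhds (h : NB K u r R) : K ∈ 𝓝 (0 : E) := mem_interior_iff_mem_nhds.1 h.zero

theorem NB.zero_mem (h : NB K u r R) : (0 : E) ∈ K := interior_subset h.zero

theorem Cyl_neg : Cyl K (-u) = Cyl K u := by
  ext x
  constructor
  · rintro ⟨t, ht⟩; exact ⟨-t, by simpa using ht⟩
  · rintro ⟨t, ht⟩; exact ⟨-t, by simpa using ht⟩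

theorem gP_neg (x : E) : gP K (-u) x = gP K u x := by
  unfold gP; rw [Cyl_neg]

theorem subset_Cyl : K ⊆ Cyl K u := fun x hx => ⟨0, by simpa using hx⟩

theorem NB.Cyl_nhds (h : NB K u r R) : Cyl K u ∈ 𝓝 (0 : E) :=
  mem_of_superset h.zero_nhds subset_Cyl

theorem NB.Cyl_conv (h : NB K u r R) : Convex ℝ (Cyl K u) := by
  rintro x ⟨t, ht⟩ y ⟨s, hs⟩ a b ha hb hab
  refine ⟨a * t + b * s, ?_⟩
  have := h.conv ht hs ha hb hab
  convert this using 1
  rw [smul_add, smul_add, smul_smul, smul_smul, add_smul]; abel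

theorem NB.Cyl_closed (h : NB K u r R) : IsClosed (Cyl K u) := by
  have h1 : Cyl K u = K + ((Submodule.span ℝ {u} : Submodule ℝ E) : Set E) := by
    ext x
    constructor
    · rintro ⟨t, ht⟩
      refine ⟨x + t • u, ht, (-t) • u, ?_, by simp⟩
      exact Submodule.smul_mem _ _ (Submodule.mem_span_singleton_self u)
    · rintro ⟨k, hk, w, hw, rfl⟩
      obtain ⟨t, rfl⟩ := Submodule.mem_span_singleton.1 hw
      exact ⟨-t, by simpa using hk⟩
  rw [h1]
  exact IsClosed.add_left_of_isCompact (Submodule.closed_of_finiteDimensional _) h.comp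

theorem gP_nonneg (x : E) : 0 ≤ gP K u x := gauge_nonneg _

theorem NB.gP_add_le (h : NB K u r R) (x y : E) : gP K u (x + y) ≤ gP K u x + gP K u y :=
  gauge_add_le h.Cyl_conv (absorbent_nhds_zero h.Cyl_nhds) x y

theorem gP_smul {c : ℝ} (hc : 0 ≤ c) (x : E) : gP K u (c • x) = c * gP K u x := by
  unfold gP; rw [gauge_smul_of_nonneg hc]; rfl

theorem NB.gP_le_aux (h : NB K u r R) {x : E} {a : ℝ} (ha : 0 < a) (hx : ‖yc u x‖ ≤ a * r) :
    gP K u x ≤ a := by
  refine gauge_le_of_mem ha.le ?_
  rw [mem_smul_set_iff_inv_smul_mem₀ ha.ne']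
  refine ⟨-(a⁻¹ * (inner ℝ u x : ℝ)), ?_⟩
  have h1 : a⁻¹ • x + (-(a⁻¹ * (inner ℝ u x : ℝ))) • u = a⁻¹ • yc u x := by
    unfold yc; rw [smul_sub, smul_smul, neg_smul]; abel
  rw [h1]
  apply h.disc
  · rw [inner_smul_right, yc_orth h]; simp
  · rw [norm_smul, Real.norm_eq_abs, abs_of_pos (inv_pos.2 ha), inv_mul_le_iff₀ ha]; exact hx

theorem NB.gP_le (h : NB K u r R) (x : E) : gP K u x ≤ ‖yc u x‖ / r := by
  refine le_of_forall_pos_le_add fun ε hε => ?_
  apply h.gP_le_aux
  · have : 0 ≤ ‖yc u x‖ / r := div_nonneg (norm_nonneg _) h.hr.le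
    linarith
  · rw [add_mul, div_mul_cancel₀ _ h.hr.ne']
    nlinarith [h.hr]

theorem NB.le_gP (h : NB K u r R) (x : E) : ‖yc u x‖ / R ≤ gP K u x := by
  by_contra hcon
  push Not at hcon
  obtain ⟨b, hb, hbx, hx⟩ := exists_lt_of_gauge_lt (absorbent_nhds_zero h.Cyl_nhds) hcon
  rw [mem_smul_set_iff_inv_smul_mem₀ hb.ne'] at hx
  obtain ⟨t, ht⟩ := hx
  have h1 : ‖yc u (b⁻¹ • x + t • u)‖ ≤ R := (norm_yc_le h _).trans (h.ball _ ht)
  rw [yc_add', yc_u h, add_zero, yc_smul, norm_smul, Real.norm_eq_abs,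
    abs_of_pos (inv_pos.2 hb), inv_mul_le_iff₀ hb] at h1
  rw [lt_div_iff₀ h.hR] at hbx
  linarith

theorem NB.gP_le_one (h : NB K u r R) {x : E} (hx : x ∈ K) : gP K u x ≤ 1 :=
  gauge_le_one_of_mem (subset_Cyl hx)

theorem NB.abs_gP_sub (h : NB K u r R) (x y : E) :
    |gP K u x - gP K u y| ≤ ‖yc u (x - y)‖ / r := by
  rw [abs_sub_le_iff]
  constructor
  · have h1 := h.gP_add_le (x - y) y
    rw [sub_add_cancel] at h1
    have h2 := h.gP_le (x - y)
    linarith
  · have h1 := h.gP_add_le (y - x) x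
    rw [sub_add_cancel] at h1
    have h2 := h.gP_le (y - x)
    have h3 : ‖yc u (y - x)‖ = ‖yc u (x - y)‖ := by
      rw [yc_sub', yc_sub', norm_sub_rev]
    rw [h3] at h2
    linarith

theorem NB.abs_gP_sub' (h : NB K u r R) (x y : E) :
    |gP K u x - gP K u y| ≤ ‖x - y‖ / r :=
  (h.abs_gP_sub x y).trans (div_le_div_of_nonneg_right (norm_yc_le h _) h.hr.le)

theorem NB.gP_congr (h : NB K u r R) {x y : E} (hxy : yc u x = yc u y) :
    gP K u x = gP K u y := by
  have := h.abs_gP_sub x y
  rw [yc_sub', hxy, sub_self, norm_zero, zero_div] at this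
  have := abs_nonpos_iff.1 this
  linarith

/-- A point of `K` over the boundary of the projection. -/
theorem NB.exists_rim (h : NB K u r R) {x : E} (hx : gP K u x ≠ 0) :
    ∃ t : ℝ, (gP K u x)⁻¹ • yc u x + t • u ∈ K := by
  have hpos : 0 < gP K u x := lt_of_le_of_ne (gP_nonneg x) (Ne.symm hx)
  have h1 : gP K u (yc u x) = gP K u x := by
    apply h.gP_congr
    have h2 : yc u (yc u x) = yc u x := by
      conv_lhs => unfold yc
      rw [show (inner ℝ u (x - (inner ℝ u x : ℝ) • u) : ℝ) = 0 from yc_orth h x]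
      unfold yc; simp
    exact h2
  have h3 : gP K u ((gP K u x)⁻¹ • yc u x) ≤ 1 := by
    rw [gP_smul (inv_nonneg.2 hpos.le), h1, inv_mul_cancel₀ hx]
  have h4 := mem_closure_of_gauge_le_one h.Cyl_conv (mem_of_mem_nhds h.Cyl_nhds)
    (absorbent_nhds_zero h.Cyl_nhds) h3
  rw [h.Cyl_closed.closure_eq] at h4
  exact h4

theorem NB.frontier_subset (h : NB K u r R) : frontier K ⊆ K := h.comp.isClosed.frontier_subset

theorem NB.mem_frontier (h : NB K u r R) {p : E} : p ∈ frontier K ↔ gauge K p = 1 :=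
  (gauge_eq_one_iff_mem_frontier h.conv h.zero_nhds).symm

theorem NB.subset_closure_interior (h : NB K u r R) : K ⊆ closure (interior K) := by
  rw [h.conv.closure_interior_eq_closure_of_nonempty_interior ⟨0, h.zero⟩]
  exact subset_closure

/-- Supporting functional at an upper point. -/
theorem NB.exists_functional (h : NB K u r R) {p : E} (hp : p ∈ K) (hup : Up K u p) :
    ∃ f : E →L[ℝ] ℝ, 0 ≤ f u ∧ (∀ q ∈ K, f q ≤ f p) ∧ (∀ q ∈ interior K, f q < f p) ∧
      0 < f p := by
  have hray : Convex ℝ ((fun t : ℝ => p + t • u) '' Ici (0 : ℝ)) := by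
    rintro _ ⟨s, hs, rfl⟩ _ ⟨t, ht, rfl⟩ a b ha hb hab
    refine ⟨a * s + b * t, ?_, ?_⟩
    · simp only [mem_Ici] at hs ht ⊢
      positivity
    · simp only
      rw [smul_add, smul_add, smul_smul, smul_smul, add_smul]
      have : a • p + b • p = p := by rw [← add_smul, hab, one_smul]
      conv_lhs => rw [← this]
      abel
  have hdisj : Disjoint (interior K) ((fun t : ℝ => p + t • u) '' Ici (0 : ℝ)) := by
    rw [Set.disjoint_left]
    rintro x hx ⟨t, ht, rfl⟩
    exact hup t ht hx
  obtain ⟨f, c, hf1, hf2⟩ := geometric_hahn_banach_open h.conv.interior isOpen_interior hray hdisj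
  have hcp : c ≤ f p := by
    have := hf2 (p + (0 : ℝ) • u) ⟨0, by simp, rfl⟩
    simpa using this
  have hle : ∀ q ∈ K, f q ≤ c := by
    intro q hq
    have h1 := h.subset_closure_interior hq
    exact closure_minimal (fun x hx => (hf1 x hx).le)
      (isClosed_le f.continuous continuous_const) h1
  have hpc : f p = c := le_antisymm (hle p hp) hcp
  refine ⟨f, ?_, fun q hq => (hle q hq).trans hcp, fun q hq => (hf1 q hq).trans_le hcp, ?_⟩
  · have := hf2 (p + (1 : ℝ) • u) ⟨1, by simp, rfl⟩
    simp only [one_smul, map_add] at this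
    linarith
  · have := hf1 0 h.zero
    simp only [map_zero] at this
    linarith

theorem NB.up_or_low (h : NB K u r R) {p : E} (hp : p ∈ frontier K) :
    Up K u p ∨ Up K (-u) p := by
  by_contra hcon
  push Not at hcon
  obtain ⟨h1, h2⟩ := hcon
  unfold Up at h1 h2
  push Not at h1 h2
  obtain ⟨s, hs, hs'⟩ := h1
  obtain ⟨t, ht, ht'⟩ := h2
  have hpi : p ∉ interior K := fun hpi => hp.2 hpi
  rcases eq_or_lt_of_le hs with rfl | hs0
  · exact hpi (by simpa using hs')
  rcases eq_or_lt_of_le ht with rfl | ht0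
  · exact hpi (by simpa using ht')
  have hst : 0 < s + t := by linarith
  have := h.conv.interior hs' ht' (a := t / (s + t)) (b := s / (s + t)) (by positivity)
    (by positivity) (by field_simp; ring)
  apply hpi
  convert this using 1
  rw [smul_add, smul_add, smul_smul, smul_smul, smul_neg]
  have h5 : (t / (s + t)) • p + (s / (s + t)) • p = p := by
    rw [← add_smul]
    rw [show t / (s + t) + s / (s + t) = 1 by field_simp; ring, one_smul]
  have h6 : (t / (s + t) * s) • u = (s / (s + t) * t) • u := by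
    congr 1; ring
  rw [h6]
  nth_rewrite 1 [← h5]
  abel

/-- If the functional of an upper point kills `u`, the point is also a lower point. -/
theorem low_of_functional {p : E} {f : E →L[ℝ] ℝ} (hfu : f u = 0)
    (hf : ∀ q ∈ interior K, f q < f p) : Up K (-u) p := by
  intro t _ hmem
  have := hf _ hmem
  simp only [map_add, map_smul, map_neg, hfu] at this
  simp at this

theorem NB.gP_eq_one (h : NB K u r R) {p : E} (hp : p ∈ K) (h1 : Up K u p) (h2 : Up K (-u) p) :
    gP K u p = 1 := by
  -- separate the line through `p` from the interior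
  have hline : Convex ℝ (Set.range (fun t : ℝ => p + t • u)) := by
    rintro _ ⟨s, rfl⟩ _ ⟨t, rfl⟩ a b ha hb hab
    refine ⟨a * s + b * t, ?_⟩
    simp only
    rw [smul_add, smul_add, smul_smul, smul_smul, add_smul]
    have : a • p + b • p = p := by rw [← add_smul, hab, one_smul]
    conv_lhs => rw [← this]
    abel
  have hdisj : Disjoint (interior K) (Set.range (fun t : ℝ => p + t • u)) := by
    rw [Set.disjoint_left]
    rintro x hx ⟨t, rfl⟩
    rcases le_total 0 t with ht | ht
    · exact h1 t ht hx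
    · refine h2 (-t) (by linarith) ?_
      simpa using hx
  obtain ⟨f, c, hf1, hf2⟩ := geometric_hahn_banach_open h.conv.interior isOpen_interior hline hdisj
  have hcp : c ≤ f p := by
    have := hf2 (p + (0 : ℝ) • u) ⟨0, rfl⟩
    simpa using this
  have hle : ∀ q ∈ K, f q ≤ c := by
    intro q hq
    exact closure_minimal (fun x hx => (hf1 x hx).le)
      (isClosed_le f.continuous continuous_const) (h.subset_closure_interior hq)
  have hpc : f p = c := le_antisymm (hle p hp) hcp
  have hc0 : 0 < c := by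
    have := hf1 0 h.zero
    simpa using this
  have hfu : f u = 0 := by
    by_contra hne
    have := hf2 (p + (-(1 / f u)) • u) ⟨_, rfl⟩
    simp only [map_add, map_smul, smul_eq_mul, hpc] at this
    have h3 : -(1 / f u) * f u = -1 := by field_simp
    linarith
  refine le_antisymm (h.gP_le_one hp) ?_
  by_contra hcon
  push Not at hcon
  obtain ⟨b, hb, hb1, hx⟩ := exists_lt_of_gauge_lt (absorbent_nhds_zero h.Cyl_nhds) hcon
  rw [mem_smul_set_iff_inv_smul_mem₀ hb.ne'] at hx
  obtain ⟨t, ht⟩ := hx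
  have h4 := hle _ ht
  simp only [map_add, map_smul, smul_eq_mul, hfu, mul_zero, add_zero, hpc] at h4
  rw [inv_mul_le_iff₀ hb] at h4
  nlinarith

end

end Pool.Agent.Helper32.CH
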