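import Pool.Agent.Helper32.CH.Core1

/-!
MP_7116bc_gt, convex hypersurfaces, core part 2: the meridian coordinate `s` and its
monotonicity.
-/

set_option autoImplicit false

namespace Pool.Agent.Helper32.CH

open Set Filter Topology
open scoped Pointwise

section

variable {E : Type*} [NormedAddCommGroup E] [InnerProductSpace ℝ E]
variable {K : Set E} {u : E} {r R : ℝ}

theorem NB.inner_pt (h : NB K u r R) {θ : E} (hθu : (inner ℝ u θ : ℝ) = 0) (ρ z : ℝ) :
    (inner ℝ u (ρ • θ + z • u) : ℝ) = z := by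
  rw [inner_add_right, inner_smul_right, inner_smul_right, hθu, inner_self_one h]; ring

theorem NB.yc_pt (h : NB K u r R) {θ : E} (hθu : (inner ℝ u θ : ℝ) = 0) (ρ z : ℝ) :
    yc u (ρ • θ + z • u) = ρ • θ := by
  unfold yc; rw [h.inner_pt hθu]; abel

theorem NB.yc_orth' (h : NB K u r R) {θ : E} (hθu : (inner ℝ u θ : ℝ) = 0) :
    yc u θ = θ := by
  unfold yc; rw [hθu]; simp

theorem NB.abs_z_le (h : NB K u r R) {θ : E} (hθu : (inner ℝ u θ : ℝ) = 0) {ρ z : ℝ}
    (hp : ρ • θ + z • u ∈ K) : |z| ≤ R := by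
  have := (abs_inner_le h _).trans (h.ball _ hp)
  rwa [h.inner_pt hθu] at this

theorem NB.gP_pt (h : NB K u r R) {θ : E} (hθu : (inner ℝ u θ : ℝ) = 0) {ρ z : ℝ}
    (hρ : 0 ≤ ρ) : gP K u (ρ • θ + z • u) = ρ * gP K u θ := by
  rw [← gP_smul hρ]
  apply h.gP_congr
  rw [h.yc_pt hθu, yc_smul, h.yc_orth' hθu]

theorem NB.inv_le_gP (h : NB K u r R) {θ : E} (hθ : ‖θ‖ = 1) (hθu : (inner ℝ u θ : ℝ) = 0) :
    1 / R ≤ gP K u θ := by
  have := h.le_gP θ
  rwa [h.yc_orth' hθu, hθ] at this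

theorem NB.gP_le_inv (h : NB K u r R) {θ : E} (hθ : ‖θ‖ = 1) (hθu : (inner ℝ u θ : ℝ) = 0) :
    gP K u θ ≤ 1 / r := by
  have := h.gP_le θ
  rwa [h.yc_orth' hθu, hθ] at this

theorem NB.slope (h : NB K u r R) {θ : E} (hθ : ‖θ‖ = 1) (hθu : (inner ℝ u θ : ℝ) = 0)
    {ρ z : ℝ} (hρ : 0 ≤ ρ) (hp : ρ • θ + z • u ∈ K) {f : E →L[ℝ] ℝ} (hfu : 0 ≤ f u)
    (hf : ∀ q ∈ K, f q ≤ f (ρ • θ + z • u)) : -(f θ) * r ≤ R * f u := by
  have hr := h.hr
  have hR := h.hR
  have h1 : (-r) • θ ∈ K := by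
    apply h.disc
    · rw [inner_smul_right, hθu]; ring
    · rw [norm_smul, hθ, Real.norm_eq_abs, abs_neg, abs_of_pos hr]; linarith
  have h2 := hf _ h1
  simp only [map_add, map_smul, smul_eq_mul] at h2
  have h3 := (abs_le.1 (h.abs_z_le hθu hp)).2
  rcases le_total 0 (f θ) with h4 | h4
  · nlinarith
  · have h5 : z * f u ≤ R * f u := mul_le_mul_of_nonneg_right h3 hfu
    nlinarith [mul_nonneg hρ (neg_nonneg.2 h4)]

/-- Main inequality along a meridian, moving outwards from an upper point. -/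
theorem NB.mono_up (h : NB K u r R) {θ : E} (hθ : ‖θ‖ = 1) (hθu : (inner ℝ u θ : ℝ) = 0)
    {ρ z ρ' z' : ℝ} (hρ : 0 ≤ ρ) (hρρ : ρ ≤ ρ') (hp : ρ • θ + z • u ∈ K)
    (hc : ρ' • θ + z' • u ∈ K) {f : E →L[ℝ] ℝ} (hfu : 0 ≤ f u)
    (hf : ∀ q ∈ K, f q ≤ f (ρ • θ + z • u)) (hfp : 0 < f (ρ • θ + z • u)) :
    (0 < f u → r / (4 * R ^ 2) * ((ρ' - ρ) + |z' - z|) ≤
      (ρ' - ρ) * gP K u θ - r / (2 * R ^ 2) * (z' - z)) ∧ (f u = 0 → ρ' = ρ) := by
  have hr := h.hr
  have hR := h.hR
  have hrR := h.hrR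
  have hs := h.slope hθ hθu hρ hp hfu hf
  have hg := h.inv_le_gP hθ hθu
  have h1 := hf _ hc
  simp only [map_add, map_smul, smul_eq_mul] at h1 hfp
  have h2 : f θ * (ρ' - ρ) + f u * (z' - z) ≤ 0 := by linarith
  constructor
  · intro hfu'
    set dρ := ρ' - ρ with hdρ
    set dz := z' - z with hdz
    have hdρ0 : 0 ≤ dρ := by rw [hdρ]; linarith
    have h3 : dρ * (1 / R) ≤ dρ * gP K u θ := mul_le_mul_of_nonneg_left hg hdρ0
    rcases le_total dz 0 with h4 | h4
    · rw [abs_of_nonpos h4]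
      have h5 : r / (4 * R ^ 2) ≤ 1 / R := by
        rw [div_le_div_iff₀ (by positivity) hR]; nlinarith
      have h6 : r / (4 * R ^ 2) ≤ r / (2 * R ^ 2) := by
        apply div_le_div_of_nonneg_left hr.le (by positivity); nlinarith [sq_nonneg R]
      have h7 : r / (4 * R ^ 2) * dρ ≤ 1 / R * dρ := mul_le_mul_of_nonneg_right h5 hdρ0
      have h8 : r / (4 * R ^ 2) * (-dz) ≤ r / (2 * R ^ 2) * (-dz) :=
        mul_le_mul_of_nonneg_right h6 (by linarith)
      have h9 : dρ * (1 / R) = 1 / R * dρ := by ring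
      nlinarith
    · rw [abs_of_nonneg h4]
      -- r * dz ≤ R * dρ
      have h5 : r * dz ≤ R * dρ := by
        have h6 : f u * (r * dz) ≤ f u * (R * dρ) := by
          have h7 : f u * dz * r ≤ -(f θ) * dρ * r := by nlinarith
          have h8 : -(f θ) * r * dρ ≤ R * f u * dρ := mul_le_mul_of_nonneg_right hs hdρ0
          nlinarith
        exact le_of_mul_le_mul_left h6 hfu'
      have h6 : r / (2 * R ^ 2) * dz ≤ 1 / (2 * R) * dρ := by
        have : r / (2 * R ^ 2) * dz = (r * dz) / (2 * R ^ 2) := by ring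
        rw [this, div_le_iff₀ (by positivity)]
        have h7 : 1 / (2 * R) * dρ * (2 * R ^ 2) = R * dρ := by field_simp
        rw [h7]; exact h5
      have h7 : r / (4 * R ^ 2) * (dρ + dz) ≤ 1 / (2 * R) * dρ := by
        have : r / (4 * R ^ 2) * (dρ + dz) = (r * dρ + r * dz) / (4 * R ^ 2) := by ring
        rw [this, div_le_iff₀ (by positivity)]
        have h8 : 1 / (2 * R) * dρ * (4 * R ^ 2) = 2 * (R * dρ) := by field_simp; ring
        rw [h8]
        have h9 : r * dρ ≤ R * dρ := mul_le_mul_of_nonneg_right hrR hdρ0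
        linarith
      have h8 : dρ * (1 / R) = 1 / (2 * R) * dρ + 1 / (2 * R) * dρ := by field_simp; ring
      linarith
  · intro hfu0
    rw [hfu0] at hs h2 hfp
    simp only [mul_zero, add_zero, zero_mul] at hs h2 hfp
    have h3 : 0 ≤ f θ := by nlinarith
    have h4 : 0 < f θ := by
      rcases eq_or_lt_of_le h3 with h5 | h5
      · rw [← h5] at hfp; simp at hfp
      · exact h5
    have h5 : ρ' - ρ ≤ 0 := by
      by_contra h6
      push Not at h6
      have := mul_pos h4 h6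
      linarith
    linarith

/-- Distance of the height from the top, for an upper point. -/
theorem NB.top_bound (h : NB K u r R) {θ : E} (hθ : ‖θ‖ = 1) (hθu : (inner ℝ u θ : ℝ) = 0)
    {ρ z za : ℝ} (hρ : 0 ≤ ρ) (hp : ρ • θ + z • u ∈ K) (ha : za • u ∈ K)
    {f : E →L[ℝ] ℝ} (hfu : 0 ≤ f u)
    (hf : ∀ q ∈ K, f q ≤ f (ρ • θ + z • u)) (hfp : 0 < f (ρ • θ + z • u)) :
    za - z ≤ 4 * R / r * ρ := by
  have hr := h.hr
  have hR := h.hR
  have hz := abs_le.1 (h.abs_z_le hθu hp)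
  have hza : |za| ≤ R := by
    have := h.ball _ ha
    rwa [norm_smul, h.hu, mul_one, Real.norm_eq_abs] at this
  have hza' := abs_le.1 hza
  rcases le_or_gt (r / 2) ρ with h1 | h1
  · have : 2 * R ≤ 4 * R / r * ρ := by
      rw [div_mul_eq_mul_div, le_div_iff₀ hr]; nlinarith
    linarith [hz.1, hza'.2]
  · have h2 := hf _ ha
    have h3 : r • θ ∈ K := by
      apply h.disc
      · rw [inner_smul_right, hθu]; ring
      · rw [norm_smul, hθ, Real.norm_eq_abs, abs_of_pos hr]; linarith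
    have h4 := hf _ h3
    simp only [map_add, map_smul, smul_eq_mul] at h2 h4 hfp
    have h5 : (r - ρ) * f θ ≤ R * f u := by
      have : z * f u ≤ R * f u := mul_le_mul_of_nonneg_right hz.2 hfu
      linarith
    have hfu' : 0 < f u := by
      rcases eq_or_lt_of_le hfu with h6 | h6
      · rw [← h6] at h5 hfp
        simp only [mul_zero, add_zero] at h5 hfp
        have h7 : f θ ≤ 0 := by
          by_contra h8
          push Not at h8
          have : 0 < (r - ρ) * f θ := mul_pos (by linarith) h8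
          linarith
        nlinarith
      · exact h6
    have h6 : f θ ≤ 2 * R / r * f u := by
      rcases le_total (f θ) 0 with h7 | h7
      · have : 0 ≤ 2 * R / r * f u := by positivity
        linarith
      · have h8 : r / 2 * f θ ≤ R * f u :=
          (mul_le_mul_of_nonneg_right (by linarith : r / 2 ≤ r - ρ) h7).trans h5
        have h9 : 2 * R / r * f u = 2 * (R * f u) / r := by ring
        rw [h9, le_div_iff₀ hr]
        linarith
    have h7 : (za - z) * f u ≤ ρ * (2 * R / r) * f u := by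
      have : ρ * f θ ≤ ρ * (2 * R / r * f u) := mul_le_mul_of_nonneg_left h6 hρ
      nlinarith
    have h8 := le_of_mul_le_mul_right h7 hfu'
    have h9 : ρ * (2 * R / r) ≤ 4 * R / r * ρ := by
      have : 4 * R / r * ρ = ρ * (2 * R / r) + ρ * (2 * R / r) := by ring
      rw [this]
      have : 0 ≤ ρ * (2 * R / r) := by positivity
      linarith
    linarith

end

end Pool.Agent.Helper32.CH
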