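import Pool.Agent.Helper32.CH.Core2

/-!
MP_7116bc_gt, convex hypersurfaces, core part 3: the meridian coordinate `sc` on the boundary,
its bounds and its monotonicity.
-/

set_option autoImplicit false

namespace Pool.Agent.Helper32.CH

open Set Filter Topology
open scoped Pointwise

section

variable {E : Type*} [NormedAddCommGroup E] [InnerProductSpace ℝ E]

open Classical in
/-- Radial coordinate: gauge of the projection on the upper side, `2` minus it on the lower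
side. -/
noncomputable def sg (K : Set E) (u p : E) : ℝ :=
  if Up K (-u) p then 2 - gP K u p else gP K u p

/-- Height of the top point. -/
noncomputable def zt (K : Set E) (u : E) : ℝ := (gauge K u)⁻¹

/-- Height of the bottom point. -/
noncomputable def zb (K : Set E) (u : E) : ℝ := -(gauge K (-u))⁻¹

/-- The meridian coordinate. -/
noncomputable def sc (K : Set E) (u : E) (r R : ℝ) (p : E) : ℝ :=
  sg K u p + r / (2 * R ^ 2) * (zt K u - inner ℝ u p)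

/-- The full length of the meridian coordinate. -/
noncomputable def ell (K : Set E) (u : E) (r R : ℝ) : ℝ :=
  2 + r / (2 * R ^ 2) * (zt K u - zb K u)

variable {K : Set E} {u : E} {r R : ℝ}

theorem sg_low {p : E} (hp : Up K (-u) p) : sg K u p = 2 - gP K u p := by
  unfold sg; rw [if_pos hp]

theorem NB.sg_up (h : NB K u r R) {p : E} (hpK : p ∈ K) (hp : Up K u p) :
    sg K u p = gP K u p := by
  unfold sg
  split_ifs with h1
  · rw [h.gP_eq_one hpK hp h1]; norm_num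
  · rfl

theorem NB.lam_pos (h : NB K u r R) : 0 < r / (2 * R ^ 2) := by
  have := h.hr; have := h.hR; positivity

theorem NB.c0_pos (h : NB K u r R) : 0 < r / (4 * R ^ 2) := by
  have := h.hr; have := h.hR; positivity

theorem NB.c0_le_lam (h : NB K u r R) : r / (4 * R ^ 2) ≤ r / (2 * R ^ 2) := by
  have := h.hr; have := h.hR
  apply div_le_div_of_nonneg_left h.hr.le (by positivity); nlinarith [sq_nonneg R]

theorem pt_neg {θ : E} (ρ z : ℝ) : ρ • θ + z • u = ρ • θ + (-z) • (-u) := by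
  simp

theorem NB.mono_upup (h : NB K u r R) {θ : E} (hθ : ‖θ‖ = 1) (hθu : (inner ℝ u θ : ℝ) = 0)
    {ρ₁ z₁ ρ₂ z₂ : ℝ} (h1 : 0 ≤ ρ₁) (h2 : 0 ≤ ρ₂) (hp1 : ρ₁ • θ + z₁ • u ∈ K)
    (hp2 : ρ₂ • θ + z₂ • u ∈ K) (hu1 : Up K u (ρ₁ • θ + z₁ • u))
    (hu2 : Up K u (ρ₂ • θ + z₂ • u)) :
    r / (4 * R ^ 2) * (|ρ₁ - ρ₂| + |z₁ - z₂|) ≤
      |(ρ₁ * gP K u θ - r / (2 * R ^ 2) * z₁) - (ρ₂ * gP K u θ - r / (2 * R ^ 2) * z₂)| := by
  wlog hle : ρ₁ ≤ ρ₂ generalizing ρ₁ z₁ ρ₂ z₂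
  · push Not at hle
    have := this h2 h1 hp2 hp1 hu2 hu1 hle.le
    rw [abs_sub_comm ρ₁, abs_sub_comm z₁, abs_sub_comm (ρ₁ * gP K u θ - r / (2 * R ^ 2) * z₁)]
    exact this
  obtain ⟨f, hfu, hf, hf', hfp⟩ := h.exists_functional hp1 hu1
  obtain ⟨ha, hb⟩ := h.mono_up hθ hθu h1 hle hp1 hp2 hfu hf hfp
  rcases eq_or_lt_of_le hfu with h0 | h0
  · have h3 := hb h0.symm
    subst h3
    rw [sub_self, abs_zero, zero_add]
    have h4 : (ρ₂ * gP K u θ - r / (2 * R ^ 2) * z₁) - (ρ₂ * gP K u θ - r / (2 * R ^ 2) * z₂)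
        = r / (2 * R ^ 2) * (z₂ - z₁) := by ring
    rw [h4, abs_mul, abs_of_pos h.lam_pos, abs_sub_comm z₂]
    exact mul_le_mul_of_nonneg_right h.c0_le_lam (abs_nonneg _)
  · have h3 := ha h0
    rw [abs_sub_comm ρ₁, abs_of_nonneg (by linarith : 0 ≤ ρ₂ - ρ₁), abs_sub_comm z₁]
    refine h3.trans ?_
    rw [abs_sub_comm]
    refine le_trans (le_of_eq ?_) (le_abs_self _)
    ring

/-- Monotonicity of `sc` along meridians. -/
theorem NB.mono (h : NB K u r R) {θ : E} (hθ : ‖θ‖ = 1) (hθu : (inner ℝ u θ : ℝ) = 0)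
    {ρ₁ z₁ ρ₂ z₂ : ℝ} (h1 : 0 ≤ ρ₁) (h2 : 0 ≤ ρ₂) (hp1 : ρ₁ • θ + z₁ • u ∈ frontier K)
    (hp2 : ρ₂ • θ + z₂ • u ∈ frontier K) :
    r / (4 * R ^ 2) * (|ρ₁ - ρ₂| + |z₁ - z₂|) ≤
      |sc K u r R (ρ₁ • θ + z₁ • u) - sc K u r R (ρ₂ • θ + z₂ • u)| := by
  have hp1K := h.frontier_subset hp1
  have hp2K := h.frontier_subset hp2
  have hθu' : (inner ℝ (-u) θ : ℝ) = 0 := by rw [inner_neg_left, hθu]; simp
  -- mixed case
  have key : ∀ {ρ₁ z₁ ρ₂ z₂ : ℝ}, 0 ≤ ρ₁ → 0 ≤ ρ₂ → ρ₁ • θ + z₁ • u ∈ frontier K →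
      ρ₂ • θ + z₂ • u ∈ frontier K → Up K u (ρ₁ • θ + z₁ • u) →
      ¬ Up K (-u) (ρ₁ • θ + z₁ • u) → Up K (-u) (ρ₂ • θ + z₂ • u) →
      ¬ Up K u (ρ₂ • θ + z₂ • u) →
      r / (4 * R ^ 2) * (|ρ₁ - ρ₂| + |z₁ - z₂|) ≤
        |sc K u r R (ρ₁ • θ + z₁ • u) - sc K u r R (ρ₂ • θ + z₂ • u)| := by
    intro ρ₁ z₁ ρ₂ z₂ h1 h2 hp1 hp2 hu1 hl1 hl2 hu2
    have hp1K := h.frontier_subset hp1
    have hp2K := h.frontier_subset hp2
    have hR := h.hR
    have hgpos : 0 < gP K u θ := lt_of_lt_of_le (by positivity) (h.inv_le_gP hθ hθu)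
    obtain ⟨t, ht⟩ := h.exists_rim hgpos.ne'
    rw [h.yc_orth' hθu] at ht
    set ρm := (gP K u θ)⁻¹ with hρm
    have hρm1 : ρm * gP K u θ = 1 := inv_mul_cancel₀ hgpos.ne'
    have hle : ∀ {ρ z : ℝ}, 0 ≤ ρ → ρ • θ + z • u ∈ K → ρ ≤ ρm := by
      intro ρ z hρ hp
      have h3 := h.gP_le_one hp
      rw [h.gP_pt hθu hρ] at h3
      rw [hρm, inv_eq_one_div, le_div_iff₀ hgpos]; exact h3
    obtain ⟨f, hfu, hf, hf', hfp⟩ := h.exists_functional hp1K hu1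
    have hfu' : 0 < f u := by
      rcases eq_or_lt_of_le hfu with h0 | h0
      · exact absurd (low_of_functional h0.symm hf') hl1
      · exact h0
    have ha := (h.mono_up hθ hθu h1 (hle h1 hp1K) hp1K ht hfu hf hfp).1 hfu'
    have hp2K' : ρ₂ • θ + (-z₂) • (-u) ∈ K := by rw [← pt_neg]; exact hp2K
    have ht' : ρm • θ + (-t) • (-u) ∈ K := by rw [← pt_neg]; exact ht
    have hl2' : Up K (-u) (ρ₂ • θ + (-z₂) • (-u)) := by rw [← pt_neg]; exact hl2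
    obtain ⟨g, hgu, hg, hg', hgp⟩ := h.neg.exists_functional hp2K' hl2'
    have hgu' : 0 < g (-u) := by
      rcases eq_or_lt_of_le hgu with h0 | h0
      · exfalso
        apply hu2
        have := low_of_functional h0.symm hg'
        rw [neg_neg, ← pt_neg] at this
        exact this
      · exact h0
    have hb := (h.neg.mono_up hθ hθu' h2 (hle h2 hp2K) hp2K' ht' hgu hg hgp).1 hgu'
    rw [gP_neg] at hb
    have hs1 : sc K u r R (ρ₁ • θ + z₁ • u) = ρ₁ * gP K u θ + r / (2 * R ^ 2) * (zt K u - z₁) := by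
      unfold sc
      rw [h.sg_up hp1K hu1, h.gP_pt hθu h1, h.inner_pt hθu]
    have hs2 : sc K u r R (ρ₂ • θ + z₂ • u) =
        2 - ρ₂ * gP K u θ + r / (2 * R ^ 2) * (zt K u - z₂) := by
      unfold sc
      rw [sg_low hl2, h.gP_pt hθu h2, h.inner_pt hθu]
    rw [hs1, hs2, abs_sub_comm (ρ₁ * gP K u θ + r / (2 * R ^ 2) * (zt K u - z₁))]
    have hc0 := h.c0_pos
    have e1 : |ρ₁ - ρ₂| ≤ (ρm - ρ₁) + (ρm - ρ₂) := by
      have := hle h1 hp1K
      have := hle h2 hp2K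
      rw [abs_le]; constructor <;> linarith
    have e2 : |z₁ - z₂| ≤ |t - z₁| + |(-t) - (-z₂)| := by
      have : z₁ - z₂ = -((t - z₁) + ((-t) - (-z₂))) := by ring
      rw [this, abs_neg]
      exact abs_add_le _ _
    calc r / (4 * R ^ 2) * (|ρ₁ - ρ₂| + |z₁ - z₂|)
        ≤ r / (4 * R ^ 2) * (((ρm - ρ₁) + |t - z₁|) + ((ρm - ρ₂) + |(-t) - (-z₂)|)) := by
          apply mul_le_mul_of_nonneg_left _ hc0.le; linarith
      _ = r / (4 * R ^ 2) * ((ρm - ρ₁) + |t - z₁|) +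
          r / (4 * R ^ 2) * ((ρm - ρ₂) + |(-t) - (-z₂)|) := by ring
      _ ≤ ((ρm - ρ₁) * gP K u θ - r / (2 * R ^ 2) * (t - z₁)) +
          ((ρm - ρ₂) * gP K u θ - r / (2 * R ^ 2) * ((-t) - (-z₂))) := add_le_add ha hb
      _ = (2 - ρ₂ * gP K u θ + r / (2 * R ^ 2) * (zt K u - z₂)) -
          (ρ₁ * gP K u θ + r / (2 * R ^ 2) * (zt K u - z₁)) := by
          linear_combination 2 * hρm1
      _ ≤ _ := le_abs_self _
  by_cases hu : Up K u (ρ₁ • θ + z₁ • u) ∧ Up K u (ρ₂ • θ + z₂ • u)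
  · have h3 := h.mono_upup hθ hθu h1 h2 hp1K hp2K hu.1 hu.2
    refine h3.trans (le_of_eq ?_)
    unfold sc
    rw [h.sg_up hp1K hu.1, h.sg_up hp2K hu.2, h.gP_pt hθu h1, h.gP_pt hθu h2,
      h.inner_pt hθu, h.inner_pt hθu]
    congr 1; ring
  by_cases hl : Up K (-u) (ρ₁ • θ + z₁ • u) ∧ Up K (-u) (ρ₂ • θ + z₂ • u)
  · have hp1K' : ρ₁ • θ + (-z₁) • (-u) ∈ K := by rw [← pt_neg]; exact hp1K
    have hp2K' : ρ₂ • θ + (-z₂) • (-u) ∈ K := by rw [← pt_neg]; exact hp2K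
    have hl1 : Up K (-u) (ρ₁ • θ + (-z₁) • (-u)) := by rw [← pt_neg]; exact hl.1
    have hl2 : Up K (-u) (ρ₂ • θ + (-z₂) • (-u)) := by rw [← pt_neg]; exact hl.2
    have h3 := h.neg.mono_upup hθ hθu' h1 h2 hp1K' hp2K' hl1 hl2
    rw [gP_neg] at h3
    have e2 : |(-z₁) - (-z₂)| = |z₁ - z₂| := by
      rw [← abs_neg]; congr 1; ring
    rw [e2] at h3
    refine h3.trans (le_of_eq ?_)
    unfold sc
    rw [sg_low hl.1, sg_low hl.2, h.gP_pt hθu h1, h.gP_pt hθu h2,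
      h.inner_pt hθu, h.inner_pt hθu, ← abs_neg]
    congr 1; ring
  rcases h.up_or_low hp1 with ha | ha
  · have hb : Up K (-u) (ρ₂ • θ + z₂ • u) := by
      rcases h.up_or_low hp2 with hb | hb
      · exact absurd ⟨ha, hb⟩ hu
      · exact hb
    exact key h1 h2 hp1 hp2 ha (fun hc => hl ⟨hc, hb⟩) hb (fun hc => hu ⟨ha, hc⟩)
  · have hb : Up K u (ρ₂ • θ + z₂ • u) := by
      rcases h.up_or_low hp2 with hb | hb
      · exact hb
      · exact absurd ⟨ha, hb⟩ hl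
    have := key h2 h1 hp2 hp1 hb (fun hc => hl ⟨ha, hc⟩) ha (fun hc => hu ⟨hc, hb⟩)
    rw [abs_sub_comm ρ₁, abs_sub_comm z₁, abs_sub_comm (sc K u r R _)]
    exact this

end

end Pool.Agent.Helper32.CH
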