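import Pool.Agent.Helper32.CH.Core3

/-!
MP_7116bc_gt, convex hypersurfaces, core part 4: the poles, bounds for the meridian coordinate,
pointwise Lipschitz property.
-/

set_option autoImplicit false

namespace Pool.Agent.Helper32.CH

open Set Filter Topology
open scoped Pointwise

section

variable {E : Type*} [NormedAddCommGroup E] [InnerProductSpace ℝ E]
variable {K : Set E} {u : E} {r R : ℝ}

theorem NB.u_ne (h : NB K u r R) : u ≠ 0 := by
  intro h0
  have := h.hu
  rw [h0, norm_zero] at this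
  norm_num at this

theorem NB.gauge_pos' (h : NB K u r R) {x : E} (hx : x ≠ 0) : 0 < gauge K x :=
  (gauge_pos (absorbent_nhds_zero h.zero_nhds) (h.comp.isVonNBounded ℝ)).2 hx

theorem NB.zt_pos (h : NB K u r R) : 0 < zt K u := inv_pos.2 (h.gauge_pos' h.u_ne)

theorem zb_eq : zb K u = -zt K (-u) := rfl

theorem zt_eq : zt K u = -zb K (-u) := by rw [zb_eq, neg_neg, neg_neg]

theorem NB.zb_neg (h : NB K u r R) : zb K u < 0 := by
  rw [zb_eq]; have := h.neg.zt_pos; linarith

theorem NB.gauge_smul' {c : ℝ} (hc : 0 ≤ c) (x : E) : gauge K (c • x) = c * gauge K x := by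
  rw [gauge_smul_of_nonneg hc]; rfl

theorem NB.top_mem (h : NB K u r R) : zt K u • u ∈ frontier K := by
  rw [h.mem_frontier, NB.gauge_smul' h.zt_pos.le]
  exact inv_mul_cancel₀ (h.gauge_pos' h.u_ne).ne'

theorem NB.bot_mem (h : NB K u r R) : zb K u • u ∈ frontier K := by
  have := h.neg.top_mem
  rwa [smul_neg, ← neg_smul, ← zb_eq] at this

theorem NB.top_up (h : NB K u r R) : Up K u (zt K u • u) := by
  intro t ht hmem
  rw [← add_smul, ← gauge_lt_one_iff_mem_interior h.conv h.zero_nhds,
    NB.gauge_smul' (add_nonneg h.zt_pos.le ht), add_mul] at hmem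
  have h1 : zt K u * gauge K u = 1 := inv_mul_cancel₀ (h.gauge_pos' h.u_ne).ne'
  have h2 : 0 ≤ t * gauge K u := mul_nonneg ht (gauge_nonneg _)
  linarith

theorem NB.top_not_low (h : NB K u r R) : ¬ Up K (-u) (zt K u • u) := by
  intro hl
  apply hl (zt K u) h.zt_pos.le
  simpa using h.zero

theorem NB.bot_low (h : NB K u r R) : Up K (-u) (zb K u • u) := by
  have := h.neg.top_up
  rwa [smul_neg, ← neg_smul, ← zb_eq] at this

theorem NB.bot_not_up (h : NB K u r R) : ¬ Up K u (zb K u • u) := by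
  have := h.neg.top_not_low
  rwa [neg_neg, smul_neg, ← neg_smul, ← zb_eq] at this

theorem NB.zt_le (h : NB K u r R) : zt K u ≤ R := by
  have := h.ball _ (h.frontier_subset h.top_mem)
  rw [norm_smul, h.hu, mul_one, Real.norm_eq_abs] at this
  exact (le_abs_self _).trans this

theorem NB.neg_zb_le (h : NB K u r R) : -zb K u ≤ R := by
  rw [zb_eq, neg_neg]; exact h.neg.zt_le

theorem NB.gP_smul_u (h : NB K u r R) (t : ℝ) : gP K u (t • u) = 0 := by
  have := h.gP_le (t • u)
  rw [yc_u h, norm_zero, zero_div] at this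
  exact le_antisymm this (gP_nonneg _)

theorem NB.inner_smul_u (h : NB K u r R) (t : ℝ) : (inner ℝ u (t • u) : ℝ) = t := by
  rw [inner_smul_right, inner_self_one h, mul_one]

theorem NB.axis (h : NB K u r R) {p : E} (hp : p ∈ frontier K) (hy : yc u p = 0) :
    p = zt K u • u ∨ p = zb K u • u := by
  have hpz : p = (inner ℝ u p : ℝ) • u := by
    have := yc_add (u := u) p
    rw [hy, zero_add] at this
    exact this.symm
  set z := (inner ℝ u p : ℝ) with hz
  rcases lt_trichotomy z 0 with h1 | h1 | h1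
  · right
    rw [hpz, h.mem_frontier] at hp
    have h2 : z • u = (-z) • (-u) := by simp
    rw [h2, NB.gauge_smul' (by linarith)] at hp
    rw [hpz]
    congr 1
    unfold zb
    have h3 := (h.neg.gauge_pos' h.neg.u_ne).ne'
    have h4 : -z = (gauge K (-u))⁻¹ := eq_inv_of_mul_eq_one_left hp
    linarith
  · exfalso
    rw [hpz, h1, zero_smul] at hp
    exact hp.2 h.zero
  · left
    rw [hpz, h.mem_frontier, NB.gauge_smul' h1.le] at hp
    rw [hpz]
    congr 1
    exact eq_inv_of_mul_eq_one_left hp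

/-- Unit direction of the horizontal part. -/
theorem NB.exists_dir (h : NB K u r R) {p : E} (hy : yc u p ≠ 0) :
    ‖(‖yc u p‖⁻¹ • yc u p)‖ = 1 ∧ (inner ℝ u (‖yc u p‖⁻¹ • yc u p) : ℝ) = 0 ∧
      ‖yc u p‖ • (‖yc u p‖⁻¹ • yc u p) + (inner ℝ u p : ℝ) • u = p := by
  have hn : ‖yc u p‖ ≠ 0 := norm_ne_zero_iff.2 hy
  refine ⟨?_, ?_, ?_⟩
  · rw [norm_smul, norm_inv, norm_norm, inv_mul_cancel₀ hn]
  · rw [inner_smul_right, yc_orth h, mul_zero]
  · rw [smul_smul, mul_inv_cancel₀ hn, one_smul, yc_add]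

theorem NB.sg_neg (h : NB K u r R) {p : E} (hp : p ∈ frontier K) :
    sg K (-u) p = 2 - sg K u p := by
  have hpK := h.frontier_subset hp
  by_cases h1 : Up K u p
  · rw [h.sg_up hpK h1]
    have h2 : Up K (-(-u)) p := by rw [neg_neg]; exact h1
    rw [sg_low h2, gP_neg]
  · have h2 : Up K (-u) p := (h.up_or_low hp).resolve_left h1
    rw [sg_low h2, h.neg.sg_up hpK h2, gP_neg]; ring

theorem NB.ell_sub (h : NB K u r R) {p : E} (hp : p ∈ frontier K) :
    ell K u r R - sc K u r R p = sc K (-u) r R p := by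
  unfold ell sc
  rw [h.sg_neg hp, inner_neg_left, zb_eq]; ring

theorem NB.gP_le_sg (h : NB K u r R) {p : E} (hp : p ∈ K) : gP K u p ≤ sg K u p := by
  unfold sg
  split_ifs
  · have := h.gP_le_one hp; linarith
  · exact le_rfl

/-- Lower bound for the meridian coordinate by the distance from the top. -/
theorem NB.sc_lower (h : NB K u r R) {p : E} (hp : p ∈ frontier K) :
    r / (4 * R ^ 2) * (‖yc u p‖ + |(inner ℝ u p : ℝ) - zt K u|) ≤ sc K u r R p := by
  have hpK := h.frontier_subset hp
  by_cases hy : yc u p = 0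
  · rw [hy, norm_zero, zero_add]
    rcases h.axis hp hy with h1 | h1
    · unfold sc
      rw [h1, h.inner_smul_u, sub_self, abs_zero, mul_zero, mul_zero, add_zero,
        h.sg_up (h.frontier_subset h.top_mem) h.top_up, h.gP_smul_u]
    · unfold sc
      have h2 : zb K u - zt K u ≤ 0 := by have := h.zb_neg; have := h.zt_pos; linarith
      rw [h1, h.inner_smul_u, sg_low h.bot_low, h.gP_smul_u, abs_of_nonpos h2]
      have h3 : r / (4 * R ^ 2) * -(zb K u - zt K u) ≤ r / (2 * R ^ 2) * -(zb K u - zt K u) :=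
        mul_le_mul_of_nonneg_right h.c0_le_lam (by linarith)
      linarith
  · obtain ⟨hθ, hθu, hpt⟩ := h.exists_dir hy
    set θ := ‖yc u p‖⁻¹ • yc u p with hθdef
    set z := (inner ℝ u p : ℝ) with hz
    have htop : (0 : ℝ) • θ + zt K u • u = zt K u • u := by simp
    have htK := h.frontier_subset h.top_mem
    obtain ⟨f, hfu, hf, hf', hfp⟩ := h.exists_functional htK h.top_up
    have hfu' : 0 < f u := by
      rw [map_smul, smul_eq_mul] at hfp
      exact (pos_iff_pos_of_mul_pos hfp).1 h.zt_pos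
    have h1 := (h.mono_up hθ hθu le_rfl (norm_nonneg (yc u p)) (by rw [htop]; exact htK)
      (by rw [hpt]; exact hpK) hfu (by rw [htop]; exact hf) (by rw [htop]; exact hfp)).1 hfu'
    have h2 : gP K u p = ‖yc u p‖ * gP K u θ := by
      conv_lhs => rw [← hpt]
      exact h.gP_pt hθu (norm_nonneg _)
    rw [sub_zero, ← h2] at h1
    have h3 := h.gP_le_sg hpK (u := u)
    unfold sc
    rw [← hz]
    linarith

theorem NB.sc_upper (h : NB K u r R) {p : E} (hp : p ∈ frontier K) (hu : Up K u p) :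
    sc K u r R p ≤ (1 / r + 2 / R) * ‖yc u p‖ := by
  have hr := h.hr
  have hR := h.hR
  have hpK := h.frontier_subset hp
  by_cases hy : yc u p = 0
  · rw [hy, norm_zero, mul_zero]
    rcases h.axis hp hy with h1 | h1
    · unfold sc
      rw [h1, h.inner_smul_u, sub_self, mul_zero, add_zero,
        h.sg_up (h.frontier_subset h.top_mem) h.top_up, h.gP_smul_u]
    · exact absurd (h1 ▸ hu) h.bot_not_up
  · obtain ⟨hθ, hθu, hpt⟩ := h.exists_dir hy
    set θ := ‖yc u p‖⁻¹ • yc u p with hθdef
    set z := (inner ℝ u p : ℝ) with hz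
    obtain ⟨f, hfu, hf, hf', hfp⟩ := h.exists_functional hpK hu
    have h1 := h.top_bound hθ hθu (norm_nonneg (yc u p)) (by rw [hpt]; exact hpK)
      (h.frontier_subset h.top_mem) hfu (by rw [hpt]; exact hf) (by rw [hpt]; exact hfp)
    have h2 := h.gP_le p
    unfold sc
    rw [← hz, h.sg_up hpK hu]
    have h3 : r / (2 * R ^ 2) * (zt K u - z) ≤ r / (2 * R ^ 2) * (4 * R / r * ‖yc u p‖) :=
      mul_le_mul_of_nonneg_left h1 h.lam_pos.le
    have h4 : r / (2 * R ^ 2) * (4 * R / r * ‖yc u p‖) = 2 / R * ‖yc u p‖ := by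
      field_simp; ring
    have h5 : (1 / r + 2 / R) * ‖yc u p‖ = ‖yc u p‖ / r + 2 / R * ‖yc u p‖ := by ring
    rw [h5]; linarith

theorem NB.sc_nonneg (h : NB K u r R) {p : E} (hp : p ∈ frontier K) : 0 ≤ sc K u r R p :=
  le_trans (mul_nonneg h.c0_pos.le (by positivity)) (h.sc_lower hp)

theorem NB.sc_le_ell (h : NB K u r R) {p : E} (hp : p ∈ frontier K) :
    sc K u r R p ≤ ell K u r R := by
  have h1 := h.ell_sub hp
  have h2 := h.neg.sc_nonneg hp
  linarith

theorem NB.two_le_ell (h : NB K u r R) : 2 ≤ ell K u r R := by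
  unfold ell
  have := mul_nonneg h.lam_pos.le (by have := h.zb_neg; have := h.zt_pos; linarith :
    0 ≤ zt K u - zb K u)
  linarith

theorem NB.ell_le_three (h : NB K u r R) : ell K u r R ≤ 3 := by
  have hr := h.hr
  have hR := h.hR
  unfold ell
  have h1 : r / (2 * R ^ 2) * (zt K u - zb K u) ≤ r / (2 * R ^ 2) * (2 * R) :=
    mul_le_mul_of_nonneg_left (by have := h.zt_le; have := h.neg_zb_le; linarith) h.lam_pos.le
  have h2 : r / (2 * R ^ 2) * (2 * R) = r / R := by field_simp
  have h3 : r / R ≤ 1 := by rw [div_le_one hR]; exact h.hrR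
  linarith

theorem isClosed_up (K : Set E) (u : E) : IsClosed {p | Up K u p} := by
  have : {p | Up K u p} = ⋂ t ∈ Ici (0 : ℝ), (fun q : E => q + t • u) ⁻¹' (interior K)ᶜ := by
    ext p
    simp only [mem_setOf_eq, Up, mem_iInter, mem_Ici, mem_preimage, mem_compl_iff]
  rw [this]
  refine isClosed_biInter fun t _ => ?_
  exact isOpen_interior.isClosed_compl.preimage (by fun_prop)

theorem NB.plip_sg (h : NB K u r R) : PLip (frontier K) (1 / r) (sg K u) := by
  intro p hp
  have hpK := h.frontier_subset hp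
  by_cases hl : Up K (-u) p
  · by_cases hu : Up K u p
    · have h1 : gP K u p = 1 := h.gP_eq_one hpK hu hl
      refine Eventually.of_forall fun q => ?_
      have h2 := h.abs_gP_sub' q p
      rw [h.sg_up hpK hu, Real.dist_eq, dist_eq_norm]
      have h3 : |sg K u q - gP K u p| = |gP K u q - gP K u p| := by
        unfold sg
        split_ifs
        · rw [h1, ← abs_neg]; congr 1; ring
        · rfl
      rw [h3]
      refine h2.trans (le_of_eq ?_)
      ring
    · have h1 : ∀ᶠ q in 𝓝[frontier K] p, ¬ Up K u q :=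
        mem_nhdsWithin_of_mem_nhds ((isClosed_up K u).isOpen_compl.mem_nhds hu)
      filter_upwards [h1, self_mem_nhdsWithin] with q hq hqF
      have h2 : Up K (-u) q := (h.up_or_low hqF).resolve_left hq
      rw [sg_low hl, sg_low h2, Real.dist_eq, dist_eq_norm]
      have h3 : |2 - gP K u q - (2 - gP K u p)| = |gP K u q - gP K u p| := by
        rw [← abs_neg]; congr 1; ring
      rw [h3]
      refine (h.abs_gP_sub' q p).trans (le_of_eq ?_)
      ring
  · have h1 : ∀ᶠ q in 𝓝[frontier K] p, ¬ Up K (-u) q :=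
      mem_nhdsWithin_of_mem_nhds ((isClosed_up K (-u)).isOpen_compl.mem_nhds hl)
    filter_upwards [h1] with q hq
    unfold sg
    rw [if_neg hl, if_neg hq, Real.dist_eq, dist_eq_norm]
    refine (h.abs_gP_sub' q p).trans (le_of_eq ?_)
    ring

theorem NB.plip_sc (h : NB K u r R) :
    PLip (frontier K) (1 / r + r / (2 * R ^ 2)) (sc K u r R) := by
  intro p hp
  filter_upwards [h.plip_sg p hp] with q hq
  rw [Real.dist_eq] at hq ⊢
  unfold sc
  have h1 : sg K u q + r / (2 * R ^ 2) * (zt K u - inner ℝ u q) -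
      (sg K u p + r / (2 * R ^ 2) * (zt K u - inner ℝ u p)) =
      (sg K u q - sg K u p) + -(r / (2 * R ^ 2) * inner ℝ u (q - p)) := by
    rw [inner_sub_right]; ring
  rw [h1]
  refine (abs_add_le _ _).trans ?_
  rw [abs_neg, abs_mul, abs_of_pos h.lam_pos]
  have h2 := abs_inner_le h (q - p)
  rw [dist_eq_norm] at hq ⊢
  have h3 := mul_le_mul_of_nonneg_left h2 h.lam_pos.le
  rw [add_mul]
  exact add_le_add hq h3

theorem PLip.continuousOn {E F : Type*} [PseudoMetricSpace E] [PseudoMetricSpace F] {S : Set E}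
    {L : ℝ} {f : E → F} (hf : PLip S L f) : ContinuousOn f S := by
  intro p hp
  rw [ContinuousWithinAt, tendsto_iff_dist_tendsto_zero]
  have h1 : Tendsto (fun q => L * dist q p) (𝓝[S] p) (𝓝 0) := by
    have : Tendsto (fun q => L * dist q p) (𝓝 p) (𝓝 (L * dist p p)) :=
      (Continuous.tendsto (by fun_prop) p)
    rw [dist_self, mul_zero] at this
    exact this.mono_left nhdsWithin_le_nhds
  exact squeeze_zero' (Eventually.of_forall fun _ => dist_nonneg) (hf p hp) h1

end

end Pool.Agent.Helper32.CH
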