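import Pool.Agent.Helper32.CH.Core4

/-!
MP_7116bc_gt, convex hypersurfaces, core part 5: the map onto the model sphere, bijectivity and
the pointwise Lipschitz property.
-/

set_option autoImplicit false

namespace Pool.Agent.Helper32.CH

open Set Filter Topology
open scoped Pointwise

section

variable {E : Type*} [NormedAddCommGroup E] [InnerProductSpace ℝ E]

/-- The model sphere (boundary of a double cone). -/
def MS (u : E) : Set E := {q | ‖yc u q‖ + |(inner ℝ u q : ℝ)| = 1}

/-- Height in the model sphere. -/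
noncomputable def hh (K : Set E) (u : E) (r R : ℝ) (p : E) : ℝ :=
  1 - 2 * sc K u r R p / ell K u r R

/-- The map from the boundary of `K` to the model sphere. -/
noncomputable def Phi (K : Set E) (u : E) (r R : ℝ) (p : E) : E :=
  (1 - |hh K u r R p|) • (‖yc u p‖⁻¹ • yc u p) + hh K u r R p • u

variable {K : Set E} {u : E} {r R : ℝ}

theorem NB.ell_pos (h : NB K u r R) : 0 < ell K u r R := by
  have := h.two_le_ell; linarith

theorem NB.one_sub_hh (h : NB K u r R) (p : E) :
    1 - hh K u r R p = 2 * sc K u r R p / ell K u r R := by unfold hh; ring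

theorem NB.one_add_hh (h : NB K u r R) (p : E) :
    1 + hh K u r R p = 2 * (ell K u r R - sc K u r R p) / ell K u r R := by
  have := h.ell_pos.ne'
  unfold hh; field_simp; ring

theorem NB.abs_hh_le (h : NB K u r R) {p : E} (hp : p ∈ frontier K) :
    |hh K u r R p| ≤ 1 := by
  rw [abs_le]
  have h1 := h.one_sub_hh p
  have h2 := h.one_add_hh p
  have h3 : 0 ≤ 2 * sc K u r R p / ell K u r R :=
    div_nonneg (by have := h.sc_nonneg hp; linarith) h.ell_pos.le
  have h4 : 0 ≤ 2 * (ell K u r R - sc K u r R p) / ell K u r R :=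
    div_nonneg (by have := h.sc_le_ell hp; linarith) h.ell_pos.le
  constructor <;> linarith

theorem NB.hh_bound (h : NB K u r R) {p : E} (hp : p ∈ frontier K) :
    1 - |hh K u r R p| ≤ (1 / r + 2 / R) * ‖yc u p‖ := by
  have he := h.two_le_ell
  have hep := h.ell_pos
  rcases h.up_or_low hp with h1 | h1
  · have h2 := h.sc_upper hp h1
    have h3 := h.one_sub_hh p
    have h4 : 2 * sc K u r R p / ell K u r R ≤ sc K u r R p := by
      rw [div_le_iff₀ hep]
      nlinarith [h.sc_nonneg hp]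
    have h5 := le_abs_self (hh K u r R p)
    linarith
  · have h2 := h.neg.sc_upper hp h1
    rw [yc_neg, ← h.ell_sub hp] at h2
    have h3 := h.one_add_hh p
    have h4 : 2 * (ell K u r R - sc K u r R p) / ell K u r R ≤ ell K u r R - sc K u r R p := by
      rw [div_le_iff₀ hep]
      nlinarith [h.sc_le_ell hp]
    have h5 := neg_abs_le (hh K u r R p)
    linarith

theorem norm_dir_le (p : E) : ‖(‖yc u p‖⁻¹ • yc u p)‖ ≤ 1 := by
  rw [norm_smul, norm_inv, norm_norm]
  exact inv_mul_le_one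

theorem NB.inner_Phi (h : NB K u r R) (p : E) :
    (inner ℝ u (Phi K u r R p) : ℝ) = hh K u r R p := by
  unfold Phi
  rw [inner_add_right, inner_smul_right, inner_smul_right, inner_smul_right, yc_orth h,
    inner_self_one h]; ring

theorem NB.yc_Phi (h : NB K u r R) (p : E) :
    yc u (Phi K u r R p) = (1 - |hh K u r R p|) • (‖yc u p‖⁻¹ • yc u p) := by
  unfold yc
  rw [h.inner_Phi]
  unfold Phi yc
  abel

theorem NB.norm_yc_Phi (h : NB K u r R) {p : E} (hp : p ∈ frontier K) :
    ‖yc u (Phi K u r R p)‖ = 1 - |hh K u r R p| := by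
  rw [h.yc_Phi]
  by_cases hy : yc u p = 0
  · have h1 := h.hh_bound hp
    rw [hy, norm_zero, mul_zero] at h1
    have h2 := h.abs_hh_le hp
    rw [hy, norm_zero, smul_zero, smul_zero, norm_zero]
    linarith
  · rw [norm_smul, (h.exists_dir hy).1, mul_one, Real.norm_eq_abs, abs_of_nonneg]
    have h2 := h.abs_hh_le hp
    linarith

theorem NB.mapsTo_Phi (h : NB K u r R) : MapsTo (Phi K u r R) (frontier K) (MS u) := by
  intro p hp
  show ‖yc u (Phi K u r R p)‖ + |(inner ℝ u (Phi K u r R p) : ℝ)| = 1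
  rw [h.norm_yc_Phi hp, h.inner_Phi]; ring

theorem dir_sub_le {a b : E} (hb : b ≠ 0) :
    ‖(‖a‖⁻¹ • a) - (‖b‖⁻¹ • b)‖ ≤ 2 * ‖a - b‖ / ‖b‖ := by
  have hbn : 0 < ‖b‖ := norm_pos_iff.2 hb
  by_cases ha : a = 0
  · subst ha
    rw [smul_zero, zero_sub, norm_neg, zero_sub, norm_neg, norm_smul, norm_inv, norm_norm,
      inv_mul_cancel₀ hbn.ne', mul_div_assoc, div_self hbn.ne']
    norm_num
  · have han : 0 < ‖a‖ := norm_pos_iff.2 ha
    have h1 : (‖a‖⁻¹ • a) - (‖b‖⁻¹ • b) = ‖b‖⁻¹ • (a - b) + (‖a‖⁻¹ - ‖b‖⁻¹) • a := by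
      rw [smul_sub, sub_smul]; abel
    rw [h1]
    refine (norm_add_le _ _).trans ?_
    rw [norm_smul, norm_smul, norm_inv, norm_norm, Real.norm_eq_abs]
    have h2 : |‖a‖⁻¹ - ‖b‖⁻¹| * ‖a‖ ≤ ‖b‖⁻¹ * ‖a - b‖ := by
      have h3 : ‖a‖⁻¹ - ‖b‖⁻¹ = (‖b‖ - ‖a‖) * (‖a‖⁻¹ * ‖b‖⁻¹) := by field_simp
      rw [h3, abs_mul, abs_of_pos (by positivity : 0 < ‖a‖⁻¹ * ‖b‖⁻¹)]
      have h4 : |‖b‖ - ‖a‖| * (‖a‖⁻¹ * ‖b‖⁻¹) * ‖a‖ = ‖b‖⁻¹ * |‖b‖ - ‖a‖| := by
        field_simp
      rw [h4]
      apply mul_le_mul_of_nonneg_left _ (by positivity)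
      rw [abs_sub_comm]
      exact abs_norm_sub_norm_le a b
    have h5 : 2 * ‖a - b‖ / ‖b‖ = ‖b‖⁻¹ * ‖a - b‖ + ‖b‖⁻¹ * ‖a - b‖ := by ring
    rw [h5]
    exact add_le_add le_rfl h2

/-- The pointwise Lipschitz constant of `Phi`. -/
theorem NB.plip_Phi (h : NB K u r R) :
    PLip (frontier K) (2 * (1 / r + r / (2 * R ^ 2)) + 2 * (1 / r + 2 / R)) (Phi K u r R) := by
  intro p hp
  have hr := h.hr
  have hR := h.hR
  filter_upwards [h.plip_sc p hp, self_mem_nhdsWithin] with q hq hqF
  set Cs := 1 / r + r / (2 * R ^ 2) with hCs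
  set C2 := 1 / r + 2 / R with hC2
  have hCs0 : 0 ≤ Cs := by positivity
  have hC20 : 0 ≤ C2 := by positivity
  rw [Real.dist_eq] at hq
  -- heights
  have h1 : |hh K u r R q - hh K u r R p| ≤ Cs * dist q p := by
    have h2 : hh K u r R q - hh K u r R p =
        -(2 / ell K u r R * (sc K u r R q - sc K u r R p)) := by unfold hh; ring
    rw [h2, abs_neg, abs_mul, abs_of_nonneg (by have := h.ell_pos; positivity)]
    have h3 : 2 / ell K u r R ≤ 1 := by
      rw [div_le_one h.ell_pos]; exact h.two_le_ell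
    calc 2 / ell K u r R * |sc K u r R q - sc K u r R p| ≤ 1 * (Cs * dist q p) :=
          mul_le_mul h3 hq (abs_nonneg _) zero_le_one
      _ = _ := one_mul _
  have hd : Phi K u r R q - Phi K u r R p =
      ((1 - |hh K u r R q|) • (‖yc u q‖⁻¹ • yc u q) -
        (1 - |hh K u r R p|) • (‖yc u p‖⁻¹ • yc u p)) +
      (hh K u r R q - hh K u r R p) • u := by
    unfold Phi; rw [sub_smul (hh K u r R q)]; abel
  have h2 : ‖(1 - |hh K u r R q|) • (‖yc u q‖⁻¹ • yc u q) -
        (1 - |hh K u r R p|) • (‖yc u p‖⁻¹ • yc u p)‖ ≤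
      |hh K u r R q - hh K u r R p| + 2 * C2 * dist q p := by
    by_cases hy : yc u p = 0
    · have h3 := h.hh_bound hp
      rw [hy, norm_zero, mul_zero] at h3
      have h4 := h.abs_hh_le hp
      have h5 : |hh K u r R p| = 1 := by linarith
      rw [hy, norm_zero, smul_zero, smul_zero, sub_zero, norm_smul]
      have h6 := norm_dir_le (u := u) q
      have h7 := h.abs_hh_le hqF
      rw [Real.norm_eq_abs, abs_of_nonneg (by linarith : 0 ≤ 1 - |hh K u r R q|)]
      have h8 : (1 - |hh K u r R q|) * ‖(‖yc u q‖⁻¹ • yc u q)‖ ≤ 1 - |hh K u r R q| := by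
        nlinarith
      have h9 : 1 - |hh K u r R q| ≤ |hh K u r R q - hh K u r R p| := by
        rw [← h5, abs_sub_comm]
        exact (abs_sub_abs_le_abs_sub _ _)
      have h10 : 0 ≤ 2 * C2 * dist q p := by positivity
      linarith
    · have h3 : (1 - |hh K u r R q|) • (‖yc u q‖⁻¹ • yc u q) -
          (1 - |hh K u r R p|) • (‖yc u p‖⁻¹ • yc u p) =
          (|hh K u r R p| - |hh K u r R q|) • (‖yc u q‖⁻¹ • yc u q) +
          (1 - |hh K u r R p|) • ((‖yc u q‖⁻¹ • yc u q) - (‖yc u p‖⁻¹ • yc u p)) := by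
        rw [smul_sub, sub_smul, sub_smul, sub_smul, sub_smul]; abel
      rw [h3]
      refine (norm_add_le _ _).trans (add_le_add ?_ ?_)
      · rw [norm_smul, Real.norm_eq_abs]
        have h6 := norm_dir_le (u := u) q
        have h7 := abs_abs_sub_abs_le_abs_sub (hh K u r R p) (hh K u r R q)
        rw [abs_sub_comm (hh K u r R p)] at h7
        calc |(|hh K u r R p| - |hh K u r R q|)| * ‖(‖yc u q‖⁻¹ • yc u q)‖
            ≤ |hh K u r R q - hh K u r R p| * 1 :=
              mul_le_mul h7 h6 (norm_nonneg _) (abs_nonneg _)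
          _ = _ := mul_one _
      · have h4 := h.abs_hh_le hp
        have h5 := h.hh_bound hp
        rw [norm_smul, Real.norm_eq_abs, abs_of_nonneg (by linarith : 0 ≤ 1 - |hh K u r R p|)]
        have hyn : 0 < ‖yc u p‖ := norm_pos_iff.2 hy
        have h6 := dir_sub_le (a := yc u q) hy
        rw [← yc_sub'] at h6
        have h7 := norm_yc_le h (q - p)
        have h8 : 2 * ‖yc u (q - p)‖ / ‖yc u p‖ ≤ 2 * dist q p / ‖yc u p‖ := by
          rw [dist_eq_norm]; gcongr
        calc (1 - |hh K u r R p|) * ‖(‖yc u q‖⁻¹ • yc u q) - (‖yc u p‖⁻¹ • yc u p)‖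
            ≤ (C2 * ‖yc u p‖) * (2 * dist q p / ‖yc u p‖) :=
              mul_le_mul h5 (h6.trans h8) (norm_nonneg _) (by positivity)
          _ = 2 * C2 * dist q p := by field_simp
  rw [dist_eq_norm, hd]
  refine (norm_add_le _ _).trans ?_
  rw [norm_smul, h.hu, mul_one, Real.norm_eq_abs]
  have : (2 * Cs + 2 * C2) * dist q p = Cs * dist q p + (Cs * dist q p + 2 * C2 * dist q p) := by
    ring
  rw [this]
  linarith

/-- Every value of the meridian coordinate is attained on every meridian. -/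
theorem NB.exists_meridian (h : NB K u r R) {θ : E} (hθ : ‖θ‖ = 1)
    (hθu : (inner ℝ u θ : ℝ) = 0) {s : ℝ} (hs0 : 0 ≤ s) (hs1 : s ≤ ell K u r R) :
    ∃ ρ z : ℝ, 0 ≤ ρ ∧ ρ • θ + z • u ∈ frontier K ∧ sc K u r R (ρ • θ + z • u) = s := by
  set w : ℝ → E := fun φ => Real.sin φ • θ + Real.cos φ • u with hw
  have hwne : ∀ φ, w φ ≠ 0 := by
    intro φ h0
    have h1 : ‖w φ‖ ^ 2 = 1 := by
      rw [norm_sq_split h, hw]
      simp only
      rw [h.yc_pt hθu, h.inner_pt hθu, norm_smul, hθ, Real.norm_eq_abs, mul_one, sq_abs]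
      exact Real.sin_sq_add_cos_sq φ
    rw [h0, norm_zero] at h1
    norm_num at h1
  have hg : ∀ φ, 0 < gauge K (w φ) := fun φ => h.gauge_pos' (hwne φ)
  set p : ℝ → E := fun φ => (gauge K (w φ))⁻¹ • w φ with hp
  have hpF : ∀ φ, p φ ∈ frontier K := by
    intro φ
    rw [h.mem_frontier, hp]
    simp only
    rw [NB.gauge_smul' (inv_nonneg.2 (hg φ).le), inv_mul_cancel₀ (hg φ).ne']
  have hwc : Continuous w := by fun_prop
  have hpc : Continuous p :=
    (((continuous_gauge h.conv h.zero_nhds).comp hwc).inv₀ fun φ => (hg φ).ne').smul hwc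
  have hsc : Continuous (fun φ => sc K u r R (p φ)) :=
    h.plip_sc.continuousOn.comp_continuous hpc hpF
  have h0 : sc K u r R (p 0) = 0 := by
    have : p 0 = zt K u • u := by rw [hp]; simp [hw, zt]
    rw [this]
    unfold sc
    rw [h.inner_smul_u, sub_self, mul_zero, add_zero,
      h.sg_up (h.frontier_subset h.top_mem) h.top_up, h.gP_smul_u]
  have hpi : sc K u r R (p Real.pi) = ell K u r R := by
    have : p Real.pi = zb K u • u := by
      rw [hp]
      simp only [hw, Real.sin_pi, Real.cos_pi, zero_smul, zero_add, neg_smul, one_smul, zb]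
      rw [smul_neg]
    rw [this]
    unfold sc ell
    rw [h.inner_smul_u, sg_low h.bot_low, h.gP_smul_u]; ring
  obtain ⟨φ, hφ, hφs⟩ := intermediate_value_Icc Real.pi_pos.le hsc.continuousOn
    (show s ∈ Icc (sc K u r R (p 0)) (sc K u r R (p Real.pi)) by rw [h0, hpi]; exact ⟨hs0, hs1⟩)
  refine ⟨(gauge K (w φ))⁻¹ * Real.sin φ, (gauge K (w φ))⁻¹ * Real.cos φ, ?_, ?_, ?_⟩
  · exact mul_nonneg (inv_nonneg.2 (hg φ).le) (Real.sin_nonneg_of_mem_Icc hφ)
  · have : ((gauge K (w φ))⁻¹ * Real.sin φ) • θ + ((gauge K (w φ))⁻¹ * Real.cos φ) • u = p φ := by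
      rw [hp]; simp only [hw]; rw [smul_add, smul_smul, smul_smul]
    rw [this]; exact hpF φ
  · have : ((gauge K (w φ))⁻¹ * Real.sin φ) • θ + ((gauge K (w φ))⁻¹ * Real.cos φ) • u = p φ := by
      rw [hp]; simp only [hw]; rw [smul_add, smul_smul, smul_smul]
    rw [this]; exact hφs

theorem NB.sc_top (h : NB K u r R) : sc K u r R (zt K u • u) = 0 := by
  unfold sc
  rw [h.inner_smul_u, sub_self, mul_zero, add_zero,
    h.sg_up (h.frontier_subset h.top_mem) h.top_up, h.gP_smul_u]

theorem NB.sc_bot (h : NB K u r R) : sc K u r R (zb K u • u) = ell K u r R := by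
  unfold sc ell
  rw [h.inner_smul_u, sg_low h.bot_low, h.gP_smul_u]; ring

theorem NB.surj_Phi (h : NB K u r R) : SurjOn (Phi K u r R) (frontier K) (MS u) := by
  intro q hq
  have hq' : ‖yc u q‖ + |(inner ℝ u q : ℝ)| = 1 := hq
  set t := (inner ℝ u q : ℝ) with ht
  have hell := h.ell_pos
  have ht1 : |t| ≤ 1 := by have := norm_nonneg (yc u q); linarith
  have ht2 := abs_le.1 ht1
  by_cases hy : yc u q = 0
  · rw [hy, norm_zero, zero_add] at hq'
    have hqt : q = t • u := by
      have := yc_add (u := u) q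
      rw [hy, zero_add] at this
      exact this.symm
    rcases (abs_eq zero_le_one).1 hq' with h1 | h1
    · refine ⟨zt K u • u, h.top_mem, ?_⟩
      unfold Phi hh
      rw [h.sc_top, yc_u h, hqt, h1]
      simp
    · refine ⟨zb K u • u, h.bot_mem, ?_⟩
      unfold Phi hh
      rw [h.sc_bot, yc_u h, hqt, h1]
      have : 1 - 2 * ell K u r R / ell K u r R = -1 := by field_simp; ring
      rw [this]; simp
  · obtain ⟨hθ, hθu, hpt⟩ := h.exists_dir hy
    set θ := ‖yc u q‖⁻¹ • yc u q with hθdef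
    obtain ⟨ρ, z, hρ, hF, hs⟩ := h.exists_meridian hθ hθu (s := (1 - t) * ell K u r R / 2)
      (by have : 0 ≤ (1 - t) * ell K u r R := mul_nonneg (by linarith) hell.le
          linarith)
      (by nlinarith)
    have hhp : hh K u r R (ρ • θ + z • u) = t := by
      unfold hh; rw [hs]; field_simp; ring
    refine ⟨ρ • θ + z • u, hF, ?_⟩
    have hρ0 : 0 < ρ := by
      rcases eq_or_lt_of_le hρ with h1 | h1
      · exfalso
        have h2 := h.hh_bound hF
        rw [hhp, h.yc_pt hθu, ← h1, zero_smul, norm_zero, mul_zero] at h2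
        have h3 : 0 < ‖yc u q‖ := norm_pos_iff.2 hy
        linarith
      · exact h1
    unfold Phi
    rw [hhp, h.yc_pt hθu, norm_smul, hθ, mul_one, Real.norm_eq_abs, abs_of_pos hρ0,
      inv_smul_smul₀ hρ0.ne']
    have h4 : 1 - |t| = ‖yc u q‖ := by linarith
    rw [h4]
    exact hpt

theorem NB.inj_Phi (h : NB K u r R) : InjOn (Phi K u r R) (frontier K) := by
  intro p hp q hq hpq
  have hell := h.ell_pos
  have h1 : hh K u r R p = hh K u r R q := by
    rw [← h.inner_Phi, ← h.inner_Phi, hpq]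
  have h2 : sc K u r R p = sc K u r R q := by
    have e1 := h.one_sub_hh p
    have e2 := h.one_sub_hh q
    rw [h1, e2] at e1
    have e3 := (div_left_inj' hell.ne').1 e1
    linarith
  have h3 : yc u (Phi K u r R p) = yc u (Phi K u r R q) := by rw [hpq]
  have hc0 := h.c0_pos
  by_cases h4 : 1 - |hh K u r R p| = 0
  · -- both are poles
    have h5 : |hh K u r R p| = 1 := by linarith
    rcases (abs_eq zero_le_one).1 h5 with h6 | h6
    · have key : ∀ x ∈ frontier K, hh K u r R x = 1 → x = zt K u • u := by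
        intro x hx hx1
        have e1 := h.one_sub_hh x
        rw [hx1, sub_self] at e1
        have e2 : sc K u r R x = 0 := by
          have := (div_eq_zero_iff.1 e1.symm).resolve_right hell.ne'
          linarith
        have e3 := h.sc_lower hx
        rw [e2] at e3
        have e4 : ‖yc u x‖ + |(inner ℝ u x : ℝ) - zt K u| ≤ 0 := by
          by_contra hcon
          push Not at hcon
          have := mul_pos hc0 hcon
          linarith
        have e5 : ‖yc u x‖ = 0 := by
          have := norm_nonneg (yc u x); have := abs_nonneg ((inner ℝ u x : ℝ) - zt K u)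
          linarith
        have e6 : |(inner ℝ u x : ℝ) - zt K u| = 0 := by
          have := norm_nonneg (yc u x); have := abs_nonneg ((inner ℝ u x : ℝ) - zt K u)
          linarith
        have e7 := yc_add (u := u) x
        rw [norm_eq_zero.1 e5, zero_add, sub_eq_zero.1 (abs_eq_zero.1 e6)] at e7
        exact e7.symm
      rw [key p hp h6, key q hq (h1 ▸ h6)]
    · have key : ∀ x ∈ frontier K, hh K u r R x = -1 → x = zb K u • u := by
        intro x hx hx1
        have e1 := h.one_add_hh x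
        rw [hx1] at e1
        have e2 : ell K u r R - sc K u r R x = 0 := by
          have e0 : (0 : ℝ) = 2 * (ell K u r R - sc K u r R x) / ell K u r R := by
            rw [← e1]; norm_num
          have := (div_eq_zero_iff.1 e0.symm).resolve_right hell.ne'
          linarith
        have e3 := h.neg.sc_lower hx
        rw [← h.ell_sub hx, e2, yc_neg, inner_neg_left] at e3
        have e4 : ‖yc u x‖ + |-(inner ℝ u x : ℝ) - zt K (-u)| ≤ 0 := by
          by_contra hcon
          push Not at hcon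
          have := mul_pos hc0 hcon
          linarith
        have e5 : ‖yc u x‖ = 0 := by
          have := norm_nonneg (yc u x); have := abs_nonneg (-(inner ℝ u x : ℝ) - zt K (-u))
          linarith
        have e6 : |-(inner ℝ u x : ℝ) - zt K (-u)| = 0 := by
          have := norm_nonneg (yc u x); have := abs_nonneg (-(inner ℝ u x : ℝ) - zt K (-u))
          linarith
        have e7 := yc_add (u := u) x
        have e8 : (inner ℝ u x : ℝ) = zb K u := by
          rw [zb_eq]
          have := abs_eq_zero.1 e6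
          linarith
        rw [norm_eq_zero.1 e5, zero_add, e8] at e7
        exact e7.symm
      rw [key p hp h6, key q hq (h1 ▸ h6)]
  · have hyp : yc u p ≠ 0 := by
      intro h5
      apply h4
      rw [← h.norm_yc_Phi hp, h.yc_Phi, h5, smul_zero, smul_zero, norm_zero]
    have hyq : yc u q ≠ 0 := by
      intro h5
      apply h4
      rw [h1, ← h.norm_yc_Phi hq, h.yc_Phi, h5, smul_zero, smul_zero, norm_zero]
    rw [h.yc_Phi, h.yc_Phi, ← h1] at h3
    have h6 : ‖yc u p‖⁻¹ • yc u p = ‖yc u q‖⁻¹ • yc u q := smul_right_injective E h4 h3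
    obtain ⟨hθ, hθu, hpt⟩ := h.exists_dir hyp
    obtain ⟨hθ', hθu', hqt⟩ := h.exists_dir hyq
    rw [← h6] at hqt
    set θ := ‖yc u p‖⁻¹ • yc u p with hθdef
    have h7 := h.mono hθ hθu (norm_nonneg (yc u p)) (norm_nonneg (yc u q))
      (by rw [hpt]; exact hp) (by rw [hqt]; exact hq)
    rw [hpt, hqt, h2, sub_self, abs_zero] at h7
    have e4 : |‖yc u p‖ - ‖yc u q‖| + |(inner ℝ u p : ℝ) - inner ℝ u q| ≤ 0 := by
      by_contra hcon
      push Not at hcon
      have := mul_pos hc0 hcon
      linarith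
    have n1 := abs_nonneg (‖yc u p‖ - ‖yc u q‖)
    have n2 := abs_nonneg ((inner ℝ u p : ℝ) - inner ℝ u q)
    have e5 : ‖yc u p‖ = ‖yc u q‖ := sub_eq_zero.1 (abs_eq_zero.1 (by linarith))
    have e6 : (inner ℝ u p : ℝ) = inner ℝ u q := sub_eq_zero.1 (abs_eq_zero.1 (by linarith))
    rw [← hpt, ← hqt, e5, e6]

end

end Pool.Agent.Helper32.CH
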