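import Pool.Agent.Helper32.CH.Core5

/-!
MP_7116bc_gt, convex hypersurfaces, core part 6: the inverse map is pointwise Lipschitz.
-/

set_option autoImplicit false

namespace Pool.Agent.Helper32.CH

open Set Filter Topology
open scoped Pointwise

section

variable {E : Type*} [NormedAddCommGroup E] [InnerProductSpace ℝ E]
variable {K : Set E} {u : E} {r R : ℝ}

theorem MS_neg : MS (-u) = MS u := by
  ext q
  show ‖yc (-u) q‖ + |(inner ℝ (-u) q : ℝ)| = 1 ↔ ‖yc u q‖ + |(inner ℝ u q : ℝ)| = 1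
  rw [yc_neg, inner_neg_left, abs_neg]

theorem ell_neg : ell K (-u) r R = ell K u r R := by
  unfold ell
  rw [zb_eq, zb_eq, neg_neg]; ring

theorem NB.hh_neg (h : NB K u r R) {p : E} (hp : p ∈ frontier K) :
    hh K (-u) r R p = -hh K u r R p := by
  have := h.ell_pos.ne'
  unfold hh
  rw [ell_neg, ← h.ell_sub hp]; field_simp; ring

theorem NB.Phi_neg (h : NB K u r R) {p : E} (hp : p ∈ frontier K) :
    Phi K (-u) r R p = Phi K u r R p := by
  unfold Phi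
  rw [h.hh_neg hp, yc_neg, abs_neg]; simp

theorem NB.gauge_orth (h : NB K u r R) {x : E} (hx : (inner ℝ u x : ℝ) = 0) :
    gauge K x ≤ ‖x‖ / r := by
  refine le_of_forall_pos_le_add fun ε hε => ?_
  have ha : 0 < ‖x‖ / r + ε := by
    have : 0 ≤ ‖x‖ / r := div_nonneg (norm_nonneg _) h.hr.le
    linarith
  refine gauge_le_of_mem ha.le ?_
  rw [mem_smul_set_iff_inv_smul_mem₀ ha.ne']
  apply h.disc
  · rw [inner_smul_right, hx, mul_zero]
  · rw [norm_smul, Real.norm_eq_abs, abs_of_pos (inv_pos.2 ha), inv_mul_le_iff₀ ha, add_mul,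
      div_mul_cancel₀ _ h.hr.ne']
    have := mul_pos hε h.hr
    linarith

theorem NB.gauge_add_le' (h : NB K u r R) (x y : E) :
    gauge K (x + y) ≤ gauge K x + gauge K y :=
  gauge_add_le h.conv (absorbent_nhds_zero h.zero_nhds) x y

/-- Rotating a boundary point horizontally: its gauge is near `1`. -/
theorem NB.gauge_rot (h : NB K u r R) {θ θ₀ : E} (hθu : (inner ℝ u θ : ℝ) = 0)
    (hθu₀ : (inner ℝ u θ₀ : ℝ) = 0) {ρ z : ℝ} (hρ : 0 ≤ ρ)
    (hp : ρ • θ₀ + z • u ∈ frontier K) :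
    |gauge K (ρ • θ + z • u) - 1| ≤ ρ * ‖θ - θ₀‖ / r := by
  have h1 : gauge K (ρ • θ₀ + z • u) = 1 := h.mem_frontier.1 hp
  have hortho : (inner ℝ u (ρ • (θ - θ₀)) : ℝ) = 0 := by
    rw [inner_smul_right, inner_sub_right, hθu, hθu₀]; ring
  have hortho' : (inner ℝ u (ρ • (θ₀ - θ)) : ℝ) = 0 := by
    rw [inner_smul_right, inner_sub_right, hθu, hθu₀]; ring
  have h2 := h.gauge_add_le' (ρ • θ₀ + z • u) (ρ • (θ - θ₀))
  have h3 := h.gauge_add_le' (ρ • θ + z • u) (ρ • (θ₀ - θ))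
  have e2 : ρ • θ₀ + z • u + ρ • (θ - θ₀) = ρ • θ + z • u := by rw [smul_sub]; abel
  have e3 : ρ • θ + z • u + ρ • (θ₀ - θ) = ρ • θ₀ + z • u := by rw [smul_sub]; abel
  rw [e2] at h2
  rw [e3] at h3
  have h4 := h.gauge_orth hortho
  have h5 := h.gauge_orth hortho'
  rw [norm_smul, Real.norm_eq_abs, abs_of_nonneg hρ] at h4 h5
  rw [norm_sub_rev] at h5
  rw [abs_le]
  constructor <;> linarith

theorem NB.norm_pt_sq (h : NB K u r R) {θ : E} (hθ : ‖θ‖ = 1) (hθu : (inner ℝ u θ : ℝ) = 0)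
    (ρ z : ℝ) : ‖ρ • θ + z • u‖ ^ 2 = ρ ^ 2 + z ^ 2 := by
  rw [norm_sq_split h, h.yc_pt hθu, h.inner_pt hθu, norm_smul, hθ, mul_one, Real.norm_eq_abs,
    sq_abs]

theorem NB.rot_dist (h : NB K u r R) {θ θ₀ : E} (hθ : ‖θ‖ = 1) (hθ₀ : ‖θ₀‖ = 1)
    (hθu : (inner ℝ u θ : ℝ) = 0) (hθu₀ : (inner ℝ u θ₀ : ℝ) = 0) {ρ z : ℝ} (hρ : 0 ≤ ρ)
    (hp : ρ • θ₀ + z • u ∈ frontier K) (hg : 1 / 2 ≤ gauge K (ρ • θ + z • u)) :
    ‖(gauge K (ρ • θ + z • u))⁻¹ • (ρ • θ + z • u) - (ρ • θ₀ + z • u)‖ ≤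
      (1 + 2 * R / r) * (ρ * ‖θ - θ₀‖) := by
  have hr := h.hr
  have hR := h.hR
  set g := gauge K (ρ • θ + z • u) with hgdef
  have hgpos : 0 < g := by linarith
  have h1 := h.gauge_rot (θ := θ) hθu hθu₀ hρ hp
  rw [← hgdef] at h1
  have h2 : g⁻¹ • (ρ • θ + z • u) - (ρ • θ₀ + z • u) =
      (g⁻¹ - 1) • (ρ • θ + z • u) + ρ • (θ - θ₀) := by
    rw [sub_smul, one_smul, smul_sub]; abel
  rw [h2]
  have h3 : ‖ρ • θ + z • u‖ ≤ R := by
    have e1 := h.norm_pt_sq hθ hθu ρ z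
    have e2 := h.norm_pt_sq hθ₀ hθu₀ ρ z
    have e3 := h.ball _ (h.frontier_subset hp)
    have e4 : ‖ρ • θ + z • u‖ ^ 2 ≤ R ^ 2 := by
      rw [e1, ← e2]
      exact pow_le_pow_left₀ (norm_nonneg _) e3 2
    exact le_of_sq_le_sq e4 hR.le
  have h4 : |g⁻¹ - 1| ≤ 2 * (ρ * ‖θ - θ₀‖ / r) := by
    have e1 : g⁻¹ - 1 = (1 - g) * g⁻¹ := by field_simp
    rw [e1, abs_mul, abs_of_pos (inv_pos.2 hgpos), abs_sub_comm]
    have e2 : g⁻¹ ≤ 2 := by
      rw [inv_le_comm₀ hgpos two_pos]; linarith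
    calc |g - 1| * g⁻¹ ≤ (ρ * ‖θ - θ₀‖ / r) * 2 :=
          mul_le_mul h1 e2 (inv_nonneg.2 hgpos.le) (by positivity)
      _ = _ := by ring
  refine (norm_add_le _ _).trans ?_
  rw [norm_smul, norm_smul, Real.norm_eq_abs, Real.norm_eq_abs, abs_of_nonneg hρ]
  calc |g⁻¹ - 1| * ‖ρ • θ + z • u‖ + ρ * ‖θ - θ₀‖
      ≤ (2 * (ρ * ‖θ - θ₀‖ / r)) * R + ρ * ‖θ - θ₀‖ := by
        apply add_le_add _ le_rfl
        exact mul_le_mul h4 h3 (norm_nonneg _) (by positivity)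
    _ = _ := by ring

/-- The inverse map. -/
noncomputable def Psi (K : Set E) (u : E) (r R : ℝ) (q : E) : E :=
  Function.invFunOn (Phi K u r R) (frontier K) q

theorem NB.Psi_mem (h : NB K u r R) {q : E} (hq : q ∈ MS u) : Psi K u r R q ∈ frontier K := by
  obtain ⟨p, hp, hpq⟩ := h.surj_Phi hq
  exact Function.invFunOn_mem ⟨p, hp, hpq⟩

theorem NB.Phi_Psi (h : NB K u r R) {q : E} (hq : q ∈ MS u) : Phi K u r R (Psi K u r R q) = q := by
  obtain ⟨p, hp, hpq⟩ := h.surj_Phi hq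
  exact Function.invFunOn_eq ⟨p, hp, hpq⟩

theorem NB.Psi_Phi (h : NB K u r R) {p : E} (hp : p ∈ frontier K) :
    Psi K u r R (Phi K u r R p) = p :=
  h.inj_Phi (h.Psi_mem (h.mapsTo_Phi hp)) hp (h.Phi_Psi (h.mapsTo_Phi hp))

/-- Distance of a boundary point from the top. -/
theorem NB.dist_top (h : NB K u r R) {p : E} (hp : p ∈ frontier K) :
    ‖p - zt K u • u‖ ≤ (r / (4 * R ^ 2))⁻¹ * (3 / 2 * (1 - hh K u r R p)) := by
  have h1 := h.sc_lower hp
  have hc0 := h.c0_pos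
  have h2 : p - zt K u • u = yc u p + ((inner ℝ u p : ℝ) - zt K u) • u := by
    conv_lhs => rw [← yc_add (u := u) p]
    rw [sub_smul]; abel
  have h3 : ‖p - zt K u • u‖ ≤ ‖yc u p‖ + |(inner ℝ u p : ℝ) - zt K u| := by
    rw [h2]
    refine (norm_add_le _ _).trans ?_
    rw [norm_smul, h.hu, mul_one, Real.norm_eq_abs]
  have h4 : ‖yc u p‖ + |(inner ℝ u p : ℝ) - zt K u| ≤ (r / (4 * R ^ 2))⁻¹ * sc K u r R p := by
    rw [le_inv_mul_iff₀ hc0]; exact h1
  have h5 : sc K u r R p ≤ 3 / 2 * (1 - hh K u r R p) := by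
    have e1 := h.one_sub_hh p
    have e2 := h.ell_pos
    have e3 := h.ell_le_three
    rw [e1]
    have e4 : 3 / 2 * (2 * sc K u r R p / ell K u r R) = 3 * sc K u r R p / ell K u r R := by ring
    rw [e4, le_div_iff₀ e2]
    nlinarith [h.sc_nonneg hp]
  exact h3.trans (h4.trans (mul_le_mul_of_nonneg_left h5 (inv_nonneg.2 hc0.le)))

theorem NB.hh_eq_one (h : NB K u r R) {p : E} (hp : p ∈ frontier K) (h1 : hh K u r R p = 1) :
    p = zt K u • u := by
  have := h.dist_top hp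
  rw [h1, sub_self, mul_zero, mul_zero] at this
  exact sub_eq_zero.1 (norm_le_zero_iff.1 this)

theorem NB.psi_pole (h : NB K u r R) {q₀ : E} (hq₀ : q₀ ∈ MS u) (h0 : (inner ℝ u q₀ : ℝ) = 1)
    {q : E} (hq : q ∈ MS u) :
    ‖Psi K u r R q - Psi K u r R q₀‖ ≤ (r / (4 * R ^ 2))⁻¹ * (3 / 2) * ‖q - q₀‖ := by
  have hc0 := h.c0_pos
  have e1 : hh K u r R (Psi K u r R q₀) = 1 := by
    rw [← h.inner_Phi, h.Phi_Psi hq₀]; exact h0
  rw [h.hh_eq_one (h.Psi_mem hq₀) e1]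
  refine (h.dist_top (h.Psi_mem hq)).trans ?_
  have e2 : hh K u r R (Psi K u r R q) = inner ℝ u q := by
    rw [← h.inner_Phi, h.Phi_Psi hq]
  have e3 : 1 - (inner ℝ u q : ℝ) ≤ ‖q - q₀‖ := by
    rw [← h0, ← inner_sub_right, norm_sub_rev]
    exact (le_abs_self _).trans (abs_inner_le h _)
  rw [e2, mul_assoc]
  apply mul_le_mul_of_nonneg_left _ (inv_nonneg.2 hc0.le)
  linarith

/-- Horizontal distance of a boundary point from the axis, bounded by the height in the model. -/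
theorem NB.yc_le (h : NB K u r R) {p : E} (hp : p ∈ frontier K) :
    ‖yc u p‖ ≤ (r / (4 * R ^ 2))⁻¹ * (3 / 2) * (1 - |hh K u r R p|) := by
  have hc0 := h.c0_pos
  have key : ∀ {v : E}, NB K v r R → ‖yc v p‖ ≤ (r / (4 * R ^ 2))⁻¹ * (3 / 2) *
      (1 - hh K v r R p) := by
    intro v hv
    have h1 := hv.dist_top hp
    have h2 : ‖yc v (p - zt K v • v)‖ ≤ ‖p - zt K v • v‖ := norm_yc_le hv _
    rw [yc_sub', yc_u hv, sub_zero] at h2
    rw [mul_assoc]
    exact h2.trans h1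
  rcases le_total 0 (hh K u r R p) with h1 | h1
  · rw [abs_of_nonneg h1]; exact key h
  · rw [abs_of_nonpos h1]
    have := key h.neg
    rw [yc_neg, h.hh_neg hp] at this
    exact this

/-- Constant of the inverse map. -/
noncomputable def C3 (r R : ℝ) : ℝ :=
  (r / (4 * R ^ 2))⁻¹ * (3 / 2 + (1 / r + r / (2 * R ^ 2)) * ((1 + 2 * R / r) *
    (3 * (r / (4 * R ^ 2))⁻¹))) + (1 + 2 * R / r) * (3 * (r / (4 * R ^ 2))⁻¹)

theorem NB.plip_Psi (h : NB K u r R) : PLip (MS u) (C3 r R) (Psi K u r R) := by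
  have hr := h.hr
  have hR := h.hR
  have hc0 := h.c0_pos
  set c := (r / (4 * R ^ 2))⁻¹ with hc
  have hcpos : 0 < c := inv_pos.2 hc0
  set Cs := 1 / r + r / (2 * R ^ 2) with hCs
  have hCs0 : 0 ≤ Cs := by positivity
  set CH := 1 + 2 * R / r with hCH
  have hCH0 : 0 ≤ CH := by positivity
  have hC3 : C3 r R = c * (3 / 2 + Cs * (CH * (3 * c))) + CH * (3 * c) := rfl
  intro q₀ hq₀
  have hq₀' : ‖yc u q₀‖ + |(inner ℝ u q₀ : ℝ)| = 1 := hq₀
  by_cases hy : yc u q₀ = 0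
  · have hle : c * (3 / 2) ≤ C3 r R := by
      rw [hC3]
      have : 0 ≤ c * (Cs * (CH * (3 * c))) + CH * (3 * c) := by positivity
      linarith
    rw [hy, norm_zero, zero_add] at hq₀'
    rcases (abs_eq zero_le_one).1 hq₀' with h1 | h1
    · filter_upwards [self_mem_nhdsWithin] with q hq
      rw [dist_eq_norm, dist_eq_norm]
      exact (h.psi_pole hq₀ h1 hq).trans (mul_le_mul_of_nonneg_right hle (norm_nonneg _))
    · filter_upwards [self_mem_nhdsWithin] with q hq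
      rw [dist_eq_norm, dist_eq_norm]
      have hPs : ∀ x ∈ MS u, Psi K u r R x = Psi K (-u) r R x := by
        intro x hx
        have hx' : x ∈ MS (-u) := by rw [MS_neg]; exact hx
        have e1 := h.neg.Psi_mem hx'
        have e2 := h.neg.Phi_Psi hx'
        rw [h.Phi_neg e1] at e2
        conv_lhs => rw [← e2]
        exact h.Psi_Phi e1
      rw [hPs q hq, hPs q₀ hq₀]
      refine (h.neg.psi_pole (by rw [MS_neg]; exact hq₀) (by rw [inner_neg_left, h1]; norm_num)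
        (by rw [MS_neg]; exact hq)).trans (mul_le_mul_of_nonneg_right hle (norm_nonneg _))
  · -- off the poles
    set p₀ := Psi K u r R q₀ with hp₀
    have hp₀F : p₀ ∈ frontier K := h.Psi_mem hq₀
    have hΦ₀ : Phi K u r R p₀ = q₀ := h.Phi_Psi hq₀
    have hyn : 0 < ‖yc u q₀‖ := norm_pos_iff.2 hy
    have hh0 : 1 - |hh K u r R p₀| = ‖yc u q₀‖ := by rw [← h.norm_yc_Phi hp₀F, hΦ₀]
    have hyp₀ : yc u p₀ ≠ 0 := by
      intro h5
      apply hy
      rw [← hΦ₀, h.yc_Phi, h5, smul_zero, smul_zero]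
    obtain ⟨hθ₀, hθu₀, hpt₀⟩ := h.exists_dir hyp₀
    set θ₀ := ‖yc u p₀‖⁻¹ • yc u p₀ with hθ₀def
    have hθ₀q : ‖yc u q₀‖⁻¹ • yc u q₀ = θ₀ := by
      have e1 : yc u q₀ = ‖yc u q₀‖ • θ₀ := by
        conv_lhs => rw [← hΦ₀, h.yc_Phi, hh0]
      rw [e1, norm_smul, hθ₀, mul_one, norm_norm, smul_smul, inv_mul_cancel₀ hyn.ne', one_smul]
    set ρ₀ := ‖yc u p₀‖ with hρ₀
    have hρ₀pos : 0 < ρ₀ := norm_pos_iff.2 hyp₀
    set z₀ := (inner ℝ u p₀ : ℝ) with hz₀
    have hpt₀F : ρ₀ • θ₀ + z₀ • u ∈ frontier K := by rw [hpt₀]; exact hp₀F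
    -- the rotated points
    set θ : E → E := fun q => ‖yc u q‖⁻¹ • yc u q with hθdef
    have hyc_cont : Continuous (fun q : E => yc u q) := by unfold yc; fun_prop
    have hθc : ContinuousAt θ q₀ :=
      ((hyc_cont.norm.continuousAt).inv₀ hyn.ne').smul hyc_cont.continuousAt
    have hθq₀ : θ q₀ = θ₀ := hθ₀q
    set p' : E → E := fun q => ρ₀ • θ q + z₀ • u with hp'
    have hp'c : ContinuousAt p' q₀ := by
      exact ((continuousAt_const.smul hθc)).add continuousAt_const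
    have hgc : ContinuousAt (fun q => gauge K (p' q)) q₀ :=
      (continuous_gauge h.conv h.zero_nhds).continuousAt.comp hp'c
    have hg1 : gauge K (p' q₀) = 1 := by
      rw [hp']; simp only; rw [hθq₀]; exact h.mem_frontier.1 hpt₀F
    set p₁ : E → E := fun q => (gauge K (p' q))⁻¹ • p' q with hp₁
    have hp₁c : ContinuousAt p₁ q₀ := (hgc.inv₀ (by rw [hg1]; norm_num)).smul hp'c
    have hp₁q₀ : p₁ q₀ = p₀ := by
      rw [hp₁]; simp only; rw [hg1, inv_one, one_smul, hp']; simp only; rw [hθq₀]; exact hpt₀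
    have hgev : ∀ᶠ q in 𝓝 q₀, 1 / 2 ≤ gauge K (p' q) := by
      have : (1 / 2 : ℝ) < gauge K (p' q₀) := by rw [hg1]; norm_num
      exact (hgc.eventually (lt_mem_nhds this)).mono fun q hq => hq.le
    have hyev : ∀ᶠ q in 𝓝 q₀, yc u q ≠ 0 :=
      hyc_cont.continuousAt.eventually_ne hy
    have htend : Tendsto p₁ (𝓝[MS u] q₀) (𝓝[frontier K] p₀) := by
      rw [tendsto_nhdsWithin_iff]
      constructor
      · have := hp₁c.tendsto
        rw [hp₁q₀] at this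
        exact this.mono_left nhdsWithin_le_nhds
      · refine (hgev.filter_mono nhdsWithin_le_nhds).mono fun q hq => ?_
        rw [h.mem_frontier, hp₁]
        simp only
        rw [NB.gauge_smul' (inv_nonneg.2 (by linarith)), inv_mul_cancel₀ (by linarith)]
    have hsc := htend.eventually (h.plip_sc p₀ hp₀F)
    filter_upwards [hsc, hgev.filter_mono nhdsWithin_le_nhds,
      hyev.filter_mono nhdsWithin_le_nhds, self_mem_nhdsWithin] with q hscq hgq hyq hq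
    set p := Psi K u r R q with hpdef
    have hpF : p ∈ frontier K := h.Psi_mem hq
    have hΦ : Phi K u r R p = q := h.Phi_Psi hq
    have hqn : 0 < ‖yc u q‖ := norm_pos_iff.2 hyq
    have hhq : 1 - |hh K u r R p| = ‖yc u q‖ := by rw [← h.norm_yc_Phi hpF, hΦ]
    have hyp : yc u p ≠ 0 := by
      intro h5
      apply hyq
      rw [← hΦ, h.yc_Phi, h5, smul_zero, smul_zero]
    obtain ⟨hθp, hθup, hptp⟩ := h.exists_dir hyp
    have hθeq : ‖yc u p‖⁻¹ • yc u p = θ q := by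
      have e1 : yc u q = ‖yc u q‖ • (‖yc u p‖⁻¹ • yc u p) := by
        conv_lhs => rw [← hΦ, h.yc_Phi, hhq]
      rw [hθdef]
      simp only
      conv_rhs => rw [e1]
      rw [norm_smul, hθp, mul_one, norm_norm, smul_smul, inv_mul_cancel₀ hqn.ne', one_smul]
    rw [hθeq] at hθp hθup hptp
    set g := gauge K (p' q) with hg
    have hgpos : 0 < g := by linarith
    -- p₁ in coordinates
    have hp₁eq : p₁ q = (g⁻¹ * ρ₀) • θ q + (g⁻¹ * z₀) • u := by
      have e0 : ∀ a : E, g⁻¹ • (ρ₀ • a + z₀ • u) = (g⁻¹ * ρ₀) • a + (g⁻¹ * z₀) • u := by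
        intro a; rw [smul_add, smul_smul, smul_smul]
      exact e0 (θ q)
    have hp₁F : p₁ q ∈ frontier K := by
      rw [h.mem_frontier, hp₁]
      simp only
      rw [NB.gauge_smul' (inv_nonneg.2 hgpos.le), ← hg, inv_mul_cancel₀ hgpos.ne']
    have hmono := h.mono hθp hθup (norm_nonneg (yc u p)) (mul_nonneg (inv_nonneg.2 hgpos.le)
      hρ₀pos.le) (by rw [hptp]; exact hpF) (by rw [← hp₁eq]; exact hp₁F)
    rw [hptp, ← hp₁eq] at hmono
    have hpp₁ : ‖p - p₁ q‖ ≤ c * |sc K u r R p - sc K u r R (p₁ q)| := by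
      have e1 : p - p₁ q = (‖yc u p‖ - g⁻¹ * ρ₀) • θ q + ((inner ℝ u p : ℝ) - g⁻¹ * z₀) • u := by
        conv_lhs => rw [← hptp, hp₁eq]
        rw [sub_smul, sub_smul]; abel
      have e2 : ‖p - p₁ q‖ ≤ |‖yc u p‖ - g⁻¹ * ρ₀| + |(inner ℝ u p : ℝ) - g⁻¹ * z₀| := by
        rw [e1]
        have e3 : ‖(‖yc u p‖ - g⁻¹ * ρ₀) • θ q‖ = |‖yc u p‖ - g⁻¹ * ρ₀| := by
          rw [norm_smul, hθp, mul_one, Real.norm_eq_abs]
        have e4 : ‖((inner ℝ u p : ℝ) - g⁻¹ * z₀) • u‖ = |(inner ℝ u p : ℝ) - g⁻¹ * z₀| := by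
          rw [norm_smul, h.hu, mul_one, Real.norm_eq_abs]
        rw [← e3, ← e4]
        exact norm_add_le _ _
      refine e2.trans ?_
      rw [hc, le_inv_mul_iff₀ hc0]
      exact hmono
    -- the distance of p₁ from p₀
    have hp₁p₀ : ‖p₁ q - p₀‖ ≤ CH * (ρ₀ * ‖θ q - θ₀‖) := by
      have := h.rot_dist hθp hθ₀ hθup hθu₀ hρ₀pos.le hpt₀F hgq
      rw [hpt₀] at this
      exact this
    have hκ : ‖θ q - θ₀‖ ≤ 2 * ‖q - q₀‖ / ‖yc u q₀‖ := by
      have e1 := dir_sub_le (a := yc u q) hy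
      rw [← yc_sub', hθ₀q] at e1
      refine e1.trans ?_
      have := norm_yc_le h (q - q₀)
      gcongr
    have hρ₀le : ρ₀ ≤ c * (3 / 2) * ‖yc u q₀‖ := by
      have := h.yc_le hp₀F
      rw [hh0] at this
      exact this
    have hρκ : ρ₀ * ‖θ q - θ₀‖ ≤ 3 * c * ‖q - q₀‖ := by
      calc ρ₀ * ‖θ q - θ₀‖ ≤ (c * (3 / 2) * ‖yc u q₀‖) * (2 * ‖q - q₀‖ / ‖yc u q₀‖) :=
            mul_le_mul hρ₀le hκ (norm_nonneg _) (by positivity)
        _ = 3 * c * ‖q - q₀‖ := by field_simp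
    have hD : ‖p₁ q - p₀‖ ≤ CH * (3 * c) * ‖q - q₀‖ := by
      refine hp₁p₀.trans ?_
      rw [mul_assoc]
      apply mul_le_mul_of_nonneg_left _ hCH0
      linarith
    -- difference of the coordinates
    have hs1 : |sc K u r R p - sc K u r R p₀| ≤ 3 / 2 * ‖q - q₀‖ := by
      have e1 : sc K u r R p - sc K u r R p₀ =
          ell K u r R / 2 * (inner ℝ u (q₀ - q) : ℝ) := by
        have e0 : (inner ℝ u q₀ : ℝ) = hh K u r R p₀ := by rw [← h.inner_Phi, hΦ₀]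
        have e0' : (inner ℝ u q : ℝ) = hh K u r R p := by rw [← h.inner_Phi, hΦ]
        rw [inner_sub_right, e0, e0']
        have := h.ell_pos.ne'
        unfold hh; field_simp; ring
      rw [e1, abs_mul, abs_of_nonneg (by have := h.ell_pos; positivity)]
      have e2 := abs_inner_le h (q₀ - q)
      rw [norm_sub_rev] at e2
      have e3 := h.ell_le_three
      exact mul_le_mul (by linarith) e2 (abs_nonneg _) (by norm_num)
    rw [Real.dist_eq, dist_eq_norm] at hscq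
    have hs2 : |sc K u r R p - sc K u r R (p₁ q)| ≤
        (3 / 2 + Cs * (CH * (3 * c))) * ‖q - q₀‖ := by
      have e1 : sc K u r R p - sc K u r R (p₁ q) =
          (sc K u r R p - sc K u r R p₀) + -(sc K u r R (p₁ q) - sc K u r R p₀) := by ring
      rw [e1]
      refine (abs_add_le _ _).trans ?_
      rw [abs_neg, add_mul]
      refine add_le_add hs1 (hscq.trans ?_)
      have := mul_le_mul_of_nonneg_left hD hCs0
      rw [← mul_assoc] at this
      exact this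
    rw [dist_eq_norm, dist_eq_norm, hC3]
    have hfin : p - p₀ = (p - p₁ q) + (p₁ q - p₀) := by abel
    rw [hfin, add_mul]
    refine (norm_add_le _ _).trans (add_le_add ?_ hD)
    refine hpp₁.trans ?_
    rw [mul_assoc]
    exact mul_le_mul_of_nonneg_left hs2 hcpos.le

end

end Pool.Agent.Helper32.CH
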