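import Pool.Agent.Helper32.CH.Defs

/-!
Block CH-1 (MP_7116bc_gt): elementary properties of `innerEDist`.

Proof of `innerEDist_comp_le`: take a curve `γ` in `S` from `x` to `y` (if there is none, the
right side is `⊤` because `0 < L`). `f ∘ γ` is continuous on `[0,1]` (`PLip` implies
`ContinuousWithinAt f S p` for `p ∈ S`), it maps into `S'`. For `s ≤ t` in `[0,1]` we show
`edist (f (γ s)) (f (γ t)) ≤ ofReal L * eVariationOn γ (Icc s t)`: the set of the `t ∈ [s,1]` for which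
this holds contains `s`, is closed under suprema and can always be continued to the right
(each time use the neighbourhood of `γ t₀` given by `PLip` and
`eVariationOn.Icc_add_Icc`; continuity of `γ` gives that `γ t'` is in that neighbourhood
for `t'` near `t₀` on both sides). Then `eVariationOn (f ∘ γ) ≤ ofReal L * eVariationOn γ`
by the definition of `eVariationOn` as a supremum over monotone sequences
(`eVariationOn.sum_le_of_monotoneOn_Icc` or similar).

`innerEDist_triangle`: concatenate two curves at speed 2 (`if t ≤ 1/2 then γ₁ (2t) else γ₂ (2t-1)`),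
use `eVariationOn.Icc_add_Icc` and `eVariationOn.comp_eq_of_monotoneOn` /
`eVariationOn.comp_le_of_monotoneOn`.
`innerEDist_comm`: reverse (`t ↦ γ (1 - t)`, `eVariationOn.comp_le_of_antitoneOn`).
`edist_le_innerEDist`: `eVariationOn.edist_le`.
-/

set_option autoImplicit false

namespace Pool.Agent.Helper32.CH

open Set Filter Topology MeasureTheory
open scoped ENNReal

theorem edist_le_innerEDist {E : Type*} [PseudoEMetricSpace E] (S : Set E) (x y : E) :
    edist x y ≤ innerEDist S x y := by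
  refine le_iInf fun ⟨γ, _, _, h0, h1⟩ => ?_
  have h := eVariationOn.edist_le γ (s := Icc (0 : ℝ) 1) (x := 0) (y := 1)
    (left_mem_Icc.2 zero_le_one) (right_mem_Icc.2 zero_le_one)
  rwa [h0, h1] at h

private theorem innerEDist_le31 {E : Type*} [PseudoEMetricSpace E] {S : Set E} {x y : E} (γ : ℝ → E)
    (hc : ContinuousOn γ (Icc 0 1)) (hS : ∀ t ∈ Icc (0 : ℝ) 1, γ t ∈ S) (h0 : γ 0 = x) (h1 : γ 1 = y) :
    innerEDist S x y ≤ eVariationOn γ (Icc 0 1) :=
  iInf_le (fun γ : {γ : ℝ → E // ContinuousOn γ (Icc 0 1) ∧ (∀ t ∈ Icc (0 : ℝ) 1, γ t ∈ S) ∧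
    γ 0 = x ∧ γ 1 = y} => eVariationOn γ.1 (Icc 0 1)) ⟨γ, hc, hS, h0, h1⟩

private theorem innerEDist_comm_le31 {E : Type*} [PseudoEMetricSpace E] (S : Set E) (x y : E) :
    innerEDist S x y ≤ innerEDist S y x := by
  refine le_iInf fun ⟨γ, hc, hS, h0, h1⟩ => ?_
  have hmaps : MapsTo (fun t : ℝ => 1 - t) (Icc 0 1) (Icc 0 1) := by
    intro t ht
    exact ⟨by linarith [ht.2], by linarith [ht.1]⟩
  have h2 : innerEDist S x y ≤ eVariationOn (γ ∘ fun t => 1 - t) (Icc 0 1) := by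
    refine innerEDist_le31 _ ?_ ?_ ?_ ?_
    · exact hc.comp (continuous_const.sub continuous_id).continuousOn hmaps
    · intro t ht
      exact hS _ (hmaps ht)
    · simpa using h1
    · simpa using h0
  refine h2.trans (eVariationOn.comp_le_of_antitoneOn γ _ ?_ hmaps)
  intro a _ b _ hab
  dsimp only
  linarith

theorem innerEDist_comm {E : Type*} [PseudoEMetricSpace E] (S : Set E) (x y : E) :
    innerEDist S x y = innerEDist S y x :=
  le_antisymm (innerEDist_comm_le31 S x y) (innerEDist_comm_le31 S y x)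

private theorem innerEDist_triangle31 {E : Type*} [PseudoEMetricSpace E] (S : Set E) (x y z : E) (γ δ : ℝ → E)
    (hc : ContinuousOn γ (Icc 0 1)) (hS : ∀ t ∈ Icc (0 : ℝ) 1, γ t ∈ S) (h0 : γ 0 = x) (h1 : γ 1 = y)
    (hc' : ContinuousOn δ (Icc 0 1)) (hS' : ∀ t ∈ Icc (0 : ℝ) 1, δ t ∈ S) (h0' : δ 0 = y) (h1' : δ 1 = z) :
    innerEDist S x z ≤ eVariationOn γ (Icc 0 1) + eVariationOn δ (Icc 0 1) := by
  have e1 : ∀ t ∈ Icc (0 : ℝ) (1 / 2), (if t ≤ 1 / 2 then γ (2 * t) else δ (2 * t - 1)) = γ (2 * t) := by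
    intro t ht
    rw [if_pos ht.2]
  have e2 : ∀ t ∈ Icc (1 / 2 : ℝ) 1, (if t ≤ 1 / 2 then γ (2 * t) else δ (2 * t - 1)) = δ (2 * t - 1) := by
    intro t ht
    split_ifs with h
    · have h2 : t = 1 / 2 := le_antisymm h ht.1
      rw [h2]
      norm_num
      rw [h1, h0']
    · rfl
  have m1 : MapsTo (fun t : ℝ => 2 * t) (Icc 0 (1 / 2)) (Icc 0 1) := by
    intro t ht
    exact ⟨by linarith [ht.1], by linarith [ht.2]⟩
  have m2 : MapsTo (fun t : ℝ => 2 * t - 1) (Icc (1 / 2) 1) (Icc 0 1) := by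
    intro t ht
    exact ⟨by linarith [ht.1], by linarith [ht.2]⟩
  have hun : Icc (0 : ℝ) (1 / 2) ∪ Icc (1 / 2) 1 = Icc 0 1 :=
    Icc_union_Icc_eq_Icc (by norm_num) (by norm_num)
  refine (innerEDist_le31 (fun t => if t ≤ 1 / 2 then γ (2 * t) else δ (2 * t - 1)) ?_ ?_ ?_ ?_).trans ?_
  · rw [← hun]
    refine ContinuousOn.union_of_isClosed ?_ ?_ isClosed_Icc isClosed_Icc
    · exact (hc.comp (continuous_const.mul continuous_id).continuousOn m1).congr e1
    · exact (hc'.comp ((continuous_const.mul continuous_id).sub continuous_const).continuousOn m2).congr e2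
  · intro t ht
    rw [← hun] at ht
    rcases ht with ht | ht
    · rw [e1 t ht]
      exact hS _ (m1 ht)
    · rw [e2 t ht]
      exact hS' _ (m2 ht)
  · norm_num
    exact h0
  · norm_num
    exact h1'
  · have h3 := eVariationOn.Icc_add_Icc (fun t : ℝ => if t ≤ 1 / 2 then γ (2 * t) else δ (2 * t - 1))
      (s := univ) (a := 0) (b := 1 / 2) (c := 1) (by norm_num) (by norm_num) (mem_univ _)
    simp only [univ_inter] at h3
    rw [← h3]
    refine add_le_add ?_ ?_
    · rw [eVariationOn.congr (g := γ ∘ fun t : ℝ => 2 * t) e1]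
      refine eVariationOn.comp_le_of_monotoneOn γ _ ?_ m1
      intro a _ b _ hab
      dsimp only
      linarith
    · rw [eVariationOn.congr (g := δ ∘ fun t : ℝ => 2 * t - 1) e2]
      refine eVariationOn.comp_le_of_monotoneOn δ _ ?_ m2
      intro a _ b _ hab
      dsimp only
      linarith

theorem innerEDist_triangle {E : Type*} [PseudoEMetricSpace E] (S : Set E) (x y z : E) :
    innerEDist S x z ≤ innerEDist S x y + innerEDist S y z := by
  have key : ∀ γ : {γ : ℝ → E // ContinuousOn γ (Icc 0 1) ∧ (∀ t ∈ Icc (0 : ℝ) 1, γ t ∈ S) ∧ γ 0 = x ∧ γ 1 = y},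
      ∀ δ : {γ : ℝ → E // ContinuousOn γ (Icc 0 1) ∧ (∀ t ∈ Icc (0 : ℝ) 1, γ t ∈ S) ∧ γ 0 = y ∧ γ 1 = z},
      innerEDist S x z ≤ eVariationOn γ.1 (Icc 0 1) + eVariationOn δ.1 (Icc 0 1) := by
    rintro ⟨γ, hc, hS, h0, h1⟩ ⟨δ, hc', hS', h0', h1'⟩
    exact innerEDist_triangle31 S x y z γ δ hc hS h0 h1 hc' hS' h0' h1'
  rw [innerEDist, innerEDist, innerEDist, ENNReal.iInf_add]
  refine le_iInf fun γ => ?_
  rw [ENNReal.add_iInf]
  exact le_iInf fun δ => key γ δ

private theorem edist_le_of_dist_le31 {E F : Type*} [MetricSpace E] [MetricSpace F] {L : ℝ} (hL : 0 < L)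
    {a b : E} {c d : F} (h : dist c d ≤ L * dist a b) : edist c d ≤ ENNReal.ofReal L * edist a b := by
  rw [edist_dist, edist_dist, ← ENNReal.ofReal_mul hL.le]
  exact ENNReal.ofReal_le_ofReal h

private theorem edist_le_var31 {E F : Type*} [MetricSpace E] [MetricSpace F] {S : Set E}
    {L : ℝ} (hL : 0 < L) {f : E → F} (hf : PLip S L f) {γ : ℝ → E} {a b : ℝ} (hab : a ≤ b)
    (hc : ContinuousOn γ (Icc a b)) (hS : ∀ t ∈ Icc a b, γ t ∈ S) :
    edist (f (γ a)) (f (γ b)) ≤ ENNReal.ofReal L * eVariationOn γ (Icc a b) := by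
  -- local estimate
  have hloc : ∀ t ∈ Icc a b, ∃ δ > 0, ∀ u ∈ Icc a b, |u - t| < δ →
      dist (f (γ u)) (f (γ t)) ≤ L * dist (γ u) (γ t) := by
    intro t ht
    have h1 : ∀ᶠ u in 𝓝[Icc a b] t, dist (f (γ u)) (f (γ t)) ≤ L * dist (γ u) (γ t) := by
      have h2 : Tendsto γ (𝓝[Icc a b] t) (𝓝[S] (γ t)) := by
        refine tendsto_nhdsWithin_iff.2 ⟨hc t ht, ?_⟩
        filter_upwards [self_mem_nhdsWithin] with u hu
        exact hS u hu
      exact h2.eventually (hf (γ t) (hS t ht))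
    rw [eventually_nhdsWithin_iff, Metric.eventually_nhds_iff] at h1
    obtain ⟨δ, hδ, h2⟩ := h1
    refine ⟨δ, hδ, fun u hu hut => ?_⟩
    exact h2 (by rwa [Real.dist_eq]) hu
  have hadd : ∀ u t, a ≤ u → u ≤ t →
      eVariationOn γ (Icc a u) + eVariationOn γ (Icc u t) = eVariationOn γ (Icc a t) := by
    intro u t h1 h2
    have h3 := eVariationOn.Icc_add_Icc γ (s := univ) h1 h2 (mem_univ _)
    simpa only [univ_inter] using h3
  have step : ∀ u t, u ∈ Icc a b → t ∈ Icc a b → u ≤ t →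
      dist (f (γ u)) (f (γ t)) ≤ L * dist (γ u) (γ t) →
      edist (f (γ a)) (f (γ u)) ≤ ENNReal.ofReal L * eVariationOn γ (Icc a u) →
      edist (f (γ a)) (f (γ t)) ≤ ENNReal.ofReal L * eVariationOn γ (Icc a t) := by
    intro u t hu ht hut h1 h2
    rw [← hadd u t hu.1 hut, mul_add]
    refine (edist_triangle _ (f (γ u)) _).trans (add_le_add h2 ?_)
    refine (edist_le_of_dist_le31 hL h1).trans (mul_le_mul' le_rfl ?_)
    exact eVariationOn.edist_le γ (left_mem_Icc.2 hut) (right_mem_Icc.2 hut)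
  set A : Set ℝ := {t | t ∈ Icc a b ∧ edist (f (γ a)) (f (γ t)) ≤ ENNReal.ofReal L * eVariationOn γ (Icc a t)} with hA
  have haA : a ∈ A := ⟨left_mem_Icc.2 hab, by simp⟩
  have hbdd : BddAbove A := ⟨b, fun t ht => ht.1.2⟩
  have hT1 : a ≤ sSup A := le_csSup hbdd haA
  have hT2 : sSup A ≤ b := csSup_le ⟨a, haA⟩ fun t ht => ht.1.2
  obtain ⟨δ, hδ, hloc'⟩ := hloc (sSup A) ⟨hT1, hT2⟩
  have hTA : sSup A ∈ A := by
    refine ⟨⟨hT1, hT2⟩, ?_⟩
    obtain ⟨u, huA, hu⟩ := exists_lt_of_lt_csSup ⟨a, haA⟩ (sub_lt_self (sSup A) hδ)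
    have huT : u ≤ sSup A := le_csSup hbdd huA
    refine step u _ huA.1 ⟨hT1, hT2⟩ huT ?_ huA.2
    refine hloc' u huA.1 ?_
    rw [abs_sub_lt_iff]
    constructor <;> linarith
  rcases eq_or_lt_of_le hT2 with h | h
  · rw [h] at hTA
    exact hTA.2
  · exfalso
    set v := min b (sSup A + δ / 2) with hv
    have hv1 : sSup A < v := lt_min h (by linarith)
    have hv2 : v ∈ Icc a b := ⟨hT1.trans hv1.le, min_le_left _ _⟩
    have hv3 : v ≤ sSup A + δ / 2 := min_le_right _ _
    have hvA : v ∈ A := by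
      refine ⟨hv2, step _ v ⟨hT1, hT2⟩ hv2 hv1.le ?_ hTA.2⟩
      rw [dist_comm, dist_comm (γ (sSup A))]
      refine hloc' v hv2 ?_
      rw [abs_sub_lt_iff]
      constructor <;> linarith
    exact absurd (le_csSup hbdd hvA) (not_le.2 hv1)

theorem innerEDist_comp_le {E F : Type*} [MetricSpace E] [MetricSpace F] {S : Set E} {S' : Set F}
    {L : ℝ} (hL : 0 < L) {f : E → F} (hf : PLip S L f) (hm : MapsTo f S S') (x y : E) :
    innerEDist S' (f x) (f y) ≤ ENNReal.ofReal L * innerEDist S x y := by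
  rw [innerEDist.eq_1 S x y, ENNReal.mul_iInf_of_ne (by simpa using hL) ENNReal.ofReal_ne_top]
  refine le_iInf fun ⟨γ, hc, hS, h0, h1⟩ => ?_
  dsimp only
  have hfc : ContinuousOn f S := by
    intro p hp
    rw [ContinuousWithinAt, tendsto_iff_dist_tendsto_zero]
    have h2 : Tendsto (fun q => L * dist q p) (𝓝[S] p) (𝓝 0) := by
      have h3 : Tendsto (fun q : E => L * dist q p) (𝓝 p) (𝓝 (L * dist p p)) :=
        (continuous_const.mul (continuous_id.dist continuous_const)).tendsto p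
      rw [dist_self, mul_zero] at h3
      exact h3.mono_left nhdsWithin_le_nhds
    exact squeeze_zero' (Eventually.of_forall fun _ => dist_nonneg) (hf p hp) h2
  refine (innerEDist_le31 (f ∘ γ) (hfc.comp hc fun t ht => hS t ht) (fun t ht => hm (hS t ht)) ?_ ?_).trans ?_
  · rw [Function.comp_apply, h0]
  · rw [Function.comp_apply, h1]
  · refine iSup_le ?_
    rintro ⟨n, u, hu, hus⟩
    dsimp only
    have h2 : ∀ i, edist ((f ∘ γ) (u (i + 1))) ((f ∘ γ) (u i)) ≤
        ENNReal.ofReal L * eVariationOn γ (Icc (u i) (u (i + 1))) := by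
      intro i
      rw [edist_comm]
      have hsub : Icc (u i) (u (i + 1)) ⊆ Icc 0 1 := Icc_subset_Icc (hus i).1 (hus (i + 1)).2
      exact edist_le_var31 hL hf (hu (Nat.le_succ i)) (hc.mono hsub) fun t ht => hS t (hsub ht)
    refine (Finset.sum_le_sum fun i _ => h2 i).trans ?_
    rw [← Finset.mul_sum]
    refine mul_le_mul' le_rfl ?_
    rw [eVariationOn.sum' γ hu]
    exact eVariationOn.mono γ (Icc_subset_Icc (hus 0).1 (hus n).2)

end Pool.Agent.Helper32.CH
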