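import Mathlib

/-!
MP_7116bc_gt (Lipschitz stability of Alexandrov spaces), class of convex hypersurfaces.
Basic definitions: inner distance of a set, pointwise Lipschitz maps, convex hypersurfaces and
their Gromov-Hausdorff limits, flat discs in convex sets.
-/

set_option autoImplicit false

namespace Pool.Agent.Helper32.CH

open Set Filter Topology MeasureTheory
open scoped ENNReal

/-- Inner (intrinsic) distance of a subset `S`: the infimum of the lengths (total variations)
of the continuous curves `γ : [0,1] → S` from `x` to `y` (it is `⊤` if there is none). -/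
noncomputable def innerEDist {E : Type*} [PseudoEMetricSpace E] (S : Set E) (x y : E) : ℝ≥0∞ :=
  ⨅ γ : {γ : ℝ → E // ContinuousOn γ (Icc 0 1) ∧ (∀ t ∈ Icc (0 : ℝ) 1, γ t ∈ S) ∧
    γ 0 = x ∧ γ 1 = y}, eVariationOn γ.1 (Icc 0 1)

/-- `f` is pointwise Lipschitz on `S` with constant `L`. -/
def PLip {E F : Type*} [PseudoMetricSpace E] [PseudoMetricSpace F] (S : Set E) (L : ℝ)
    (f : E → F) : Prop :=
  ∀ p ∈ S, ∀ᶠ q in 𝓝[S] p, dist (f q) (f p) ≤ L * dist q p

/-- The metric space `Y` is (isometric to) a convex hypersurface of dimension `n`: the boundary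
of a compact convex set `K` with nonempty interior in the Euclidean space of dimension `n + 1`,
with its inner (intrinsic) metric. -/
def IsConvexHypersurface (n : ℕ) (Y : Type) [MetricSpace Y] : Prop :=
  ∃ (K : Set (EuclideanSpace ℝ (Fin (n + 1)))) (e : Y → EuclideanSpace ℝ (Fin (n + 1))),
    Convex ℝ K ∧ IsCompact K ∧ (interior K).Nonempty ∧ Set.range e = frontier K ∧
    ∀ a b, edist a b = innerEDist (frontier K) (e a) (e b)

/-- `X` is a Gromov-Hausdorff limit of convex hypersurfaces of dimension `n`
(for instance a convex hypersurface itself, or the double of a convex body of dimension `n`). -/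
def IsLimitOfConvexHypersurfaces (n : ℕ) (X : Type) [MetricSpace X] [CompactSpace X]
    [Nonempty X] : Prop :=
  ∀ ε : ℝ, 0 < ε → ∃ (Z : Type) (_ : MetricSpace Z) (_ : CompactSpace Z) (_ : Nonempty Z),
    IsConvexHypersurface n Z ∧ GromovHausdorff.ghDist X Z < ε

/-- `K` contains a flat disc of dimension `k` and radius `r`. -/
def HasDisc {E : Type*} [NormedAddCommGroup E] [InnerProductSpace ℝ E] (K : Set E) (k : ℕ)
    (r : ℝ) : Prop :=
  ∃ (c : E) (V : Submodule ℝ E), Module.finrank ℝ V = k ∧ ∀ v ∈ V, ‖v‖ ≤ r → c + v ∈ K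

/-- `f` is a surjective map which is bi-Lipschitz with constant `L`. -/
def IsBiLip {X Y : Type*} [PseudoMetricSpace X] [PseudoMetricSpace Y] (L : ℝ) (f : X → Y) :
    Prop :=
  Function.Surjective f ∧
    ∀ a b : X, dist a b ≤ L * dist (f a) (f b) ∧ dist (f a) (f b) ≤ L * dist a b

end Pool.Agent.Helper32.CH
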