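import Pool.Agent.Helper32.CH.Defs

/-!
Block CH-5 (MP_7116bc_gt): a compact metric space of Hausdorff dimension `n` has large separated
sets at arbitrarily small scales.

By contradiction: let all `δ ∈ (0, δ₀]` satisfy `card s ≤ C (1/δ)^(n-1)` for every
`δ`-separated finite set `s`. For each such `δ` take a `δ`-separated finite set of maximal
cardinality (the cardinalities are bounded); by maximality the balls of radius `δ`
around its points cover `X`, their diameters are at most `2 δ`, so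
`∑ diam^(n-1) ≤ C 2^(n-1)`. With `δ = δ₀ / (k + 1)`, `k → ∞`,
`MeasureTheory.Measure.hausdorffMeasure_le_liminf_sum` gives
`μH[n-1] univ ≤ C 2^(n-1) < ⊤`, so `dimH univ ≤ n - 1 < n`
(`dimH_le_of_hausdorffMeasure_ne_top`). Contradiction.
-/

set_option autoImplicit false

namespace Pool.Agent.Helper32.CH

open Set Filter Topology MeasureTheory
open scoped ENNReal NNReal

private theorem exists_max83 {X : Type*} [MetricSpace X] {δ : ℝ} (hδ : 0 < δ) {M : ℝ}
    (hM : ∀ s : Finset X, (∀ x ∈ s, ∀ y ∈ s, x ≠ y → δ ≤ dist x y) → (s.card : ℝ) ≤ M) :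
    ∃ s : Finset X, (∀ x ∈ s, ∀ y ∈ s, x ≠ y → δ ≤ dist x y) ∧ ∀ x : X, ∃ y ∈ s, dist x y < δ := by
  classical
  set T : Set ℕ := {k | ∃ s : Finset X, (∀ x ∈ s, ∀ y ∈ s, x ≠ y → δ ≤ dist x y) ∧ s.card = k} with hT
  have h1 : T.Nonempty := ⟨0, ∅, by simp, rfl⟩
  have h2 : BddAbove T := by
    obtain ⟨m, hm⟩ := exists_nat_ge M
    refine ⟨m, ?_⟩
    rintro k ⟨s, hs, rfl⟩
    exact_mod_cast (hM s hs).trans hm
  obtain ⟨s, hs, hcard⟩ := Nat.sSup_mem h1 h2
  refine ⟨s, hs, fun x => ?_⟩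
  by_contra hcon
  push Not at hcon
  have hx : x ∉ s := fun h => by
    have := hcon x h
    rw [dist_self] at this
    linarith
  have h3 : (insert x s).card ∈ T := by
    refine ⟨insert x s, fun a ha b hb hab => ?_, rfl⟩
    rcases Finset.mem_insert.1 ha with rfl | ha'
    · rcases Finset.mem_insert.1 hb with rfl | hb'
      · exact absurd rfl hab
      · exact hcon b hb'
    · rcases Finset.mem_insert.1 hb with rfl | hb'
      · rw [dist_comm]
        exact hcon a ha'
      · exact hs a ha' b hb' hab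
  have h4 := le_csSup h2 h3
  rw [Finset.card_insert_of_notMem hx, hcard] at h4
  omega

theorem exists_separated {X : Type*} [MetricSpace X] [CompactSpace X] (n : ℕ) (hn : 1 ≤ n)
    (hdim : dimH (Set.univ : Set X) = (n : ENNReal)) (C δ₀ : ℝ) (hδ₀ : 0 < δ₀) :
    ∃ δ : ℝ, 0 < δ ∧ δ ≤ δ₀ ∧ ∃ s : Finset X,
      (∀ x ∈ s, ∀ y ∈ s, x ≠ y → δ ≤ dist x y) ∧ C * (1 / δ) ^ (n - 1) < (s.card : ℝ) := by
  classical
  by_contra hcon
  push Not at hcon
  letI : MeasurableSpace X := borel X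
  haveI : BorelSpace X := ⟨rfl⟩
  -- the scales
  set δ : ℕ → ℝ := fun k => δ₀ / (k + 1) with hδ
  have hδ0 : ∀ k, 0 < δ k := fun k => by
    rw [hδ]
    positivity
  have hδ1 : ∀ k, δ k ≤ δ₀ := fun k => by
    rw [hδ]
    have h1 : (1 : ℝ) ≤ (k : ℝ) + 1 := by linarith [(Nat.cast_nonneg k : (0 : ℝ) ≤ k)]
    exact div_le_self hδ₀.le h1
  have hS : ∀ k, ∃ s : Finset X, (∀ x ∈ s, ∀ y ∈ s, x ≠ y → δ k ≤ dist x y) ∧ ∀ x : X, ∃ y ∈ s, dist x y < δ k :=
    fun k => exists_max83 (hδ0 k) (M := C * (1 / δ k) ^ (n - 1)) fun s hs => hcon (δ k) (hδ0 k) (hδ1 k) s hs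
  choose S hS1 hS2 using hS
  have hcard : ∀ k, ((S k).card : ℝ) ≤ C * (1 / δ k) ^ (n - 1) := fun k => hcon (δ k) (hδ0 k) (hδ1 k) (S k) (hS1 k)
  -- the measure
  have hlim : Tendsto (fun k : ℕ => ENNReal.ofReal (2 * δ k)) atTop (𝓝 0) := by
    have h1 : Tendsto (fun k : ℕ => 2 * δ k) atTop (𝓝 (2 * 0)) := by
      refine Tendsto.const_mul 2 ?_
      rw [hδ]
      exact Tendsto.div_atTop tendsto_const_nhds
        (tendsto_atTop_add_const_right _ _ tendsto_natCast_atTop_atTop)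
    rw [mul_zero] at h1
    have h2 := ENNReal.tendsto_ofReal h1
    rwa [ENNReal.ofReal_zero] at h2
  have hdiam : ∀ k (i : S k), Metric.ediam (Metric.ball (i : X) (δ k)) ≤ ENNReal.ofReal (2 * δ k) := by
    intro k i
    refine Metric.ediam_le fun x hx y hy => ?_
    rw [edist_dist]
    refine ENNReal.ofReal_le_ofReal ?_
    have h1 := dist_triangle_right x y (i : X)
    rw [Metric.mem_ball] at hx hy
    linarith
  have hmeas : μH[((n - 1 : ℕ) : ℝ)] (Set.univ : Set X) ≤ ENNReal.ofReal (C * 2 ^ (n - 1)) := by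
    refine (Measure.hausdorffMeasure_le_liminf_sum ((n - 1 : ℕ) : ℝ) (Set.univ : Set X)
      (l := (atTop : Filter ℕ)) (ι := fun k => S k) (fun k => ENNReal.ofReal (2 * δ k)) hlim
      (fun k i => Metric.ball (i : X) (δ k)) (Eventually.of_forall fun k i => hdiam k i)
      (Eventually.of_forall fun k x _ => ?_)).trans ?_
    · obtain ⟨y, hy, hd⟩ := hS2 k x
      exact mem_iUnion.2 ⟨⟨y, hy⟩, hd⟩
    · have h1 : ∀ k, ∑ i : S k, Metric.ediam (Metric.ball (i : X) (δ k)) ^ ((n - 1 : ℕ) : ℝ) ≤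
          ENNReal.ofReal (C * 2 ^ (n - 1)) := by
        intro k
        have h2 : ∀ i ∈ (Finset.univ : Finset (S k)), Metric.ediam (Metric.ball (i : X) (δ k)) ^ ((n - 1 : ℕ) : ℝ) ≤
            ENNReal.ofReal ((2 * δ k) ^ (n - 1)) := by
          intro i _
          rw [ENNReal.rpow_natCast, ENNReal.ofReal_pow (by linarith [hδ0 k])]
          exact pow_le_pow_left₀ zero_le (hdiam k i) _
        refine (Finset.sum_le_card_nsmul _ _ _ h2).trans ?_
        rw [nsmul_eq_mul, Finset.card_univ, Fintype.card_coe]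
        have h3 : (((S k).card : ℕ) : ℝ≥0∞) = ENNReal.ofReal ((S k).card : ℝ) := by
          rw [ENNReal.ofReal_natCast]
        rw [h3, ← ENNReal.ofReal_mul (Nat.cast_nonneg _)]
        refine ENNReal.ofReal_le_ofReal ?_
        have h4 : (0 : ℝ) ≤ (2 * δ k) ^ (n - 1) := pow_nonneg (by linarith [hδ0 k]) _
        refine (mul_le_mul_of_nonneg_right (hcard k) h4).trans (le_of_eq ?_)
        rw [mul_assoc, ← mul_pow]
        congr 2
        have := (hδ0 k).ne'
        field_simp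
      have h2 : liminf (fun k => ∑ i : S k, Metric.ediam (Metric.ball (i : X) (δ k)) ^ ((n - 1 : ℕ) : ℝ)) atTop ≤
          liminf (fun _ : ℕ => ENNReal.ofReal (C * 2 ^ (n - 1))) atTop := liminf_le_liminf (Eventually.of_forall h1)
      rw [liminf_const] at h2
      exact h2
  have hne : μH[(((n - 1 : ℕ) : ℝ≥0) : ℝ)] (Set.univ : Set X) ≠ ⊤ := by
    rw [NNReal.coe_natCast]
    exact (hmeas.trans_lt ENNReal.ofReal_lt_top).ne
  have h5 := dimH_le_of_hausdorffMeasure_ne_top hne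
  rw [hdim, ENNReal.coe_natCast] at h5
  have h6 : n ≤ n - 1 := by exact_mod_cast h5
  omega

end Pool.Agent.Helper32.CH
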