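import Pool.Agent.Helper32.CH.Defs

/-!
Block CH-6 (MP_7116bc_gt): surjective `L`-bi-Lipschitz maps pass to Gromov-Hausdorff limits, and
two facts on the Gromov-Hausdorff distance.

`exists_approx`: from `GromovHausdorff.ghDist_eq_hausdorffDist` (isometric embeddings `Φ`, `Ψ` of
`X`, `Z` into `ℓ^∞(ℕ)` with `ghDist X Z = hausdorffDist (range Φ) (range Ψ)`): for each `x`
choose `z` with `dist (Φ x) (Ψ z) < ε` and conversely
(`Metric.exists_dist_lt_of_hausdorffDist_lt`, the Hausdorff edistance is finite for nonempty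
bounded sets).

`biLip_limit`: for each `k : ℕ` take `X' k`, `Y' k`, `f k` with `ε = 1/(k+1)`, and by
`exists_approx` maps `i k : X → X' k`, `j k : Y' k → Y`, also `i' k : X' k → X` and
`j' k : Y → Y' k`, with errors at most `2ε`. Put `g k = j k ∘ f k ∘ i k : X → Y`; let `ω` be the
hyperfilter on `ℕ` (`Filter.hyperfilter ℕ`). `Y` is compact, so `g x = lim_ω g k x` exists
(`Ultrafilter.le_nhds_lim` or `isCompact_univ.ultrafilter_le_nhds` for the image ultrafilter).
The inequalities `dist a b - 2ε ≤ dist (i k a) (i k b) ≤ dist a b + 2ε`, the same for `j k`, and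
the bounds for `f k` pass to the limit. Surjectivity: for `y ∈ Y` choose `x k ∈ X` such that
`f k (i k (x k))` is near `j' k y` (surjectivity of `f k` and `i' k`: choose `x' ∈ X' k` with
`f k x' = j' k y`, `x k = i' k x'`, `dist (i k (x k)) x' ≤ 2ε`), `x = lim_ω x k`; then
`dist (g k x) (g k (x k)) ≤ L dist x (x k) + small`, and `g k (x k)` tends to `y`, so `g x = y`.
-/

set_option autoImplicit false

namespace Pool.Agent.Helper32.CH

open Set Filter Topology MeasureTheory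
open scoped ENNReal

/-- Maps between spaces at small Gromov-Hausdorff distance. -/
theorem exists_approx {X Z : Type} [MetricSpace X] [CompactSpace X] [Nonempty X]
    [MetricSpace Z] [CompactSpace Z] [Nonempty Z] {ε : ℝ}
    (h : GromovHausdorff.ghDist X Z < ε) :
    ∃ (i : X → Z) (i' : Z → X),
      (∀ a b, |dist (i a) (i b) - dist a b| ≤ 2 * ε) ∧
      (∀ a b, |dist (i' a) (i' b) - dist a b| ≤ 2 * ε) ∧
      (∀ a, dist (i' (i a)) a ≤ 2 * ε) ∧ (∀ b, dist (i (i' b)) b ≤ 2 * ε) := by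
  obtain ⟨Φ, Ψ, hΦ, hΨ, hd⟩ := GromovHausdorff.ghDist_eq_hausdorffDist X Z
  rw [hd] at h
  have hfin : Metric.hausdorffEDist (range Φ) (range Ψ) ≠ ⊤ :=
    Metric.hausdorffEDist_ne_top_of_nonempty_of_bounded (range_nonempty _) (range_nonempty _)
      (isCompact_range hΦ.continuous).isBounded (isCompact_range hΨ.continuous).isBounded
  have h1 : ∀ a : X, ∃ z : Z, dist (Φ a) (Ψ z) < ε := by
    intro a
    obtain ⟨_, ⟨z, rfl⟩, hz⟩ := Metric.exists_dist_lt_of_hausdorffDist_lt (mem_range_self a) h hfin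
    exact ⟨z, hz⟩
  have h2 : ∀ z : Z, ∃ a : X, dist (Φ a) (Ψ z) < ε := by
    intro z
    obtain ⟨_, ⟨a, rfl⟩, ha⟩ := Metric.exists_dist_lt_of_hausdorffDist_lt' (mem_range_self z) h hfin
    exact ⟨a, ha⟩
  choose i hi using h1
  choose i' hi' using h2
  refine ⟨i, i', fun a b => ?_, fun a b => ?_, fun a => ?_, fun b => ?_⟩
  · rw [← hΦ.dist_eq a b, ← hΨ.dist_eq (i a) (i b), abs_le]
    have e1 := hi a
    have e2 := hi b
    have t1 := dist_triangle4 (Ψ (i a)) (Φ a) (Φ b) (Ψ (i b))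
    have t2 := dist_triangle4 (Φ a) (Ψ (i a)) (Ψ (i b)) (Φ b)
    rw [dist_comm (Ψ (i a)) (Φ a)] at t1
    rw [dist_comm (Ψ (i b)) (Φ b)] at t2
    constructor <;> linarith
  · rw [← hΨ.dist_eq a b, ← hΦ.dist_eq (i' a) (i' b), abs_le]
    have e1 := hi' a
    have e2 := hi' b
    have t1 := dist_triangle4 (Φ (i' a)) (Ψ a) (Ψ b) (Φ (i' b))
    have t2 := dist_triangle4 (Ψ a) (Φ (i' a)) (Φ (i' b)) (Ψ b)
    rw [dist_comm (Ψ b) (Φ (i' b))] at t1
    rw [dist_comm (Ψ a) (Φ (i' a))] at t2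
    constructor <;> linarith
  · rw [← hΦ.dist_eq]
    have e1 := hi a
    have e2 := hi' (i a)
    have t1 := dist_triangle_right (Φ (i' (i a))) (Φ a) (Ψ (i a))
    linarith
  · rw [← hΨ.dist_eq]
    have e1 := hi' b
    have e2 := hi (i' b)
    have t1 := dist_triangle_left (Ψ (i (i' b))) (Ψ b) (Φ (i' b))
    linarith

theorem ghDist_triangle {X Y Z : Type} [MetricSpace X] [CompactSpace X] [Nonempty X]
    [MetricSpace Y] [CompactSpace Y] [Nonempty Y] [MetricSpace Z] [CompactSpace Z] [Nonempty Z] :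
    GromovHausdorff.ghDist X Z ≤ GromovHausdorff.ghDist X Y + GromovHausdorff.ghDist Y Z :=
  dist_triangle (GromovHausdorff.toGHSpace X) (GromovHausdorff.toGHSpace Y) (GromovHausdorff.toGHSpace Z)

/-- One step: an almost bi-Lipschitz map with an almost inverse. -/
private theorem step68 {X Y : Type} [MetricSpace X] [CompactSpace X] [Nonempty X]
    [MetricSpace Y] [CompactSpace Y] [Nonempty Y] {L : ℝ} (hL : 1 ≤ L) {ε : ℝ}
    (h : ∃ (X' Y' : Type) (_ : MetricSpace X') (_ : CompactSpace X')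
      (_ : Nonempty X') (_ : MetricSpace Y') (_ : CompactSpace Y') (_ : Nonempty Y'),
      GromovHausdorff.ghDist X X' < ε ∧ GromovHausdorff.ghDist Y Y' < ε ∧
      ∃ f : X' → Y', IsBiLip L f) :
    ∃ (g : X → Y) (s : Y → X), (∀ a b, dist a b ≤ L * dist (g a) (g b) + (2 * L + 4) * ε) ∧
      (∀ a b, dist (g a) (g b) ≤ L * dist a b + (2 * L + 4) * ε) ∧ ∀ y, dist (g (s y)) y ≤ (2 * L + 4) * ε := by
  obtain ⟨X', Y', _, _, _, _, _, _, hX, hY, f, hf, hfL⟩ := h
  obtain ⟨i, i', hi1, -, hi3, hi4⟩ := exists_approx hX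
  obtain ⟨j, j', -, hj2, hj3, -⟩ := exists_approx hY
  have hε : 0 ≤ ε := by
    obtain ⟨x⟩ := (inferInstance : Nonempty X)
    have := hi3 x
    have := dist_nonneg (x := i' (i x)) (y := x)
    linarith
  have hs : ∀ y : Y, ∃ x' : X', f x' = j y := fun y => hf _
  choose r hr using hs
  refine ⟨fun x => j' (f (i x)), fun y => i' (r y), fun a b => ?_, fun a b => ?_, fun y => ?_⟩
  · have h1 := (abs_le.1 (hi1 a b)).1
    have h2 := (hfL (i a) (i b)).1
    have h3 := (abs_le.1 (hj2 (f (i a)) (f (i b)))).1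
    have h4 : L * dist (f (i a)) (f (i b)) ≤ L * (dist (j' (f (i a))) (j' (f (i b))) + 2 * ε) :=
      mul_le_mul_of_nonneg_left (by linarith) (by linarith)
    nlinarith
  · have h1 := (abs_le.1 (hi1 a b)).2
    have h2 := (hfL (i a) (i b)).2
    have h3 := (abs_le.1 (hj2 (f (i a)) (f (i b)))).2
    have h4 : L * dist (i a) (i b) ≤ L * (dist a b + 2 * ε) :=
      mul_le_mul_of_nonneg_left (by linarith) (by linarith)
    nlinarith
  · have h1 := hi4 (r y)
    have h2 := (hfL (i (i' (r y))) (r y)).2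
    have h3 := (abs_le.1 (hj2 (f (i (i' (r y)))) (f (r y)))).2
    have h4 : L * dist (i (i' (r y))) (r y) ≤ L * (2 * ε) :=
      mul_le_mul_of_nonneg_left h1 (by linarith)
    have h5 := hj3 y
    have h6 := dist_triangle (j' (f (i (i' (r y))))) (j' (f (r y))) y
    rw [hr y] at h6 h3 h2
    nlinarith

theorem biLip_limit {X Y : Type} [MetricSpace X] [CompactSpace X] [Nonempty X]
    [MetricSpace Y] [CompactSpace Y] [Nonempty Y] {L : ℝ} (hL : 1 ≤ L)
    (h : ∀ ε : ℝ, 0 < ε → ∃ (X' Y' : Type) (_ : MetricSpace X') (_ : CompactSpace X')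
      (_ : Nonempty X') (_ : MetricSpace Y') (_ : CompactSpace Y') (_ : Nonempty Y'),
      GromovHausdorff.ghDist X X' < ε ∧ GromovHausdorff.ghDist Y Y' < ε ∧
      ∃ f : X' → Y', IsBiLip L f) :
    ∃ f : X → Y, IsBiLip L f := by
  have h1 : ∀ k : ℕ, ∃ (g : X → Y) (s : Y → X), (∀ a b, dist a b ≤ L * dist (g a) (g b) + (2 * L + 4) * (1 / ((k : ℝ) + 1))) ∧
      (∀ a b, dist (g a) (g b) ≤ L * dist a b + (2 * L + 4) * (1 / ((k : ℝ) + 1))) ∧
      ∀ y, dist (g (s y)) y ≤ (2 * L + 4) * (1 / ((k : ℝ) + 1)) :=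
    fun k => step68 hL (h (1 / ((k : ℝ) + 1)) (by positivity))
  choose g s hg1 hg2 hs using h1
  have hω : ((hyperfilter ℕ : Ultrafilter ℕ) : Filter ℕ) ≤ atTop := by
    rw [← Nat.cofinite_eq_atTop]
    exact hyperfilter_le_cofinite
  have hδ : Tendsto (fun k : ℕ => (2 * L + 4) * (1 / ((k : ℝ) + 1))) (hyperfilter ℕ : Filter ℕ) (𝓝 0) := by
    have h2 := (tendsto_one_div_add_atTop_nhds_zero_nat (𝕜 := ℝ)).const_mul (2 * L + 4)
    rw [mul_zero] at h2
    exact h2.mono_left hω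
  have lim : ∀ {Z : Type} [MetricSpace Z] [CompactSpace Z] (u : ℕ → Z), ∃ z, Tendsto u (hyperfilter ℕ : Filter ℕ) (𝓝 z) := by
    intro Z _ _ u
    obtain ⟨z, -, hz⟩ := isCompact_univ.ultrafilter_le_nhds ((hyperfilter ℕ).map u) (by simp)
    exact ⟨z, hz⟩
  have h2 : ∀ x : X, ∃ y, Tendsto (fun k => g k x) (hyperfilter ℕ : Filter ℕ) (𝓝 y) := fun x => lim _
  choose G hG using h2
  refine ⟨G, fun y => ?_, fun a b => ⟨?_, ?_⟩⟩
  · obtain ⟨x, hx⟩ := lim fun k => s k y
    refine ⟨x, ?_⟩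
    have h3 : Tendsto (fun k => dist (g k x) y) (hyperfilter ℕ : Filter ℕ) (𝓝 (dist (G x) y)) := (hG x).dist tendsto_const_nhds
    have h4 : Tendsto (fun k => L * dist x (s k y) + (2 * L + 4) * (1 / ((k : ℝ) + 1)) + (2 * L + 4) * (1 / ((k : ℝ) + 1)))
        (hyperfilter ℕ : Filter ℕ) (𝓝 (L * dist x x + 0 + 0)) :=
      (((tendsto_const_nhds.dist hx).const_mul L).add hδ).add hδ
    rw [dist_self, mul_zero, add_zero, add_zero] at h4
    have h5 : dist (G x) y ≤ 0 := by
      refine le_of_tendsto_of_tendsto' h3 h4 fun k => ?_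
      have h6 := dist_triangle (g k x) (g k (s k y)) y
      have h7 := hg2 k x (s k y)
      have h8 := hs k y
      linarith
    exact dist_le_zero.1 h5
  · have h3 : Tendsto (fun k => L * dist (g k a) (g k b) + (2 * L + 4) * (1 / ((k : ℝ) + 1))) (hyperfilter ℕ : Filter ℕ)
        (𝓝 (L * dist (G a) (G b) + 0)) := (((hG a).dist (hG b)).const_mul L).add hδ
    rw [add_zero] at h3
    exact ge_of_tendsto' h3 fun k => hg1 k a b
  · have h3 : Tendsto (fun k => dist (g k a) (g k b)) (hyperfilter ℕ : Filter ℕ) (𝓝 (dist (G a) (G b))) := (hG a).dist (hG b)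
    have h4 : Tendsto (fun k : ℕ => L * dist a b + (2 * L + 4) * (1 / ((k : ℝ) + 1))) (hyperfilter ℕ : Filter ℕ) (𝓝 (L * dist a b + 0)) :=
      tendsto_const_nhds.add hδ
    rw [add_zero] at h4
    exact le_of_tendsto_of_tendsto' h3 h4 fun k => hg2 k a b

end Pool.Agent.Helper32.CH
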