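import Pool.Agent.Helper32.CH.Defs

/-!
Block CH-4 (MP_7116bc_gt): packing bound after removing two orthogonal directions.

Let `P x = x - ⟨u₁,x⟩ u₁ - ⟨u₂,x⟩ u₂`; it is linear with values in
`W = {x | ⟨u₁,x⟩ = 0 and ⟨u₂,x⟩ = 0}`, a submodule of finrank `n - 1` when `finrank E = n + 1`
(orthogonal complement of the span of the orthonormal pair). The points `P x`, `x ∈ s`, are
pairwise at distance at least `δ` and within `D` of each other (`‖P v‖ ≤ ‖v‖`), so the open balls of radius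
`δ/2` of `W` around them are disjoint and lie in the ball of radius `D + δ/2` around one of them. Compare
the volumes (`MeasureTheory.Measure.addHaar_ball` in `W`, any Haar measure):
`card s * (δ/2)^(n-1) ≤ (D + δ/2)^(n-1)`.
(For `n = 1` the space `W` is trivial and `card s ≤ 1`.)
-/

set_option autoImplicit false

namespace Pool.Agent.Helper32.CH

open Set Filter Topology MeasureTheory
open scoped ENNReal

/-- the projection along two orthonormal directions -/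
private noncomputable def proj36 {E : Type*} [NormedAddCommGroup E] [InnerProductSpace ℝ E]
    (u₁ u₂ : E) : E →ₗ[ℝ] E :=
  LinearMap.id - (LinearMap.toSpanSingleton ℝ E u₁).comp (innerₛₗ ℝ u₁)
    - (LinearMap.toSpanSingleton ℝ E u₂).comp (innerₛₗ ℝ u₂)

private theorem proj36_apply {E : Type*} [NormedAddCommGroup E] [InnerProductSpace ℝ E]
    (u₁ u₂ x : E) : proj36 u₁ u₂ x = x - inner ℝ u₁ x • u₁ - inner ℝ u₂ x • u₂ := by
  simp [proj36]

private theorem proj36_mem {E : Type*} [NormedAddCommGroup E] [InnerProductSpace ℝ E]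
    {u₁ u₂ : E} (h1 : ‖u₁‖ = 1) (h2 : ‖u₂‖ = 1) (h12 : inner ℝ u₁ u₂ = 0) (x : E) :
    proj36 u₁ u₂ x ∈ (Submodule.span ℝ {u₁, u₂})ᗮ := by
  rw [Submodule.mem_orthogonal]
  intro v hv
  rw [Submodule.mem_span_pair] at hv
  obtain ⟨a, b, rfl⟩ := hv
  have e1 : inner ℝ u₁ u₁ = (1 : ℝ) := by rw [real_inner_self_eq_norm_sq, h1]; norm_num
  have e2 : inner ℝ u₂ u₂ = (1 : ℝ) := by rw [real_inner_self_eq_norm_sq, h2]; norm_num
  have e3 : inner ℝ u₂ u₁ = (0 : ℝ) := by rw [real_inner_comm]; exact h12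
  rw [proj36_apply]
  simp only [inner_add_left, inner_sub_right, inner_smul_left, inner_smul_right, e1, e2, e3, h12]
  simp
  ring

private theorem proj36_norm {E : Type*} [NormedAddCommGroup E] [InnerProductSpace ℝ E]
    {u₁ u₂ : E} (h1 : ‖u₁‖ = 1) (h2 : ‖u₂‖ = 1) (h12 : inner ℝ u₁ u₂ = 0) (x : E) :
    ‖proj36 u₁ u₂ x‖ ≤ ‖x‖ := by
  have e1 : inner ℝ u₁ u₁ = (1 : ℝ) := by rw [real_inner_self_eq_norm_sq, h1]; norm_num
  have e2 : inner ℝ u₂ u₂ = (1 : ℝ) := by rw [real_inner_self_eq_norm_sq, h2]; norm_num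
  have e3 : inner ℝ u₂ u₁ = (0 : ℝ) := by rw [real_inner_comm]; exact h12
  have h : ‖proj36 u₁ u₂ x‖ ^ 2 = ‖x‖ ^ 2 - (inner ℝ u₁ x) ^ 2 - (inner ℝ u₂ x) ^ 2 := by
    rw [← real_inner_self_eq_norm_sq, ← real_inner_self_eq_norm_sq, proj36_apply]
    simp only [inner_sub_left, inner_sub_right, inner_smul_left, inner_smul_right, e1, e2, e3,
      h12, real_inner_comm x u₁, real_inner_comm x u₂]
    simp
    ring
  have h3 : ‖proj36 u₁ u₂ x‖ ^ 2 ≤ ‖x‖ ^ 2 := by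
    rw [h]
    nlinarith [sq_nonneg (inner ℝ u₁ x : ℝ), sq_nonneg (inner ℝ u₂ x : ℝ)]
  exact (sq_le_sq₀ (norm_nonneg _) (norm_nonneg _)).1 h3

private theorem finrank36 {E : Type*} [NormedAddCommGroup E] [InnerProductSpace ℝ E]
    [FiniteDimensional ℝ E] (n : ℕ) (hdim : Module.finrank ℝ E = n + 1)
    {u₁ u₂ : E} (h1 : ‖u₁‖ = 1) (h2 : ‖u₂‖ = 1) (h12 : inner ℝ u₁ u₂ = 0) :
    Module.finrank ℝ (Submodule.span ℝ {u₁, u₂})ᗮ = n - 1 := by
  have hort : Orthonormal ℝ ![u₁, u₂] := by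
    refine ⟨fun i => ?_, fun i j hij => ?_⟩
    · fin_cases i <;> simp [h1, h2]
    · fin_cases i <;> fin_cases j
      · exact absurd rfl hij
      · simpa using h12
      · simpa [real_inner_comm] using h12
      · exact absurd rfl hij
  have hr : Set.range ![u₁, u₂] = {u₁, u₂} := by
    simp [Matrix.range_cons, Set.pair_comm]
  have h3 : Module.finrank ℝ (Submodule.span ℝ {u₁, u₂}) = 2 := by
    rw [← hr, finrank_span_eq_card hort.linearIndependent]
    simp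
  have h4 := Submodule.finrank_add_finrank_orthogonal (Submodule.span ℝ {u₁, u₂})
  rw [h3, hdim] at h4
  omega

/-- volume packing in a finite dimensional space -/
private theorem pack36 {W : Type*} [NormedAddCommGroup W] [InnerProductSpace ℝ W]
    [FiniteDimensional ℝ W] {ι : Type*} (s : Finset ι) (f : ι → W) {D δ : ℝ} (hD : 0 ≤ D)
    (hδ : 0 < δ) (hsD : ∀ x ∈ s, ∀ y ∈ s, ‖f x - f y‖ ≤ D)
    (hsep : ∀ x ∈ s, ∀ y ∈ s, x ≠ y → δ ≤ ‖f x - f y‖) :
    (s.card : ℝ) ≤ (2 * D / δ + 1) ^ (Module.finrank ℝ W) := by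
  rcases s.eq_empty_or_nonempty with rfl | ⟨x0, hx0⟩
  · simp only [Finset.card_empty, Nat.cast_zero]
    positivity
  letI : MeasurableSpace W := borel W
  haveI : BorelSpace W := ⟨rfl⟩
  set μ : Measure W := MeasureTheory.Measure.addHaar with hμ
  have hdis : (s : Set ι).PairwiseDisjoint (fun x => Metric.ball (f x) (δ / 2)) := by
    intro x hx y hy hxy
    refine Metric.ball_disjoint_ball ?_
    rw [dist_eq_norm]
    have := hsep x hx y hy hxy
    linarith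
  have hsub : (⋃ x ∈ s, Metric.ball (f x) (δ / 2)) ⊆ Metric.ball (f x0) (D + δ / 2) := by
    intro z hz
    simp only [Set.mem_iUnion, Metric.mem_ball, exists_prop] at hz ⊢
    obtain ⟨x, hx, hz⟩ := hz
    have h1 := dist_triangle z (f x) (f x0)
    have h2 := hsD x hx x0 hx0
    rw [← dist_eq_norm] at h2
    linarith
  have h1 : μ (⋃ x ∈ s, Metric.ball (f x) (δ / 2))
      = ∑ x ∈ s, μ (Metric.ball (f x) (δ / 2)) :=
    measure_biUnion_finset hdis fun x _ => Metric.isOpen_ball.measurableSet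
  have h2 := measure_mono (μ := μ) hsub
  rw [h1] at h2
  have hδ2 : 0 < δ / 2 := by linarith
  have hDδ : 0 < D + δ / 2 := by linarith
  rw [Finset.sum_congr rfl fun x _ => Measure.addHaar_ball_of_pos μ (f x) hδ2,
    Measure.addHaar_ball_of_pos μ (f x0) hDδ, Finset.sum_const, nsmul_eq_mul, ← mul_assoc] at h2
  have hb0 : μ (Metric.ball 0 1) ≠ 0 := (Metric.measure_ball_pos μ 0 one_pos).ne'
  have hbt : μ (Metric.ball 0 1) ≠ ⊤ := measure_ball_lt_top.ne
  rw [ENNReal.mul_le_mul_iff_left hb0 hbt] at h2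
  have h3 : (s.card : ℝ) * (δ / 2) ^ Module.finrank ℝ W ≤ (D + δ / 2) ^ Module.finrank ℝ W := by
    have h4 : ((s.card : ℕ) : ℝ≥0∞) = ENNReal.ofReal (s.card : ℝ) := by
      rw [ENNReal.ofReal_natCast]
    rw [h4, ← ENNReal.ofReal_mul (by positivity)] at h2
    exact (ENNReal.ofReal_le_ofReal_iff (by positivity)).1 h2
  have h5 : (2 * D / δ + 1 : ℝ) = (D + δ / 2) / (δ / 2) := by
    field_simp
    try ring
  rw [h5, div_pow, le_div_iff₀ (by positivity)]
  exact h3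

theorem card_le_of_separated {E : Type*} [NormedAddCommGroup E] [InnerProductSpace ℝ E]
    [FiniteDimensional ℝ E] (n : ℕ) (hn : 1 ≤ n) (hdim : Module.finrank ℝ E = n + 1)
    {u₁ u₂ : E} (h1 : ‖u₁‖ = 1) (h2 : ‖u₂‖ = 1) (h12 : inner ℝ u₁ u₂ = 0)
    {D δ : ℝ} (hD : 0 ≤ D) (hδ : 0 < δ) (s : Finset E)
    (hsD : ∀ x ∈ s, ∀ y ∈ s, ‖x - y‖ ≤ D)
    (hsep : ∀ x ∈ s, ∀ y ∈ s, x ≠ y →
      δ ≤ ‖(x - y) - inner ℝ u₁ (x - y) • u₁ - inner ℝ u₂ (x - y) • u₂‖) :
    (s.card : ℝ) ≤ (2 * D / δ + 1) ^ (n - 1) := by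
  have hmem := proj36_mem h1 h2 h12
  have hfr := finrank36 n hdim h1 h2 h12
  have key := pack36 (W := ((Submodule.span ℝ {u₁, u₂})ᗮ : Submodule ℝ E)) s
    (fun x => ⟨proj36 u₁ u₂ x, hmem x⟩) hD hδ ?_ ?_
  · rw [hfr] at key
    exact key
  · intro x hx y hy
    have : ‖(⟨proj36 u₁ u₂ x, hmem x⟩ - ⟨proj36 u₁ u₂ y, hmem y⟩ :
        ((Submodule.span ℝ {u₁, u₂})ᗮ : Submodule ℝ E))‖ = ‖proj36 u₁ u₂ (x - y)‖ := by
      rw [map_sub]; rfl
    rw [this]
    exact (proj36_norm h1 h2 h12 _).trans (hsD x hx y hy)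
  · intro x hx y hy hxy
    have : ‖(⟨proj36 u₁ u₂ x, hmem x⟩ - ⟨proj36 u₁ u₂ y, hmem y⟩ :
        ((Submodule.span ℝ {u₁, u₂})ᗮ : Submodule ℝ E))‖ = ‖proj36 u₁ u₂ (x - y)‖ := by
      rw [map_sub]; rfl
    rw [this, proj36_apply]
    exact hsep x hx y hy hxy

end Pool.Agent.Helper32.CH
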