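import Pool.Agent.Helper32.CH.Model
import Pool.Agent.Helper32.CH.Pack
import Pool.Agent.Helper32.CH.DimSep
import Pool.Agent.Helper32.CH.Limit

/-!
MP_7116bc_gt, convex hypersurfaces: no collapse near a space of Hausdorff dimension `n`, and the
stability theorem.
-/

set_option autoImplicit false

namespace Pool.Agent.Helper32.CH

open Set Filter Topology
open scoped ENNReal

theorem exists_far_frontier {E : Type*} [NormedAddCommGroup E] [NormedSpace ℝ E] [Nontrivial E]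
    {K : Set E} (hc : IsCompact K) {x : E} (hx : x ∈ K) (y : E) :
    ∃ x₀ ∈ frontier K, ‖x - y‖ ≤ ‖x₀ - y‖ := by
  obtain ⟨x₀, hx₀, hmax⟩ := hc.exists_isMaxOn ⟨x, hx⟩
    (f := fun w => ‖w - y‖) (by fun_prop : Continuous fun w => ‖w - y‖).continuousOn
  refine ⟨x₀, ?_, hmax hx⟩
  rw [frontier, hc.isClosed.closure_eq]
  refine ⟨hx₀, fun hint => ?_⟩
  -- a direction in which the distance from `y` increases
  obtain ⟨v, hv0, hv⟩ : ∃ v : E, v ≠ 0 ∧ ∀ t : ℝ, 0 < t → ‖x₀ - y‖ < ‖x₀ + t • v - y‖ := by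
    by_cases hxy : x₀ = y
    · obtain ⟨v, hv⟩ := exists_ne (0 : E)
      refine ⟨v, hv, fun t ht => ?_⟩
      rw [hxy, sub_self, norm_zero, add_sub_cancel_left, norm_smul]
      exact mul_pos (norm_pos_iff.2 ht.ne') (norm_pos_iff.2 hv)
    · refine ⟨x₀ - y, sub_ne_zero.2 hxy, fun t ht => ?_⟩
      have h1 : x₀ + t • (x₀ - y) - y = (1 + t) • (x₀ - y) := by
        rw [add_smul, one_smul]; abel
      rw [h1, norm_smul, Real.norm_eq_abs, abs_of_pos (by linarith)]
      have h2 : 0 < ‖x₀ - y‖ := norm_pos_iff.2 (sub_ne_zero.2 hxy)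
      nlinarith
  have h1 : Tendsto (fun t : ℝ => x₀ + t • v) (𝓝[>] 0) (𝓝 x₀) := by
    have h2 : Tendsto (fun t : ℝ => x₀ + t • v) (𝓝 0) (𝓝 (x₀ + (0 : ℝ) • v)) :=
      Continuous.tendsto (by fun_prop) 0
    rw [zero_smul, add_zero] at h2
    exact h2.mono_left nhdsWithin_le_nhds
  have h2 : ∀ᶠ t : ℝ in 𝓝[>] 0, x₀ + t • v ∈ K := by
    filter_upwards [h1.eventually (isOpen_interior.mem_nhds hint)] with t ht
    exact interior_subset ht
  obtain ⟨t, ht, ht0⟩ := (h2.and self_mem_nhdsWithin).exists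
  have h3 := hmax ht
  have h4 := hv t ht0
  simp only [mem_ofPred_eq] at h3
  exact absurd h3 (not_le.2 h4)

/-- Near a compact space of Hausdorff dimension `n` the convex hypersurfaces of dimension `n` do
not collapse. -/
theorem uniform_data (n : ℕ) (hn : 1 ≤ n) (X : Type) [MetricSpace X] [CompactSpace X]
    [Nonempty X] (hdim : dimH (Set.univ : Set X) = (n : ENNReal)) :
    ∃ ε₀ : ℝ, 0 < ε₀ ∧ ∃ r : ℝ, 0 < r ∧ ∃ D : ℝ,
      ∀ (Y : Type) [MetricSpace Y] [CompactSpace Y] [Nonempty Y],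
        GromovHausdorff.ghDist X Y < ε₀ →
        ∀ (K : Set (EuclideanSpace ℝ (Fin (n + 1)))) (e : Y → EuclideanSpace ℝ (Fin (n + 1))),
          Convex ℝ K → IsCompact K → (interior K).Nonempty → Set.range e = frontier K →
          (∀ a b, edist a b = innerEDist (frontier K) (e a) (e b)) →
          HasDisc K n r ∧ ∀ x ∈ K, ∀ y ∈ K, ‖x - y‖ ≤ D := by
  set D : ℝ := Metric.diam (Set.univ : Set X) + 2 with hDdef
  have hD0 : 0 < D := by have := Metric.diam_nonneg (s := (Set.univ : Set X)); linarith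
  obtain ⟨δ, hδ0, hδ1, s, hsep, hcard⟩ :=
    exists_separated n hn hdim ((8 * D + 1) ^ (n - 1)) 1 one_pos
  have hd0 : 0 < δ / 64 := by positivity
  obtain ⟨r, hr, hflat⟩ := disc_or_flat (E := EuclideanSpace ℝ (Fin (n + 1))) n D (δ / 64) hD0 hd0
  refine ⟨min 1 (δ / 4), by positivity, r, hr, D, ?_⟩
  intro Y _ _ _ hgh K e hK hc hi he hd
  obtain ⟨i, i', hi1, hi2, _, _⟩ := exists_approx hgh
  have hε1 : min 1 (δ / 4) ≤ 1 := min_le_left _ _
  have hε2 : min 1 (δ / 4) ≤ δ / 4 := min_le_right _ _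
  have heF : ∀ y, e y ∈ frontier K := fun y => by rw [← he]; exact mem_range_self y
  have hreal : ∀ a b : Y, ‖e a - e b‖ ≤ dist a b := by
    intro a b
    have h1 := edist_le_innerEDist (frontier K) (e a) (e b)
    rw [← hd, edist_dist, edist_dist] at h1
    have h2 := (ENNReal.ofReal_le_ofReal_iff dist_nonneg).1 h1
    rwa [dist_eq_norm] at h2
  have hYD : ∀ a b : Y, dist a b ≤ D := by
    intro a b
    have h1 := (abs_le.1 (hi2 a b)).1
    have h2 : dist (i' a) (i' b) ≤ Metric.diam (Set.univ : Set X) :=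
      Metric.dist_le_diam_of_mem isCompact_univ.isBounded (mem_univ _) (mem_univ _)
    linarith
  have hFD : ∀ p ∈ frontier K, ∀ q ∈ frontier K, ‖p - q‖ ≤ D := by
    intro p hp q hq
    rw [← he] at hp hq
    obtain ⟨a, rfl⟩ := hp
    obtain ⟨b, rfl⟩ := hq
    exact (hreal a b).trans (hYD a b)
  have hKD : ∀ x ∈ K, ∀ y ∈ K, ‖x - y‖ ≤ D := by
    intro x hx y hy
    obtain ⟨x₀, hx₀, h1⟩ := exists_far_frontier hc hx y
    obtain ⟨y₀, hy₀, h2⟩ := exists_far_frontier hc hy x₀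
    rw [norm_sub_rev x₀ y] at h1
    exact h1.trans (h2.trans (hFD y₀ hy₀ x₀ hx₀))
  refine ⟨?_, hKD⟩
  rcases hflat K hK (hi.mono interior_subset) hKD with h1 | ⟨c, V, hV, hVK⟩
  · exact h1
  exfalso
  have hfin : Module.finrank ℝ (EuclideanSpace ℝ (Fin (n + 1))) = n + 1 := by simp
  obtain ⟨u₁, u₂, hu1, hu2, hu12, huV⟩ := exists_orthonormal_pair V (by rw [hfin]; omega)
  have hs : ∀ x ∈ K, |(inner ℝ u₁ (x - c) : ℝ)| ≤ δ / 64 ∧
      |(inner ℝ u₂ (x - c) : ℝ)| ≤ δ / 64 := by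
    intro x hx
    obtain ⟨v, hv, hxv⟩ := hVK x hx
    obtain ⟨h1, h2⟩ := huV v hv
    constructor
    · have h3 : (inner ℝ u₁ (x - c) : ℝ) = inner ℝ u₁ (x - c - v) := by
        rw [inner_sub_right (x := u₁) (y := x - c) (z := v), h1, sub_zero]
      rw [h3]
      have h4 := abs_real_inner_le_norm u₁ (x - c - v)
      rw [hu1, one_mul] at h4
      exact h4.trans hxv
    · have h3 : (inner ℝ u₂ (x - c) : ℝ) = inner ℝ u₂ (x - c - v) := by
        rw [inner_sub_right (x := u₂) (y := x - c) (z := v), h2, sub_zero]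
      rw [h3]
      have h4 := abs_real_inner_le_norm u₂ (x - c - v)
      rw [hu2, one_mul] at h4
      exact h4.trans hxv
  set φ : X → EuclideanSpace ℝ (Fin (n + 1)) := fun x => e (i x) with hφ
  have hφsep : ∀ x ∈ s, ∀ y ∈ s, x ≠ y →
      δ / 4 ≤ ‖(φ x - φ y) - (inner ℝ u₁ (φ x - φ y) : ℝ) • u₁ -
        (inner ℝ u₂ (φ x - φ y) : ℝ) • u₂‖ := by
    intro x hx y hy hxy
    have h1 := hsep x hx y hy hxy
    have h2 := (abs_le.1 (hi1 x y)).1
    have h3 := innerEDist_frontier_le hK hc hi hd0.le hu1 hu2 hu12 hs (heF (i x)) (heF (i y))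
    rw [← hd, edist_dist] at h3
    have h4 := (ENNReal.ofReal_le_ofReal_iff (by positivity)).1 h3
    have h5 : δ / 2 ≤ dist (i x) (i y) := by linarith
    have h6 : φ x = e (i x) := rfl
    have h7 : φ y = e (i y) := rfl
    rw [h6, h7]
    linarith
  have hinj : Set.InjOn φ (s : Set X) := by
    intro x hx y hy hxy
    by_contra hne
    have h1 := hφsep x hx y hy hne
    rw [hxy, sub_self, inner_zero_right, inner_zero_right] at h1
    simp at h1
    linarith
  classical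
  have hcard2 : (s.image φ).card = s.card := Finset.card_image_of_injOn hinj
  have h1 := card_le_of_separated n hn hfin hu1 hu2 hu12 (D := D) (δ := δ / 4) hD0.le
    (by positivity) (s.image φ) (by
      intro x hx y hy
      rw [Finset.mem_image] at hx hy
      obtain ⟨a, _, rfl⟩ := hx
      obtain ⟨b, _, rfl⟩ := hy
      exact hFD _ (heF _) _ (heF _)) (by
      intro x hx y hy hxy
      rw [Finset.mem_image] at hx hy
      obtain ⟨a, ha, rfl⟩ := hx
      obtain ⟨b, hb, rfl⟩ := hy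
      exact hφsep a ha b hb (fun hab => hxy (by rw [hab])))
  rw [hcard2] at h1
  have h2 : (2 * D / (δ / 4) + 1) ^ (n - 1) ≤ (8 * D + 1) ^ (n - 1) * (1 / δ) ^ (n - 1) := by
    rw [← mul_pow]
    apply pow_le_pow_left₀ (by positivity)
    have h3 : 2 * D / (δ / 4) = 8 * D / δ := by field_simp; ring
    rw [h3, mul_one_div, add_div]
    have h4 : 1 ≤ 1 / δ := by rw [le_div_iff₀ hδ0]; linarith
    linarith
  linarith

/-- Perelman's Lipschitz stability for limits of convex hypersurfaces. -/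
theorem stability (n : ℕ) (hn : 1 ≤ n) (X : Type) [MetricSpace X] [CompactSpace X]
    [Nonempty X] (hX : IsLimitOfConvexHypersurfaces n X)
    (hdim : dimH (Set.univ : Set X) = (n : ENNReal)) :
    ∃ ε₀ : ℝ, 0 < ε₀ ∧ ∃ L : ℝ, 1 ≤ L ∧
      ∀ (Y : Type) [MetricSpace Y] [CompactSpace Y] [Nonempty Y],
        IsLimitOfConvexHypersurfaces n Y → GromovHausdorff.ghDist X Y < ε₀ →
        ∃ f : X → Y, IsBiLip L f := by
  obtain ⟨ε₀, hε₀, r, hr, D, hdata⟩ := uniform_data n hn X hdim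
  have hL1 : 1 ≤ CL (r / 2) (D + r) := one_le_CL _ _
  have hLL : 1 ≤ CL (r / 2) (D + r) * CL (r / 2) (D + r) := by nlinarith
  refine ⟨ε₀ / 2, by positivity, CL (r / 2) (D + r) * CL (r / 2) (D + r), hLL, ?_⟩
  intro Y _ _ _ hY hXY
  apply biLip_limit hLL
  intro ε hε
  obtain ⟨X', hX'1, hX'2, hX'3, ⟨K, e, hK, hc, hi, he, hd⟩, hXX'⟩ := hX (min ε ε₀) (by positivity)
  obtain ⟨Y', hY'1, hY'2, hY'3, ⟨K', e', hK', hc', hi', he', hd'⟩, hYY'⟩ :=
    hY (min ε (ε₀ / 2)) (by positivity)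
  have hXY' : GromovHausdorff.ghDist X Y' < ε₀ := by
    have h1 := ghDist_triangle (X := X) (Y := Y) (Z := Y')
    have h2 : min ε (ε₀ / 2) ≤ ε₀ / 2 := min_le_right _ _
    linarith
  obtain ⟨h1, h2⟩ := hdata X' (hXX'.trans_le (min_le_right _ _)) K e hK hc hi he hd
  obtain ⟨h3, h4⟩ := hdata Y' hXY' K' e' hK' hc' hi' he' hd'
  exact ⟨X', Y', hX'1, hX'2, hX'3, hY'1, hY'2, hY'3, hXX'.trans_le (min_le_left _ _),
    hYY'.trans_le (min_le_left _ _),
    biLip_of_discs hK hc hi he hd hK' hc' hi' he' hd' hr h1 h3 h2 h4⟩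

end Pool.Agent.Helper32.CH
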