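import Pool.Agent.Helper32.CH.Defs

/-!
Block CH-3 (MP_7116bc_gt): a bounded convex set either contains a flat disc of dimension `n`
and of a definite radius, or it is near an affine subspace of smaller dimension.

`disc_or_flat`: induction on `n`. `n = 0`: a point is a disc of dimension `0`
(`V = ⊥`). Step: let `r` be the radius for `n`. If `K` is flat for `n` it is flat for `n + 1`
(`finrank V < n < n + 1`). Otherwise `c + v ∈ K` for `v ∈ V`, `‖v‖ ≤ r`, `finrank V = n`. If
every `x ∈ K` is within `d` of `c + V` (i.e. `∃ v ∈ V, ‖x - c - v‖ ≤ d`), `K` is flat for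
`n + 1`. Otherwise there is `x ∈ K` with `x - c = a + w`, `a ∈ V`, `w ⊥ V`, `‖w‖ > d`
(orthogonal projection), `‖a‖ ≤ D`, `‖w‖ ≤ D`. Put `V' = V ⊔ span {w}` (finrank `n + 1`),
`c' = c + (1/2) (a + w)`, `r' = min (r / (4 (1 + D/d))) (d/4)`.
For `v' + s w` with `v' ∈ V` and `‖v' + s w‖ ≤ r'` we have `‖v'‖ ≤ r'`, `|s| ‖w‖ ≤ r'`, so
`|s| ≤ 1/4`; put `τ = 1/2 + s ∈ [1/4, 3/4]` and `v'' = (v' - s a) / (1 - τ)`, then
`‖v''‖ ≤ 4 (r' + r' D / d) ≤ r` and
`c' + v' + s w = (1 - τ) (c + v'') + τ x ∈ K`.

`exists_orthonormal_pair`: `Vᗮ` has finrank at least `2`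
(`Submodule.finrank_add_finrank_orthogonal`); take the first two vectors of
`stdOrthonormalBasis ℝ Vᗮ`.
-/

set_option autoImplicit false

namespace Pool.Agent.Helper32.CH

open Set Filter Topology MeasureTheory
open scoped ENNReal

theorem disc_or_flat {E : Type*} [NormedAddCommGroup E] [InnerProductSpace ℝ E]
    [FiniteDimensional ℝ E] (n : ℕ) (D d : ℝ) (hD : 0 < D) (hd : 0 < d) :
    ∃ r : ℝ, 0 < r ∧ ∀ K : Set E, Convex ℝ K → K.Nonempty →
      (∀ x ∈ K, ∀ y ∈ K, ‖x - y‖ ≤ D) →
      HasDisc K n r ∨ ∃ (c : E) (V : Submodule ℝ E), Module.finrank ℝ V < n ∧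
        ∀ x ∈ K, ∃ v ∈ V, ‖x - c - v‖ ≤ d := by
  induction n with
  | zero =>
    refine ⟨1, one_pos, ?_⟩
    intro K _ hne _
    left
    obtain ⟨c, hc⟩ := hne
    refine ⟨c, ⊥, finrank_bot ℝ E, ?_⟩
    intro v hv _
    rw [Submodule.mem_bot] at hv
    rw [hv, add_zero]
    exact hc
  | succ n ih =>
    obtain ⟨r, hr, hK⟩ := ih
    have hDd : 0 < 1 + D / d := by positivity
    refine ⟨min (r / (4 * (1 + D / d))) (d / 4), by positivity, ?_⟩
    intro K hconv hne hdiam
    rcases hK K hconv hne hdiam with hdisc | ⟨c, V, hV, hflat⟩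
    · obtain ⟨c, V, hVn, hcV⟩ := hdisc
      by_cases hnear : ∀ x ∈ K, ∃ v ∈ V, ‖x - c - v‖ ≤ d
      · right
        exact ⟨c, V, by omega, hnear⟩
      · left
        push Not at hnear
        obtain ⟨x, hxK, hx⟩ := hnear
        have hcK : c ∈ K := by
          have := hcV 0 V.zero_mem (by rw [norm_zero]; exact hr.le)
          rwa [add_zero] at this
        obtain ⟨a, haV, w, hwV, haw⟩ := V.exists_add_mem_mem_orthogonal (x - c)
        have hwd : d < ‖w‖ := by
          have := hx a haV
          rwa [haw, add_sub_cancel_left] at this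
        have horth : ∀ y ∈ V, ∀ s : ℝ, inner ℝ y (s • w) = 0 := by
          intro y hy s
          rw [inner_smul_right, (Submodule.mem_orthogonal V w).1 hwV y hy, mul_zero]
        have hpyth : ∀ y ∈ V, ∀ s : ℝ, ‖y‖ ≤ ‖y + s • w‖ ∧ |s| * ‖w‖ ≤ ‖y + s • w‖ := by
          intro y hy s
          have h1 := norm_add_sq_eq_norm_sq_add_norm_sq_real (horth y hy s)
          rw [norm_smul, Real.norm_eq_abs] at h1
          constructor
          · apply abs_le_of_sq_le_sq' (a := ‖y‖) (b := ‖y + s • w‖) _ (norm_nonneg _) |>.2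
            nlinarith [mul_self_nonneg (|s| * ‖w‖)]
          · apply abs_le_of_sq_le_sq' (a := |s| * ‖w‖) (b := ‖y + s • w‖) _ (norm_nonneg _) |>.2
            nlinarith [mul_self_nonneg ‖y‖]
        have haD : ‖a‖ ≤ D := by
          have h1 := (hpyth a haV 1).1
          rw [one_smul, ← haw] at h1
          exact h1.trans (hdiam x hxK c hcK)
        have hw0 : w ≠ 0 := by
          intro h
          rw [h, norm_zero] at hwd
          linarith
        refine ⟨c + (1 / 2 : ℝ) • (a + w), V ⊔ Submodule.span ℝ {w}, ?_, ?_⟩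
        · have h1 := Submodule.finrank_sup_add_finrank_inf_eq V (Submodule.span ℝ {w})
          have h2 : V ⊓ Submodule.span ℝ {w} = ⊥ := by
            rw [eq_bot_iff]
            rintro y ⟨hyV, hyw⟩
            obtain ⟨s, rfl⟩ := Submodule.mem_span_singleton.1 hyw
            have h3 := horth (s • w) hyV s
            rw [inner_self_eq_zero] at h3
            rw [Submodule.mem_bot]
            exact h3
          rw [h2, finrank_bot, finrank_span_singleton hw0, hVn] at h1
          omega
        · intro v hv hvr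
          obtain ⟨y, hy, z, hz, rfl⟩ := Submodule.mem_sup.1 hv
          obtain ⟨s, rfl⟩ := Submodule.mem_span_singleton.1 hz
          obtain ⟨h1, h2⟩ := hpyth y hy s
          have hr1 : ‖y + s • w‖ ≤ r / (4 * (1 + D / d)) := hvr.trans (min_le_left _ _)
          have hr2 : ‖y + s • w‖ ≤ d / 4 := hvr.trans (min_le_right _ _)
          have hs1 : |s| * d ≤ ‖y + s • w‖ :=
            (mul_le_mul_of_nonneg_left hwd.le (abs_nonneg s)).trans h2
          have hs2 : |s| ≤ 1 / 4 := by
            have h3 : |s| * d ≤ d / 4 := hs1.trans hr2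
            nlinarith
          have hs3 : |s| ≤ ‖y + s • w‖ / d := by
            rw [le_div_iff₀ hd]
            exact hs1
          have hsl := neg_abs_le s
          have hsu := le_abs_self s
          have hτ : 0 < 1 / 2 - s := by linarith
          have hτ4 : 1 / 4 ≤ 1 / 2 - s := by linarith
          set v'' : E := (1 / 2 - s)⁻¹ • (y - s • a) with hv''
          have hv''V : v'' ∈ V := V.smul_mem _ (V.sub_mem hy (V.smul_mem _ haV))
          have hnorm : ‖v''‖ ≤ r := by
            rw [hv'', norm_smul, norm_inv, Real.norm_eq_abs, abs_of_pos hτ]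
            have h4 : ‖y - s • a‖ ≤ ‖y + s • w‖ * (1 + D / d) := by
              calc ‖y - s • a‖ ≤ ‖y‖ + ‖s • a‖ := norm_sub_le _ _
                _ ≤ ‖y + s • w‖ + ‖y + s • w‖ / d * D := by
                  rw [norm_smul, Real.norm_eq_abs]
                  have := mul_le_mul hs3 haD (norm_nonneg a) (by positivity)
                  linarith
                _ = _ := by field_simp
            have h5 : ‖y + s • w‖ * (1 + D / d) ≤ r / 4 := by
              have h6 := mul_le_mul_of_nonneg_right hr1 hDd.le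
              have h7 : r / (4 * (1 + D / d)) * (1 + D / d) = r / 4 := by
                field_simp
              rwa [h7] at h6
            have h8 : (1 / 2 - s)⁻¹ ≤ 4 := by
              rw [inv_le_comm₀ hτ (by norm_num)]
              linarith
            calc (1 / 2 - s)⁻¹ * ‖y - s • a‖ ≤ 4 * (r / 4) :=
                mul_le_mul h8 (h4.trans h5) (norm_nonneg _) (by norm_num)
              _ = r := by ring
          have hmem := hcV v'' hv''V hnorm
          have hcomb := hconv hmem hxK hτ.le (by linarith : (0 : ℝ) ≤ 1 / 2 + s) (by ring)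
          have hxeq : x = c + (a + w) := by rw [← haw]; abel
          have heq : c + (1 / 2 : ℝ) • (a + w) + (y + s • w) =
              (1 / 2 - s) • (c + v'') + (1 / 2 + s) • x := by
            rw [hxeq, smul_add (1 / 2 - s) c v'', hv'', smul_smul, mul_inv_cancel₀ hτ.ne', one_smul]
            module
          rw [heq]
          exact hcomb
    · right
      exact ⟨c, V, by omega, hflat⟩

theorem exists_orthonormal_pair {E : Type*} [NormedAddCommGroup E] [InnerProductSpace ℝ E]
    [FiniteDimensional ℝ E] (V : Submodule ℝ E)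
    (h : Module.finrank ℝ V + 2 ≤ Module.finrank ℝ E) :
    ∃ u₁ u₂ : E, ‖u₁‖ = 1 ∧ ‖u₂‖ = 1 ∧ inner ℝ u₁ u₂ = 0 ∧
      ∀ v ∈ V, inner ℝ u₁ v = 0 ∧ inner ℝ u₂ v = 0 := by
  have h1 := Submodule.finrank_add_finrank_orthogonal V
  have h2 : 2 ≤ Module.finrank ℝ Vᗮ := by omega
  let b := stdOrthonormalBasis ℝ Vᗮ
  let i0 : Fin (Module.finrank ℝ Vᗮ) := ⟨0, by omega⟩
  let i1 : Fin (Module.finrank ℝ Vᗮ) := ⟨1, by omega⟩
  refine ⟨(b i0 : E), (b i1 : E), ?_, ?_, ?_, ?_⟩
  · have := b.norm_eq_one i0
    rwa [Submodule.coe_norm] at this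
  · have := b.norm_eq_one i1
    rwa [Submodule.coe_norm] at this
  · have := b.inner_eq_zero (i := i0) (j := i1) (by simp [i0, i1])
    rwa [Submodule.coe_inner] at this
  · intro v hv
    have h3 := (Submodule.mem_orthogonal' V (b i0 : E)).1 (b i0).2 v hv
    have h4 := (Submodule.mem_orthogonal' V (b i1 : E)).1 (b i1).2 v hv
    exact ⟨h3, h4⟩

end Pool.Agent.Helper32.CH
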