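import Pool.Agent.Helper32.CH.Curve

/-!
Block CH-2 (MP_7116bc_gt): the boundary of a convex body which is thin in two orthogonal
directions has small inner distances.

Let `P x` be the nearest point of `K` to `x` (`exists_norm_eq_iInf_of_complete_convex`,
characterised by `inner ℝ (x - P x) (w - P x) ≤ 0` for `w ∈ K`:
`norm_eq_iInf_iff_real_inner_le_zero`). `P` is 1-Lipschitz, `P x = x` for `x ∈ K`, and
`P x ∈ frontier K` if `x ∉ interior K` (if `P x` were interior, then `P x + t (x - P x)` would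
be in `K` for small `t > 0`, so `x = P x`, in the interior). So if the segment `[x,y]` does not
meet `interior K`, then `innerEDist (frontier K) (P x) (P y) ≤ edist x y`
(the curve `P` of the segment).

Proof of `innerEDist_frontier_le`: write `α x = ⟨u₁, x - c⟩`, `β x = ⟨u₂, x - c⟩`.
`interior K` is contained in `{|α| < d and |β| < d}` (for `d = 0` the interior is empty,
contradiction with `hi`). From `p`: take a supporting functional `f` at `p`
(`geometric_hahn_banach_open_point` for `interior K`, so `f < f p` on `interior K`) and a sign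
`s = ± 1` with `s * f u₁ ≥ 0`; the segment `p + t s u₁`, `0 ≤ t ≤ 2 d`, avoids `interior K`
and ends at a point with `|α| ≥ d`, `|β| ≤ d`. Then the segment in direction `u₂` up to
`β = 2 d` (length at most `3 d`; `|α| ≥ d` on it), then the segment in direction `u₁` to
`α = 0` (length at most `3 d`; `β = 2 d` on it). The end point is
`c + (p - c - α(p) u₁ - β(p) u₂) + 2 d u₂`. The same for `q`, and the segment between the two
end points has `β = 2 d` and the length `‖(p - q) - ...‖`. The total is at most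
`‖...‖ + 16 d`; use `innerEDist_triangle` and `P p = p`, `P q = q`.
-/

set_option autoImplicit false

namespace Pool.Agent.Helper32.CH

open Set Filter Topology MeasureTheory
open scoped ENNReal

private theorem exists_proj34 {E : Type*} [NormedAddCommGroup E] [InnerProductSpace ℝ E]
    {K : Set E} (hK : Convex ℝ K) (hc : IsComplete K) (hne : K.Nonempty) :
    ∃ P : E → E, (∀ x, P x ∈ K) ∧ ∀ x, ∀ w ∈ K, inner ℝ (x - P x) (w - P x) ≤ 0 := by
  have h : ∀ x, ∃ y ∈ K, ∀ w ∈ K, inner ℝ (x - y) (w - y) ≤ 0 := by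
    intro x
    obtain ⟨y, hy, h1⟩ := exists_norm_eq_iInf_of_complete_convex hne hc hK x
    exact ⟨y, hy, (norm_eq_iInf_iff_real_inner_le_zero hK hy).1 h1⟩
  choose P hP hP2 using h
  exact ⟨P, hP, hP2⟩

private theorem proj_lip34 {E : Type*} [NormedAddCommGroup E] [InnerProductSpace ℝ E]
    {K : Set E} {P : E → E} (h1 : ∀ x, P x ∈ K)
    (h2 : ∀ x, ∀ w ∈ K, inner ℝ (x - P x) (w - P x) ≤ 0) (x y : E) :
    ‖P x - P y‖ ≤ ‖x - y‖ := by
  have a1 := h2 x (P y) (h1 y)
  have a2 := h2 y (P x) (h1 x)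
  have a3 : ‖P x - P y‖ ^ 2 ≤ inner ℝ (x - y) (P x - P y) := by
    have e1 : inner ℝ (x - P x) (P y - P x) = - inner ℝ (x - P x) (P x - P y) := by
      rw [← inner_neg_right, neg_sub]
    rw [e1] at a1
    have e2 : inner ℝ (x - y) (P x - P y) =
        inner ℝ (x - P x) (P x - P y) - inner ℝ (y - P y) (P x - P y) +
          inner ℝ (P x - P y) (P x - P y) := by
      rw [← inner_sub_left, ← inner_add_left]
      congr 1
      abel
    rw [e2, real_inner_self_eq_norm_sq]
    linarith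
  have a4 := real_inner_le_norm (x - y) (P x - P y)
  by_contra h
  push Not at h
  have h0 : 0 < ‖P x - P y‖ := (norm_nonneg _).trans_lt h
  nlinarith

private theorem proj_self34 {E : Type*} [NormedAddCommGroup E] [InnerProductSpace ℝ E]
    {K : Set E} {P : E → E}
    (h2 : ∀ x, ∀ w ∈ K, inner ℝ (x - P x) (w - P x) ≤ 0) {x : E} (hx : x ∈ K) : P x = x := by
  have h := h2 x x hx
  have h3 : x - P x = 0 := real_inner_self_nonpos.1 h
  exact (sub_eq_zero.1 h3).symm

private theorem proj_frontier34 {E : Type*} [NormedAddCommGroup E] [InnerProductSpace ℝ E]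
    {K : Set E} {P : E → E} (h1 : ∀ x, P x ∈ K)
    (h2 : ∀ x, ∀ w ∈ K, inner ℝ (x - P x) (w - P x) ≤ 0) {x : E} (hx : x ∉ interior K) :
    P x ∈ frontier K := by
  refine ⟨subset_closure (h1 x), fun hi => ?_⟩
  have hc : Tendsto (fun t : ℝ => P x + t • (x - P x)) (𝓝 0) (𝓝 (P x)) := by
    have h3 : Continuous fun t : ℝ => P x + t • (x - P x) := by fun_prop
    have h4 := h3.tendsto 0
    simpa using h4
  have hev : ∀ᶠ t : ℝ in 𝓝 0, P x + t • (x - P x) ∈ K :=
    hc.eventually (mem_interior_iff_mem_nhds.1 hi)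
  rw [Metric.eventually_nhds_iff] at hev
  obtain ⟨ε, hε, hev⟩ := hev
  have hm : P x + (ε / 2) • (x - P x) ∈ K := by
    refine hev ?_
    rw [Real.dist_eq, sub_zero, abs_of_pos (by positivity)]
    linarith
  have h5 := h2 x _ hm
  rw [add_sub_cancel_left, inner_smul_right, real_inner_self_eq_norm_sq] at h5
  have h6 : ‖x - P x‖ ^ 2 ≤ 0 := by
    by_contra h
    push Not at h
    have := mul_pos (half_pos hε) h
    linarith
  have h7 : ‖x - P x‖ = 0 := by
    have := sq_nonneg ‖x - P x‖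
    exact pow_eq_zero_iff (two_ne_zero) |>.1 (le_antisymm h6 this)
  have h8 : x = P x := sub_eq_zero.1 (norm_eq_zero.1 h7)
  rw [← h8] at hi
  exact hx hi

private theorem innerEDist_seg34 {E : Type*} [NormedAddCommGroup E] [InnerProductSpace ℝ E]
    {K : Set E} {P : E → E} (h1 : ∀ x, P x ∈ K)
    (h2 : ∀ x, ∀ w ∈ K, inner ℝ (x - P x) (w - P x) ≤ 0) (x v : E)
    (hx : ∀ t ∈ Icc (0 : ℝ) 1, x + t • v ∉ interior K) {r : ℝ} (hr : ‖v‖ ≤ r) :
    innerEDist (frontier K) (P x) (P (x + v)) ≤ ENNReal.ofReal r := by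
  have hlip : LipschitzWith ‖v‖₊ fun t : ℝ => P (x + t • v) := by
    refine LipschitzWith.of_dist_le_mul fun s t => ?_
    rw [dist_eq_norm, Real.dist_eq]
    refine (proj_lip34 h1 h2 _ _).trans ?_
    rw [add_sub_add_left_eq_sub, ← sub_smul, norm_smul, Real.norm_eq_abs, mul_comm]
    rfl
  refine (iInf_le _ ⟨fun t : ℝ => P (x + t • v), hlip.continuous.continuousOn,
    fun t ht => proj_frontier34 h1 h2 (hx t ht), by simp, by simp⟩).trans ?_
  dsimp only
  have h3 : eVariationOn ((fun t : ℝ => P (x + t • v)) ∘ (id : ℝ → ℝ)) (Icc 0 1) ≤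
      ‖v‖₊ * eVariationOn (id : ℝ → ℝ) (Icc 0 1) :=
    (hlip.lipschitzOnWith (s := univ)).comp_eVariationOn_le (mapsTo_univ _ _)
  have h4 : eVariationOn (id : ℝ → ℝ) (Icc 0 1) ≤ 1 := by
    have h5 := (monotone_id.monotoneOn (Icc (0 : ℝ) 1)).eVariationOn_eq
      (left_mem_Icc.2 zero_le_one) (right_mem_Icc.2 zero_le_one)
    rw [inter_self] at h5
    rw [h5]
    simp
  refine (le_trans h3 (mul_le_mul' le_rfl h4)).trans ?_
  rw [mul_one, ← enorm_eq_nnnorm, ← ofReal_norm]
  exact ENNReal.ofReal_le_ofReal hr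

private theorem side34 {E : Type*} [NormedAddCommGroup E] [InnerProductSpace ℝ E]
    {K : Set E} {P : E → E} (hK : Convex ℝ K) (hcl : IsClosed K) (h1 : ∀ x, P x ∈ K)
    (h2 : ∀ x, ∀ w ∈ K, inner ℝ (x - P x) (w - P x) ≤ 0)
    {u₁ u₂ c : E} {d : ℝ} (hd : 0 < d) (hu1 : ‖u₁‖ = 1)
    (hu2 : ‖u₂‖ = 1) (h12 : inner ℝ u₁ u₂ = 0)
    (hs : ∀ x ∈ K, |inner ℝ u₁ (x - c)| ≤ d ∧ |inner ℝ u₂ (x - c)| ≤ d)
    (hsi : ∀ x ∈ interior K, |inner ℝ u₁ (x - c)| < d ∧ |inner ℝ u₂ (x - c)| < d)
    {p : E} (hp : p ∈ frontier K) :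
    innerEDist (frontier K) p
      (P (p - inner ℝ u₁ (p - c) • u₁ + (2 * d - inner ℝ u₂ (p - c)) • u₂)) ≤
      ENNReal.ofReal (8 * d) := by
  have hpK : p ∈ K := hcl.frontier_subset hp
  obtain ⟨ha, hb⟩ := hs p hpK
  have h11 : inner ℝ u₁ u₁ = 1 := by rw [real_inner_self_eq_norm_sq, hu1]; norm_num
  have h22 : inner ℝ u₂ u₂ = 1 := by rw [real_inner_self_eq_norm_sq, hu2]; norm_num
  have h21 : inner ℝ u₂ u₁ = 0 := by rw [real_inner_comm]; exact h12
  obtain ⟨f, hf⟩ := geometric_hahn_banach_open_point hK.interior isOpen_interior hp.2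
  obtain ⟨s, hs1, hsf⟩ : ∃ s : ℝ, |s| = 1 ∧ 0 ≤ s * f u₁ := by
    rcases le_total 0 (f u₁) with h | h
    · exact ⟨1, by norm_num, by linarith⟩
    · exact ⟨-1, by norm_num, by linarith⟩
  set a : ℝ := inner ℝ u₁ (p - c) with hadef
  set b : ℝ := inner ℝ u₂ (p - c) with hbdef
  -- coordinates
  have hco1 : ∀ y z : ℝ, inner ℝ u₁ (p + y • u₁ + z • u₂ - c) = a + y := by
    intro y z
    rw [show p + y • u₁ + z • u₂ - c = (p - c) + y • u₁ + z • u₂ by abel, inner_add_right,
      inner_add_right, inner_smul_right, inner_smul_right, h11, h12]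
    ring
  have hco2 : ∀ y z : ℝ, inner ℝ u₂ (p + y • u₁ + z • u₂ - c) = b + z := by
    intro y z
    rw [show p + y • u₁ + z • u₂ - c = (p - c) + y • u₁ + z • u₂ by abel, inner_add_right,
      inner_add_right, inner_smul_right, inner_smul_right, h22, h21]
    ring
  rw [abs_le] at ha hb
  have hs2 : s = 1 ∨ s = -1 := eq_or_eq_neg_of_abs_eq hs1
  -- first segment
  have s1 : innerEDist (frontier K) (P p) (P (p + (2 * d * s) • u₁)) ≤
      ENNReal.ofReal (2 * d) := by
    refine innerEDist_seg34 h1 h2 p _ (fun t ht hi => ?_) ?_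
    · have h3 := hf _ hi
      rw [map_add, map_smul, map_smul, smul_eq_mul, smul_eq_mul] at h3
      have h4 : 0 ≤ t * (2 * d * (s * f u₁)) := mul_nonneg ht.1 (by positivity)
      have h5 : t * (2 * d * (s * f u₁)) = t * (2 * d * s * f u₁) := by ring
      linarith
    · rw [norm_smul, hu1, Real.norm_eq_abs, abs_mul, hs1, abs_of_pos (by positivity)]
      linarith
  -- second segment
  have s2 : innerEDist (frontier K) (P (p + (2 * d * s) • u₁))
      (P (p + (2 * d * s) • u₁ + (2 * d - b) • u₂)) ≤ ENNReal.ofReal (3 * d) := by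
    refine innerEDist_seg34 h1 h2 _ _ (fun t ht hi => ?_) ?_
    · have h3 := (hsi _ hi).1
      rw [smul_smul, hco1, abs_lt] at h3
      rcases hs2 with h | h <;> rw [h] at h3 <;> linarith [h3.1, h3.2]
    · rw [norm_smul, hu2, Real.norm_eq_abs, abs_of_pos (by linarith)]
      linarith
  -- third segment
  have s3 : innerEDist (frontier K) (P (p + (2 * d * s) • u₁ + (2 * d - b) • u₂))
      (P (p - a • u₁ + (2 * d - b) • u₂)) ≤ ENNReal.ofReal (3 * d) := by
    have e1 : p - a • u₁ + (2 * d - b) • u₂ =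
        (p + (2 * d * s) • u₁ + (2 * d - b) • u₂) + (-(a + 2 * d * s)) • u₁ := by
      rw [neg_smul, add_smul]
      abel
    rw [e1]
    refine innerEDist_seg34 h1 h2 _ _ (fun t ht hi => ?_) ?_
    · have h3 := (hsi _ hi).2
      have e2 : p + (2 * d * s) • u₁ + (2 * d - b) • u₂ + t • (-(a + 2 * d * s)) • u₁ =
          p + (2 * d * s + t * (-(a + 2 * d * s))) • u₁ + (2 * d - b) • u₂ := by
        rw [smul_smul, add_smul]
        abel
      rw [e2, hco2, abs_lt] at h3
      linarith [h3.2]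
    · rw [norm_smul, hu1, Real.norm_eq_abs, abs_neg, mul_one, abs_le]
      rcases hs2 with h | h <;> rw [h] <;> constructor <;> linarith
  have hPp : P p = p := proj_self34 h2 hpK
  rw [hPp] at s1
  calc innerEDist (frontier K) p (P (p - a • u₁ + (2 * d - b) • u₂))
      ≤ innerEDist (frontier K) p (P (p + (2 * d * s) • u₁)) +
        innerEDist (frontier K) (P (p + (2 * d * s) • u₁))
          (P (p - a • u₁ + (2 * d - b) • u₂)) := innerEDist_triangle _ _ _ _
    _ ≤ innerEDist (frontier K) p (P (p + (2 * d * s) • u₁)) +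
        (innerEDist (frontier K) (P (p + (2 * d * s) • u₁))
          (P (p + (2 * d * s) • u₁ + (2 * d - b) • u₂)) +
        innerEDist (frontier K) (P (p + (2 * d * s) • u₁ + (2 * d - b) • u₂))
          (P (p - a • u₁ + (2 * d - b) • u₂))) :=
        add_le_add le_rfl (innerEDist_triangle _ _ _ _)
    _ ≤ ENNReal.ofReal (2 * d) + (ENNReal.ofReal (3 * d) + ENNReal.ofReal (3 * d)) :=
        add_le_add s1 (add_le_add s2 s3)
    _ = ENNReal.ofReal (8 * d) := by
        rw [← ENNReal.ofReal_add (by positivity) (by positivity),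
          ← ENNReal.ofReal_add (by positivity) (by positivity)]
        congr 1
        ring

private theorem abs_inner_lt34 {E : Type*} [NormedAddCommGroup E] [InnerProductSpace ℝ E]
    {K : Set E} {u c : E} {d : ℝ} (hu : ‖u‖ = 1)
    (hs : ∀ x ∈ K, |inner ℝ u (x - c)| ≤ d) {x : E} (hx : x ∈ interior K) :
    |inner ℝ u (x - c)| < d := by
  have hev : ∀ᶠ t : ℝ in 𝓝 0, x + t • u ∈ K := by
    have h3 : Continuous fun t : ℝ => x + t • u := by fun_prop
    have h4 := h3.tendsto 0
    rw [zero_smul, add_zero] at h4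
    exact h4.eventually (mem_interior_iff_mem_nhds.1 hx)
  rw [Metric.eventually_nhds_iff] at hev
  obtain ⟨ε, hε, hev⟩ := hev
  have hin : ∀ t : ℝ, inner ℝ u (x + t • u - c) = inner ℝ u (x - c) + t := by
    intro t
    rw [show x + t • u - c = (x - c) + t • u by abel, inner_add_right, inner_smul_right,
      real_inner_self_eq_norm_sq, hu]
    ring
  have h1 := hs _ (hev (y := ε / 2) (by
    rw [Real.dist_eq, sub_zero, abs_of_pos (by positivity)]; linarith))
  have h2 := hs _ (hev (y := -(ε / 2)) (by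
    rw [Real.dist_eq, sub_zero, abs_neg, abs_of_pos (by positivity)]; linarith))
  rw [hin, abs_le] at h1 h2
  rw [abs_lt]
  constructor <;> linarith [h1.1, h1.2, h2.1, h2.2]

theorem innerEDist_frontier_le {E : Type*} [NormedAddCommGroup E] [InnerProductSpace ℝ E]
    [FiniteDimensional ℝ E] {K : Set E} (hK : Convex ℝ K) (hc : IsCompact K)
    (hi : (interior K).Nonempty) {u₁ u₂ c : E} {d : ℝ} (hd : 0 ≤ d) (h1 : ‖u₁‖ = 1)
    (h2 : ‖u₂‖ = 1) (h12 : inner ℝ u₁ u₂ = 0)
    (hs : ∀ x ∈ K, |inner ℝ u₁ (x - c)| ≤ d ∧ |inner ℝ u₂ (x - c)| ≤ d)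
    {p q : E} (hp : p ∈ frontier K) (hq : q ∈ frontier K) :
    innerEDist (frontier K) p q ≤
      ENNReal.ofReal (‖(p - q) - inner ℝ u₁ (p - q) • u₁ - inner ℝ u₂ (p - q) • u₂‖ + 16 * d) := by
  obtain ⟨x₀, hx₀⟩ := hi
  have hsi : ∀ x ∈ interior K, |inner ℝ u₁ (x - c)| < d ∧ |inner ℝ u₂ (x - c)| < d :=
    fun x hx => ⟨abs_inner_lt34 h1 (fun y hy => (hs y hy).1) hx,
      abs_inner_lt34 h2 (fun y hy => (hs y hy).2) hx⟩
  have hd' : 0 < d := (abs_nonneg _).trans_lt (hsi x₀ hx₀).1
  obtain ⟨P, hP1, hP2⟩ := exists_proj34 hK hc.isComplete ⟨x₀, interior_subset hx₀⟩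
  have hcl : IsClosed K := hc.isClosed
  have sp := side34 hK hcl hP1 hP2 hd' h1 h2 h12 hs hsi hp
  have sq := side34 hK hcl hP1 hP2 hd' h1 h2 h12 hs hsi hq
  have h22 : inner ℝ u₂ u₂ = 1 := by rw [real_inner_self_eq_norm_sq, h2]; norm_num
  have h21 : inner ℝ u₂ u₁ = 0 := by rw [real_inner_comm]; exact h12
  set v : E := (p - q) - inner ℝ u₁ (p - q) • u₁ - inner ℝ u₂ (p - q) • u₂ with hv
  have hco : ∀ x : E, inner ℝ u₂
      (x - inner ℝ u₁ (x - c) • u₁ + (2 * d - inner ℝ u₂ (x - c)) • u₂ - c) = 2 * d := by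
    intro x
    rw [show x - inner ℝ u₁ (x - c) • u₁ + (2 * d - inner ℝ u₂ (x - c)) • u₂ - c =
      (x - c) - inner ℝ u₁ (x - c) • u₁ + (2 * d - inner ℝ u₂ (x - c)) • u₂ by abel,
      inner_add_right, inner_sub_right, inner_smul_right, inner_smul_right, h22, h21]
    ring
  have hv2 : inner ℝ u₂ (-v) = 0 := by
    rw [hv, inner_neg_right, inner_sub_right, inner_sub_right, inner_smul_right,
      inner_smul_right, h22, h21]
    ring
  have hmid : innerEDist (frontier K)
      (P (p - inner ℝ u₁ (p - c) • u₁ + (2 * d - inner ℝ u₂ (p - c)) • u₂))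
      (P (q - inner ℝ u₁ (q - c) • u₁ + (2 * d - inner ℝ u₂ (q - c)) • u₂)) ≤
      ENNReal.ofReal ‖v‖ := by
    have e1 : q - inner ℝ u₁ (q - c) • u₁ + (2 * d - inner ℝ u₂ (q - c)) • u₂ =
        (p - inner ℝ u₁ (p - c) • u₁ + (2 * d - inner ℝ u₂ (p - c)) • u₂) + -v := by
      have e2 : inner ℝ u₁ (q - c) = inner ℝ u₁ (p - c) - inner ℝ u₁ (p - q) := by
        rw [← inner_sub_right]
        congr 1
        abel
      have e3 : inner ℝ u₂ (q - c) = inner ℝ u₂ (p - c) - inner ℝ u₂ (p - q) := by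
        rw [← inner_sub_right]
        congr 1
        abel
      rw [hv, e2, e3]
      module
    rw [e1]
    refine innerEDist_seg34 hP1 hP2 _ _ (fun t ht hin => ?_) (by rw [norm_neg])
    have h3 := (hsi _ hin).2
    rw [add_sub_right_comm, inner_add_right, hco, inner_smul_right, hv2, abs_lt] at h3
    linarith [h3.2]
  rw [innerEDist_comm] at sq
  calc innerEDist (frontier K) p q
      ≤ innerEDist (frontier K) p
          (P (p - inner ℝ u₁ (p - c) • u₁ + (2 * d - inner ℝ u₂ (p - c)) • u₂)) +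
        innerEDist (frontier K)
          (P (p - inner ℝ u₁ (p - c) • u₁ + (2 * d - inner ℝ u₂ (p - c)) • u₂)) q :=
        innerEDist_triangle _ _ _ _
    _ ≤ innerEDist (frontier K) p
          (P (p - inner ℝ u₁ (p - c) • u₁ + (2 * d - inner ℝ u₂ (p - c)) • u₂)) +
        (innerEDist (frontier K)
          (P (p - inner ℝ u₁ (p - c) • u₁ + (2 * d - inner ℝ u₂ (p - c)) • u₂))
          (P (q - inner ℝ u₁ (q - c) • u₁ + (2 * d - inner ℝ u₂ (q - c)) • u₂)) +
        innerEDist (frontier K)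
          (P (q - inner ℝ u₁ (q - c) • u₁ + (2 * d - inner ℝ u₂ (q - c)) • u₂)) q) :=
        add_le_add le_rfl (innerEDist_triangle _ _ _ _)
    _ ≤ ENNReal.ofReal (8 * d) + (ENNReal.ofReal ‖v‖ + ENNReal.ofReal (8 * d)) :=
        add_le_add sp (add_le_add hmid sq)
    _ = ENNReal.ofReal (‖v‖ + 16 * d) := by
        rw [← ENNReal.ofReal_add (by positivity) (by positivity),
          ← ENNReal.ofReal_add (by positivity) (by positivity)]
        congr 1
        ring

end Pool.Agent.Helper32.CH
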