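import Pool.Agent.Helper32.CH.Core6
import Pool.Agent.Helper32.CH.Curve
import Pool.Agent.Helper32.CH.Thin
import Pool.Agent.Helper32.CH.Flat

/-!
MP_7116bc_gt, convex hypersurfaces: general position, comparison of two hypersurfaces.
-/

set_option autoImplicit false

namespace Pool.Agent.Helper32.CH

open Set Filter Topology
open scoped Pointwise ENNReal

theorem PLip.comp {E F G : Type*} [PseudoMetricSpace E] [PseudoMetricSpace F]
    [PseudoMetricSpace G] {S : Set E} {S' : Set F} {L L' : ℝ} {f : E → F} {g : F → G}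
    (hf : PLip S L f) (hm : MapsTo f S S') (hL' : 0 ≤ L') (hg : PLip S' L' g) :
    PLip S (L' * L) (g ∘ f) := by
  intro p hp
  have h1 : Tendsto f (𝓝[S] p) (𝓝[S'] (f p)) :=
    (hf.continuousOn p hp).tendsto_nhdsWithin hm
  filter_upwards [hf p hp, h1.eventually (hg (f p) (hm hp))] with q hq1 hq2
  simp only [Function.comp]
  calc dist (g (f q)) (g (f p)) ≤ L' * dist (f q) (f p) := hq2
    _ ≤ L' * (L * dist q p) := mul_le_mul_of_nonneg_left hq1 hL'
    _ = L' * L * dist q p := by ring

theorem PLip.mono_const {E F : Type*} [PseudoMetricSpace E] [PseudoMetricSpace F]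
    {S : Set E} {L L' : ℝ} {f : E → F} (hf : PLip S L f) (hLL : L ≤ L') : PLip S L' f := by
  intro p hp
  filter_upwards [hf p hp] with q hq
  exact hq.trans (mul_le_mul_of_nonneg_right hLL dist_nonneg)

theorem PLip.of_isometry {E F : Type*} [PseudoMetricSpace E] [PseudoMetricSpace F]
    {S : Set E} {f : E → F} (hf : Isometry f) : PLip S 1 f := by
  intro p _
  refine Eventually.of_forall fun q => ?_
  rw [hf.dist_eq, one_mul]

/-- The comparison constant. -/
noncomputable def CL (r R : ℝ) : ℝ :=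
  max 1 (max (2 * (1 / r + r / (2 * R ^ 2)) + 2 * (1 / r + 2 / R)) (C3 r R))

theorem one_le_CL (r R : ℝ) : 1 ≤ CL r R := le_max_left _ _

variable {E : Type*} [NormedAddCommGroup E] [InnerProductSpace ℝ E]

/-- A rotation taking `u` to `u₀`. -/
theorem exists_rot {u u₀ : E} (hu : ‖u‖ = 1) (hu₀ : ‖u₀‖ = 1) :
    ∃ ρ : E ≃ₗᵢ[ℝ] E, ρ u = u₀ := by
  by_cases h : u = u₀
  · exact ⟨LinearIsometryEquiv.refl ℝ E, by simpa using h⟩
  · refine ⟨(ℝ ∙ (u - u₀))ᗮ.reflection, ?_⟩
    exact Submodule.reflection_sub (by rw [hu, hu₀])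

variable [FiniteDimensional ℝ E]

/-- The boundary of a convex body which contains a flat disc of codimension one is uniformly
pointwise bi-Lipschitz to the model sphere. -/
theorem exists_model (u₀ : E) (hu₀ : ‖u₀‖ = 1) {K : Set E} (hK : Convex ℝ K)
    (hc : IsCompact K) (hi : (interior K).Nonempty) {n : ℕ}
    (hdim : Module.finrank ℝ E = n + 1) {r D : ℝ} (hr : 0 < r) (hdisc : HasDisc K n r)
    (hD : ∀ x ∈ K, ∀ y ∈ K, ‖x - y‖ ≤ D) :
    ∃ F G : E → E, MapsTo F (frontier K) (MS u₀) ∧ MapsTo G (MS u₀) (frontier K) ∧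
      (∀ p ∈ frontier K, G (F p) = p) ∧ (∀ q ∈ MS u₀, F (G q) = q) ∧
      PLip (frontier K) (CL (r / 2) (D + r)) F ∧ PLip (MS u₀) (CL (r / 2) (D + r)) G := by
  obtain ⟨c, V, hV, hdisc⟩ := hdisc
  obtain ⟨m, hm⟩ := hi
  have hD0 : 0 ≤ D := (norm_nonneg _).trans (hD m (interior_subset hm) m (interior_subset hm))
  -- unit normal of `V`
  have hVo : Module.finrank ℝ Vᗮ = 1 := by
    have := Submodule.finrank_add_finrank_orthogonal V
    omega
  obtain ⟨w, hw0, hw⟩ := finrank_eq_one_iff'.1 hVo
  have hw0' : (w : E) ≠ 0 := fun h => hw0 (Subtype.ext h)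
  set u : E := ‖(w : E)‖⁻¹ • (w : E) with hu
  have hun : ‖u‖ = 1 := by
    rw [hu, norm_smul, norm_inv, norm_norm, inv_mul_cancel₀ (norm_ne_zero_iff.2 hw0')]
  have hVmem : ∀ x : E, (inner ℝ u x : ℝ) = 0 → x ∈ V := by
    intro x hx
    have h1 : x ∈ Vᗮᗮ := by
      rw [Submodule.mem_orthogonal]
      intro y hy
      obtain ⟨t, ht⟩ := hw ⟨y, hy⟩
      have h2 : y = t • (w : E) := by
        have := congrArg Subtype.val ht
        simpa using this.symm
      have h3 : (inner ℝ (w : E) x : ℝ) = 0 := by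
        rw [hu, inner_smul_left] at hx
        have h4 : ‖(w : E)‖⁻¹ ≠ 0 := inv_ne_zero (norm_ne_zero_iff.2 hw0')
        simpa [h4, hw0'] using hx
      rw [h2, inner_smul_left, h3, mul_zero]
    rwa [Submodule.orthogonal_orthogonal] at h1
  obtain ⟨ρ, hρ⟩ := exists_rot hun hu₀
  -- the new centre
  set c' : E := (1 / 2 : ℝ) • c + (1 / 2 : ℝ) • m with hc'
  have hcK : c ∈ K := by
    have := hdisc 0 V.zero_mem (by simpa using hr.le)
    simpa using this
  have hc'i : c' ∈ interior K := by
    have := hK.combo_self_interior_mem_interior hcK hm (a := 1 / 2) (b := 1 / 2)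
      (by norm_num) (by norm_num) (by norm_num)
    exact this
  set e : E ≃ᵢ E := (IsometryEquiv.subRight c').trans ρ.toIsometryEquiv with he
  have he1 : ∀ x, e x = ρ (x - c') := fun x => rfl
  have he2 : ∀ y, e.symm y = ρ.symm y + c' := fun y => by
    apply e.injective
    rw [e.apply_symm_apply, he1]; simp
  set K' : Set E := e.symm ⁻¹' K with hK'
  have hfr : frontier K' = e.symm ⁻¹' frontier K := by
    rw [hK']
    exact (e.symm.toHomeomorph.preimage_frontier K).symm
  have hint : interior K' = e.symm ⁻¹' interior K := by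
    rw [hK']
    exact (e.symm.toHomeomorph.preimage_interior K).symm
  have hNB : NB K' u₀ (r / 2) (D + r) := by
    refine ⟨?_, ?_, ?_, hu₀, by linarith, by linarith, ?_, ?_⟩
    · intro x hx y hy a b ha hb hab
      show e.symm (a • x + b • y) ∈ K
      have hx' : e.symm x ∈ K := hx
      have hy' : e.symm y ∈ K := hy
      have := hK hx' hy' ha hb hab
      convert this using 1
      rw [he2, he2, he2, map_add, map_smul, map_smul]
      have key : ∀ A B C : E, a • A + b • B + C = a • (A + C) + b • (B + C) := by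
        intro A B C
        have h1 : a • C + b • C = C := by rw [← add_smul, hab, one_smul]
        calc a • A + b • B + C = a • A + b • B + (a • C + b • C) := by rw [h1]
          _ = a • (A + C) + b • (B + C) := by rw [smul_add, smul_add]; abel
      exact key _ _ _
    · exact (e.symm.toHomeomorph.isCompact_preimage).2 hc
    · rw [hint]
      show e.symm 0 ∈ interior K
      rw [he2, map_zero, zero_add]
      exact hc'i
    · intro x hx hxr
      show e.symm x ∈ K
      rw [he2]
      have h1 : (inner ℝ u (ρ.symm x) : ℝ) = 0 := by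
        have h2 : (inner ℝ (ρ u) (ρ (ρ.symm x)) : ℝ) = inner ℝ u (ρ.symm x) :=
          ρ.inner_map_map _ _
        rw [← h2, hρ, ρ.apply_symm_apply]
        exact hx
      have h3 : (2 : ℝ) • ρ.symm x ∈ V := V.smul_mem _ (hVmem _ h1)
      have h4 : ‖(2 : ℝ) • ρ.symm x‖ ≤ r := by
        rw [norm_smul, ρ.symm.norm_map, Real.norm_eq_abs, abs_of_pos two_pos]
        linarith
      have h5 := hK (hdisc _ h3 h4) (interior_subset hm) (a := 1 / 2) (b := 1 / 2)
        (by norm_num) (by norm_num) (by norm_num)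
      convert h5 using 1
      rw [hc', smul_add, smul_smul]
      norm_num
      abel
    · intro x hx
      have hx' : e.symm x ∈ K := hx
      have h1 := hD _ hx' _ (interior_subset hc'i)
      rw [he2, add_sub_cancel_right, ρ.symm.norm_map] at h1
      linarith
  have hCL1 : 1 ≤ CL (r / 2) (D + r) := one_le_CL _ _
  refine ⟨fun x => Phi K' u₀ (r / 2) (D + r) (e x), fun q => e.symm (Psi K' u₀ (r / 2) (D + r) q),
    ?_, ?_, ?_, ?_, ?_, ?_⟩
  · intro p hp
    apply hNB.mapsTo_Phi
    rw [hfr]
    show e.symm (e p) ∈ frontier K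
    rw [e.symm_apply_apply]; exact hp
  · intro q hq
    have := hNB.Psi_mem hq
    rw [hfr] at this
    exact this
  · intro p hp
    have hp' : e p ∈ frontier K' := by
      rw [hfr]
      show e.symm (e p) ∈ frontier K
      rw [e.symm_apply_apply]; exact hp
    show e.symm (Psi K' u₀ (r / 2) (D + r) (Phi K' u₀ (r / 2) (D + r) (e p))) = p
    rw [hNB.Psi_Phi hp', e.symm_apply_apply]
  · intro q hq
    show Phi K' u₀ (r / 2) (D + r) (e (e.symm (Psi K' u₀ (r / 2) (D + r) q))) = q
    rw [e.apply_symm_apply]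
    exact hNB.Phi_Psi hq
  · have h1 : PLip (frontier K) 1 (fun x => e x) := PLip.of_isometry e.isometry
    have h2 : MapsTo (fun x => e x) (frontier K) (frontier K') := by
      intro p hp
      rw [hfr]
      show e.symm (e p) ∈ frontier K
      rw [e.symm_apply_apply]; exact hp
    have h3 := h1.comp h2 (by positivity : (0 : ℝ) ≤ CL (r / 2) (D + r))
      (hNB.plip_Phi.mono_const ((le_max_left _ _).trans (le_max_right _ _)))
    rw [mul_one] at h3
    exact h3
  · have h1 : PLip (frontier K') 1 (fun x => e.symm x) := PLip.of_isometry e.symm.isometry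
    have h2 : MapsTo (Psi K' u₀ (r / 2) (D + r)) (MS u₀) (frontier K') :=
      fun q hq => hNB.Psi_mem hq
    have h3 := (hNB.plip_Psi.mono_const (L' := CL (r / 2) (D + r))
      ((le_max_right _ _).trans (le_max_right _ _))).comp h2 zero_le_one h1
    rw [one_mul] at h3
    exact h3

theorem innerEDist_self {E : Type*} [PseudoEMetricSpace E] {S : Set E} {x : E} (hx : x ∈ S) :
    innerEDist S x x = 0 := by
  refine le_antisymm ?_ bot_le
  refine iInf_le_of_le ⟨fun _ => x, continuousOn_const, fun _ _ => hx, rfl, rfl⟩ ?_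
  simp only
  refine iSup_le fun p => ?_
  simp

/-- Two convex hypersurfaces with discs of radius `r` and diameters at most `D`. -/
theorem biLip_of_discs {n : ℕ} {Y Y' : Type} [MetricSpace Y] [MetricSpace Y']
    {K K' : Set (EuclideanSpace ℝ (Fin (n + 1)))} {e : Y → EuclideanSpace ℝ (Fin (n + 1))}
    {e' : Y' → EuclideanSpace ℝ (Fin (n + 1))}
    (hK : Convex ℝ K) (hc : IsCompact K) (hi : (interior K).Nonempty)
    (he : Set.range e = frontier K)
    (hd : ∀ a b, edist a b = innerEDist (frontier K) (e a) (e b))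
    (hK' : Convex ℝ K') (hc' : IsCompact K') (hi' : (interior K').Nonempty)
    (he' : Set.range e' = frontier K')
    (hd' : ∀ a b, edist a b = innerEDist (frontier K') (e' a) (e' b))
    {r D : ℝ} (hr : 0 < r) (h1 : HasDisc K n r) (h2 : HasDisc K' n r)
    (hD : ∀ x ∈ K, ∀ y ∈ K, ‖x - y‖ ≤ D) (hD' : ∀ x ∈ K', ∀ y ∈ K', ‖x - y‖ ≤ D) :
    ∃ f : Y → Y', IsBiLip (CL (r / 2) (D + r) * CL (r / 2) (D + r)) f := by
  set L := CL (r / 2) (D + r) with hL
  have hL1 : 1 ≤ L := one_le_CL _ _
  have hdim : Module.finrank ℝ (EuclideanSpace ℝ (Fin (n + 1))) = n + 1 := by simp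
  set u₀ : EuclideanSpace ℝ (Fin (n + 1)) := EuclideanSpace.single 0 1 with hu₀
  have hu₀n : ‖u₀‖ = 1 := by rw [hu₀]; simp
  obtain ⟨F, G, hF, hG, hGF, hFG, hFL, hGL⟩ := exists_model u₀ hu₀n hK hc hi hdim hr h1 hD
  obtain ⟨F', G', hF', hG', hGF', hFG', hFL', hGL'⟩ :=
    exists_model u₀ hu₀n hK' hc' hi' hdim hr h2 hD'
  have heF : ∀ y, e y ∈ frontier K := fun y => by rw [← he]; exact mem_range_self y
  have heF' : ∀ y, e' y ∈ frontier K' := fun y => by rw [← he']; exact mem_range_self y
  have hinj' : Function.Injective e' := by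
    intro a b hab
    have := hd' a b
    rw [hab, innerEDist_self (heF' b)] at this
    exact edist_eq_zero.1 this
  have hinj : Function.Injective e := by
    intro a b hab
    have := hd a b
    rw [hab, innerEDist_self (heF b)] at this
    exact edist_eq_zero.1 this
  have hex : ∀ y, ∃ y', e' y' = G' (F (e y)) := fun y => by
    have : G' (F (e y)) ∈ Set.range e' := by rw [he']; exact hG' (hF (heF y))
    exact this
  choose f hf using hex
  have hcomp1 : PLip (frontier K) (L * L) (G' ∘ F) := hFL.comp hF (by linarith) hGL'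
  have hcomp2 : PLip (frontier K') (L * L) (G ∘ F') := hFL'.comp hF' (by linarith) hGL
  have hmaps1 : MapsTo (G' ∘ F) (frontier K) (frontier K') := fun p hp => hG' (hF hp)
  have hmaps2 : MapsTo (G ∘ F') (frontier K') (frontier K) := fun p hp => hG (hF' hp)
  have hLL : 0 < L * L := by positivity
  have hreal : ∀ {A B : Type} [MetricSpace A] [MetricSpace B] (a b : A) (a' b' : B),
      edist a' b' ≤ ENNReal.ofReal (L * L) * edist a b → dist a' b' ≤ L * L * dist a b := by
    intro A B _ _ a b a' b' hab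
    rw [edist_dist, edist_dist, ← ENNReal.ofReal_mul hLL.le] at hab
    exact (ENNReal.ofReal_le_ofReal_iff (mul_nonneg hLL.le dist_nonneg)).1 hab
  refine ⟨f, ?_, ?_⟩
  · intro y'
    have h3 : G (F' (e' y')) ∈ frontier K := hmaps2 (heF' y')
    rw [← he] at h3
    obtain ⟨y, hy⟩ := h3
    refine ⟨y, hinj' ?_⟩
    rw [hf, hy, hFG _ (hF' (heF' y')), hGF' _ (heF' y')]
  · intro a b
    constructor
    · apply hreal
      have h3 := innerEDist_comp_le hLL hcomp2 hmaps2 (e' (f a)) (e' (f b))
      rw [← hd'] at h3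
      simp only [Function.comp] at h3
      rw [hf, hf, hFG' _ (hF (heF a)), hFG' _ (hF (heF b)), hGF _ (heF a), hGF _ (heF b),
        ← hd] at h3
      exact h3
    · apply hreal
      have h3 := innerEDist_comp_le hLL hcomp1 hmaps1 (e a) (e b)
      rw [← hd] at h3
      simp only [Function.comp] at h3
      rw [← hf, ← hf, ← hd'] at h3
      exact h3

end Pool.Agent.Helper32.CH
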